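import Pool.Agent.Q175.NFC.BS

/-!
# Infinite `NIP` fields of characteristic `p` are Artin-Schreier closed

This is the theorem of Kaplan, Scanlon and Wagner. We give explicit additive polynomials.
-/

set_option autoImplicit false

open Polynomial

namespace Pool.Agent.Q175.NFC

open Pool.Agent.W882.Nip3 Pool.Agent.Q175.NF

section

variable {K : Type} [Field K] (p : ℕ) [Fact p.Prime] [CharP K p]

theorem exists_int_of_pow_eq {x : K} (h : x ^ p = x) : ∃ n : ℤ, (n : K) = x :=
  (mem_bot_iff_intCast p K).mp ((Subfield.mem_bot_iff_pow_eq_self K p).mpr h)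

theorem int_pow (n : ℤ) : (n : K) ^ p = n := by
  have h := map_intCast (frobenius K p) n
  rwa [frobenius_def] at h

/-- Linear independence over the prime field. -/
def Ind {m : ℕ} (w : Fin m → K) : Prop :=
  ∀ c : Fin m → ℤ, ∑ i, (c i : K) * w i = 0 → ∀ i, (c i : K) = 0

include p in
theorem exists_ind [Infinite K] (m : ℕ) : ∃ w : Fin m → K, Ind w := by
  induction m with
  | zero => exact ⟨fun i => i.elim0, fun c _ i => i.elim0⟩
  | succ m ih =>
    obtain ⟨w, hw⟩ := ih
    have : Finite (⊥ : Subfield K) := by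
      let _ := Subfield.fintypeBot K p
      infer_instance
    have hfin : (Set.range fun c : Fin m → (⊥ : Subfield K) =>
        ∑ i, (c i : K) * w i).Finite := Set.finite_range _
    obtain ⟨x, hx⟩ := hfin.exists_notMem
    refine ⟨Fin.cons x w, fun c hc => ?_⟩
    rw [Fin.sum_univ_succ] at hc
    simp only [Fin.cons_zero, Fin.cons_succ] at hc
    have h0 : (c 0 : K) = 0 := by
      by_contra h
      apply hx
      refine ⟨fun i => ⟨-((c 0 : K)⁻¹ * (c i.succ : K)), ?_⟩, ?_⟩
      · exact neg_mem (mul_mem (inv_mem (intCast_mem _ _)) (intCast_mem _ _))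
      · show ∑ i, -((c 0 : K)⁻¹ * (c i.succ : K)) * w i = x
        have h1 : ∑ i, -((c 0 : K)⁻¹ * (c i.succ : K)) * w i =
            -((c 0 : K)⁻¹ * ∑ i : Fin m, (c i.succ : K) * w i) := by
          rw [Finset.mul_sum, ← Finset.sum_neg_distrib]
          exact Finset.sum_congr rfl fun i _ => by ring
        rw [h1]
        field_simp
        linear_combination -hc
    rw [h0, zero_mul, zero_add] at hc
    intro i
    refine Fin.cases h0 (fun i => ?_) i
    exact hw (fun i => c i.succ) hc i

/-- Additive polynomials. -/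
def Addp (P : K[X]) : Prop := ∀ y : K, P.comp (X + C y) = P + C (P.eval y)

omit [Fact p.Prime] [CharP K p] in
theorem addp_X : Addp (X : K[X]) := fun y => by simp

theorem Addp.C_mul {P : K[X]} (h : Addp P) (a : K) : Addp (C a * P) := fun y => by
  rw [mul_comp, C_comp, h y, eval_mul, eval_C, mul_add, Polynomial.C_mul]

theorem Addp.sub {P Q : K[X]} (h : Addp P) (h' : Addp Q) : Addp (P - Q) := fun y => by
  rw [sub_comp, h y, h' y, eval_sub, C_sub]
  ring

theorem Addp.sum {ι : Type} (s : Finset ι) {P : ι → K[X]} (h : ∀ i, Addp (P i)) :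
    Addp (∑ i ∈ s, P i) := fun y => by
  rw [Polynomial.sum_comp, eval_finsetSum, map_sum, ← Finset.sum_add_distrib]
  exact Finset.sum_congr rfl fun i _ => h i y

theorem Addp.pow {P : K[X]} (h : Addp P) : Addp (P ^ p) := fun y => by
  rw [pow_comp, h y, add_pow_char, eval_pow, C_pow]

theorem Addp.comp {P Q : K[X]} (h : Addp P) (h' : Addp Q) : Addp (P.comp Q) := fun y => by
  rw [comp_assoc, h' y, eval_comp]
  have h1 := congrArg (fun R : K[X] => R.comp Q) (h (Q.eval y))
  simp only [comp_assoc, add_comp, X_comp, C_comp] at h1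
  exact h1

theorem Addp.eval_add {P : K[X]} (h : Addp P) (x y : K) :
    P.eval (x + y) = P.eval x + P.eval y := by
  have h1 := congrArg (eval x) (h y)
  rw [eval_comp, Polynomial.eval_add, eval_X, eval_C, Polynomial.eval_add, eval_C] at h1
  exact h1

theorem Addp.eval_zero {P : K[X]} (h : Addp P) : P.eval 0 = 0 := by
  have h1 := h.eval_add 0 0
  rw [add_zero] at h1
  exact left_eq_add.mp h1

theorem Addp.eval_zsmul {P : K[X]} (h : Addp P) (n : ℤ) (x : K) :
    P.eval ((n : K) * x) = (n : K) * P.eval x := by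
  let f : K →+ K := ⟨⟨fun x => P.eval x, h.eval_zero⟩, h.eval_add⟩
  have h1 := map_zsmul f n x
  rw [zsmul_eq_mul, zsmul_eq_mul] at h1
  exact h1

theorem Addp.aeval_add {P : K[X]} (h : Addp P) {Os : Type} [Field Os] [Algebra K Os] (z : Os) (y : K) :
    aeval (z + algebraMap K Os y) P = aeval z P + algebraMap K Os (P.eval y) := by
  have h1 := congrArg (aeval z) (h y)
  rw [aeval_comp, map_add, map_add, aeval_X, aeval_C, aeval_C] at h1
  exact h1

theorem exists_P (m : ℕ) : ∀ w : Fin (m + 1) → K, Ind w →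
    ∃ (P : Fin (m + 1) → K[X]) (T : K[X]) (b : Fin (m + 1) → K), (∀ i, b i ≠ 0) ∧
      (∀ i, P i ^ p - P i = C (b i) * T) ∧ X = ∑ i, C (w i) * P i ∧ (∀ i, Addp (P i)) ∧
      ∀ i j, (P i).eval (w j) = if i = j then 1 else 0 := by
  have hp : p.Prime := Fact.out
  induction m with
  | zero =>
    intro w hw
    have h0 : w 0 ≠ 0 := by
      intro h
      have h1 := hw (fun _ => 1) (by simp [h]) 0
      simp at h1
    refine ⟨fun _ => C (w 0)⁻¹ * X, (C (w 0)⁻¹ * X) ^ p - C (w 0)⁻¹ * X, fun _ => 1,
      fun _ => one_ne_zero, fun i => ?_, ?_, fun i => addp_X.C_mul _, fun i j => ?_⟩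
    · rw [C_1, one_mul]
    · rw [Fin.sum_univ_one, ← mul_assoc, ← C_mul, mul_inv_cancel₀ h0, C_1, one_mul]
    · have hi : i = 0 := Subsingleton.elim (α := Fin 1) i 0
      have hj : j = 0 := Subsingleton.elim (α := Fin 1) j 0
      rw [hi, hj, if_pos rfl, eval_mul, eval_C, eval_X, inv_mul_cancel₀ h0]
  | succ m ih =>
    intro w hw
    have h0 : w 0 ≠ 0 := by
      intro h
      have h1 := hw (Pi.single 0 1) (by
        rw [Finset.sum_eq_single 0]
        · simp [h]
        · intro i _ hi
          simp [hi]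
        · simp) 0
      simp at h1
    -- the additive polynomial with kernel generated by `w 0`
    set R : K[X] := X ^ p - C (w 0 ^ (p - 1)) * X with hR
    have hRadd : Addp R := (addp_X.pow p).sub (addp_X.C_mul _)
    have hR0 : R.eval (w 0) = 0 := by
      rw [hR]
      simp only [eval_sub, eval_pow, eval_X, eval_mul, eval_C]
      rw [← pow_succ, Nat.sub_add_cancel hp.one_le, sub_self]
    have hRker : ∀ x : K, R.eval x = 0 → ∃ n : ℤ, x = (n : K) * w 0 := by
      intro x hx
      rw [hR] at hx
      simp only [eval_sub, eval_pow, eval_X, eval_mul, eval_C] at hx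
      obtain ⟨n, hn⟩ := exists_int_of_pow_eq p (x := x / w 0) (by
        rw [div_pow, div_eq_div_iff (pow_ne_zero _ h0) h0]
        have h1 : w 0 ^ p = w 0 ^ (p - 1) * w 0 := by
          rw [← pow_succ, Nat.sub_add_cancel hp.one_le]
        rw [h1]
        linear_combination w 0 * hx)
      exact ⟨n, by rw [hn, div_mul_cancel₀ _ h0]⟩
    set w' : Fin (m + 1) → K := fun i => R.eval (w i.succ) with hw'
    have hind : Ind w' := by
      intro c hc
      have h1 : R.eval (∑ i, (c i : K) * w i.succ) = 0 := by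
        let f : K →+ K := ⟨⟨fun x => R.eval x, hRadd.eval_zero⟩, hRadd.eval_add⟩
        have h2 := map_sum f (fun i => (c i : K) * w i.succ) Finset.univ
        have h3 : ∀ i, f ((c i : K) * w i.succ) = (c i : K) * w' i := fun i =>
          hRadd.eval_zsmul _ _
        simp only [h3, hc] at h2
        exact h2
      obtain ⟨n, hn⟩ := hRker _ h1
      have h2 := hw (Fin.cons (-n) c) (by
        rw [Fin.sum_univ_succ]
        simp only [Fin.cons_zero, Fin.cons_succ]
        rw [hn]
        push_cast
        ring)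
      intro i
      have h3 := h2 i.succ
      simpa using h3
    obtain ⟨P', T', b', hb', hP', hX', hadd', heval'⟩ := ih w' hind
    -- the new polynomials
    set Q : Fin (m + 1) → K[X] := fun i => (P' i).comp R with hQ
    have hQadd : ∀ i, Addp (Q i) := fun i => (hadd' i).comp hRadd
    set P0 : K[X] := C (w 0)⁻¹ * (X - ∑ i, C (w i.succ) * Q i) with hP0
    have hP0add : Addp P0 := ((addp_X).sub (Addp.sum _ fun i => (hQadd i).C_mul _)).C_mul _
    have hQw0 : ∀ i, (Q i).eval (w 0) = 0 := by
      intro i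
      simp only [hQ]
      rw [eval_comp, hR0, (hadd' i).eval_zero]
    have hQws : ∀ i j : Fin (m + 1), (Q i).eval (w j.succ) = if i = j then 1 else 0 := by
      intro i j
      simp only [hQ]
      rw [eval_comp]
      exact heval' i j
    have hP0w0 : P0.eval (w 0) = 1 := by
      rw [hP0, eval_mul, eval_C, eval_sub, eval_X, eval_finsetSum]
      simp only [eval_mul, eval_C, hQw0, mul_zero, Finset.sum_const_zero, sub_zero]
      exact inv_mul_cancel₀ h0
    have hP0ws : ∀ j : Fin (m + 1), P0.eval (w j.succ) = 0 := by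
      intro j
      rw [hP0, eval_mul, eval_C, eval_sub, eval_X, eval_finsetSum]
      simp only [eval_mul, eval_C, hQws, mul_ite, mul_one, mul_zero, Finset.sum_ite_eq',
        Finset.mem_univ, if_true, sub_self]
    have hQT : ∀ i, Q i ^ p - Q i = C (b' i) * T'.comp R := by
      intro i
      have h1 := congrArg (fun S : K[X] => S.comp R) (hP' i)
      simp only [sub_comp, pow_comp, mul_comp, C_comp] at h1
      exact h1
    have hXQ : ∑ i, C (w' i) * Q i = R := by
      have h1 := congrArg (fun S : K[X] => S.comp R) hX'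
      simp only [X_comp, Polynomial.sum_comp, mul_comp, C_comp] at h1
      exact h1.symm
    set b0 : K := -((w 0)⁻¹ ^ p * ∑ i : Fin (m + 1), w i.succ ^ p * b' i) with hb0
    have hP0T : P0 ^ p - P0 = C b0 * T'.comp R := by
      have h1 : P0 ^ p = C ((w 0)⁻¹ ^ p) * (X ^ p - ∑ i, C (w i.succ ^ p) * Q i ^ p) := by
        rw [hP0, mul_pow, sub_pow_char, sum_pow_char, ← C_pow]
        simp only [mul_pow, ← C_pow]
      have h2 : ∑ i, C (w i.succ ^ p) * Q i ^ p =
          (∑ i, C (w i.succ ^ p) * Q i) + (C (∑ i, w i.succ ^ p * b' i)) * T'.comp R := by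
        rw [map_sum, Finset.sum_mul, ← Finset.sum_add_distrib]
        refine Finset.sum_congr rfl fun i _ => ?_
        rw [C_mul]
        linear_combination C (w i.succ ^ p) * hQT i
      have h3 : R = ∑ i, C (w i.succ ^ p) * Q i - C (w 0 ^ (p - 1)) * ∑ i, C (w i.succ) * Q i := by
        rw [← hXQ, Finset.mul_sum, ← Finset.sum_sub_distrib]
        refine Finset.sum_congr rfl fun i _ => ?_
        have h4 : w' i = w i.succ ^ p - w 0 ^ (p - 1) * w i.succ := by
          simp only [hw', hR, eval_sub, eval_pow, eval_X, eval_mul, eval_C]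
        rw [h4, C_sub, C_mul]
        ring
      have h5 : (C (w 0)⁻¹ : K[X]) = C ((w 0)⁻¹ ^ p) * C (w 0 ^ (p - 1)) := by
        rw [← C_mul]
        congr 1
        have h6 : w 0 ^ p = w 0 ^ (p - 1) * w 0 := by
          rw [← pow_succ, Nat.sub_add_cancel hp.one_le]
        rw [inv_pow, h6]
        have h7 : w 0 ^ (p - 1) ≠ 0 := pow_ne_zero _ h0
        field_simp
      rw [h1, h2, hb0, hP0, h5, map_neg, C_mul, neg_mul]
      linear_combination C ((w 0)⁻¹ ^ p) * h3
    have hb0ne : b0 ≠ 0 := by
      intro h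
      rw [h, C_0, zero_mul] at hP0T
      have h1 : P0 ^ p = P0 := sub_eq_zero.mp hP0T
      have h2 : P0.natDegree = 0 := by
        have h3 := congrArg natDegree h1
        rw [natDegree_pow] at h3
        by_contra h4
        have h5 : 2 * P0.natDegree ≤ p * P0.natDegree := Nat.mul_le_mul_right _ hp.two_le
        omega
      have h3 := eq_C_of_natDegree_eq_zero h2
      have h4 := hP0add.eval_zero
      rw [h3, eval_C] at h4
      rw [h3, eval_C, h4] at hP0w0
      exact zero_ne_one hP0w0
    refine ⟨Fin.cons P0 Q, T'.comp R, Fin.cons b0 b', ?_, ?_, ?_, ?_, ?_⟩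
    · intro i
      refine Fin.cases ?_ (fun i => ?_) i
      · simpa using hb0ne
      · simpa using hb' i
    · intro i
      refine Fin.cases ?_ (fun i => ?_) i
      · simpa using hP0T
      · simpa using hQT i
    · rw [Fin.sum_univ_succ]
      simp only [Fin.cons_zero, Fin.cons_succ]
      rw [hP0, ← mul_assoc, ← C_mul, mul_inv_cancel₀ h0, C_1, one_mul]
      ring
    · intro i
      refine Fin.cases ?_ (fun i => ?_) i
      · simpa using hP0add
      · simpa using hQadd i
    · intro i j
      refine Fin.cases ?_ (fun i => ?_) i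
      · refine Fin.cases ?_ (fun j => ?_) j
        · simpa using hP0w0
        · rw [Fin.cons_zero, hP0ws, if_neg (Fin.succ_ne_zero j).symm]
      · refine Fin.cases ?_ (fun j => ?_) j
        · rw [Fin.cons_succ, hQw0, if_neg (Fin.succ_ne_zero i)]
        · rw [Fin.cons_succ, hQws]
          simp only [Fin.succ_inj]

/-- The field is closed under Artin-Schreier extensions, if the groups `a * ℘(K)` satisfy the
chain condition. -/
theorem as_closed_of [Infinite K] (hn : ∃ n : ℕ, ∀ a : Fin n → K, (∀ i, a i ≠ 0) →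
    ∃ j, ∀ t, (∀ i, i ≠ j → ∃ x, t = a i * (x ^ p - x)) → ∃ x, t = a j * (x ^ p - x)) (y : K) :
    ∃ x : K, x ^ p - x = y := by
  have hp : p.Prime := Fact.out
  obtain ⟨n, hn⟩ := hn
  rcases n with _ | m
  · obtain ⟨j, _⟩ := hn (fun i => i.elim0) fun i => i.elim0
    exact j.elim0
  obtain ⟨w, hw⟩ := exists_ind (K := K) p (m + 1)
  obtain ⟨P, T, b, hb, hP, hX, hadd, heval⟩ := exists_P p m w hw
  obtain ⟨j, hj⟩ := hn (fun i => (b i)⁻¹) fun i => inv_ne_zero (hb i)
  have hwj : w j ≠ 0 := by
    intro h
    have h1 := hw (Pi.single j 1) (by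
      rw [Finset.sum_eq_single j]
      · simp [h]
      · intro i _ hi
        simp [hi]
      · simp) j
    simp at h1
  let Os := SeparableClosure K
  have hchar : CharP Os p := charP_of_injective_algebraMap (algebraMap K Os).injective p
  -- a root of the polynomial `X ^ p - w ^ (p - 1) * X - y * w ^ p`
  obtain ⟨z, hz⟩ : ∃ z : Os, z ^ p - algebraMap K Os (w j ^ (p - 1)) * z =
      algebraMap K Os (y * w j ^ p) := by
    let f : Os[X] := X ^ p - C (algebraMap K Os (w j ^ (p - 1))) * X - C (algebraMap K Os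
      (y * w j ^ p))
    have hd : f.derivative = C (-(algebraMap K Os (w j ^ (p - 1)))) := by
      simp only [f, derivative_sub, derivative_X_pow, derivative_C_mul, derivative_X,
        derivative_C]
      rw [CharP.cast_eq_zero]
      simp
    have hdeg : f.degree = p := by
      have h1 : f = X ^ p + (-(C (algebraMap K Os (w j ^ (p - 1))) * X + C (algebraMap K Os
        (y * w j ^ p)))) := by
        simp only [f]
        ring
      have h2 : (-(C (algebraMap K Os (w j ^ (p - 1))) * X + C (algebraMap K Os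
          (y * w j ^ p)))).degree < (X ^ p : Os[X]).degree := by
        rw [degree_neg, degree_X_pow]
        refine lt_of_le_of_lt (degree_linear_le) ?_
        exact_mod_cast hp.one_lt
      rw [h1, degree_add_eq_left_of_degree_lt h2, degree_X_pow]
    obtain ⟨z, hz⟩ := IsSepClosed.exists_root f (by
      rw [hdeg]
      exact_mod_cast hp.ne_zero) (by
      rw [Polynomial.Separable, hd]
      have hu : IsUnit (C (-(algebraMap K Os (w j ^ (p - 1)))) : Os[X]) := by
        rw [isUnit_C, isUnit_iff_ne_zero, neg_ne_zero, ← map_zero (algebraMap K Os)]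
        exact fun h => pow_ne_zero _ hwj ((algebraMap K Os).injective h)
      obtain ⟨u, hu⟩ := hu
      exact ⟨0, ↑u⁻¹, by rw [← hu]; simp⟩)
    refine ⟨z, ?_⟩
    rw [IsRoot.def] at hz
    simp only [f, eval_sub, eval_pow, eval_X, eval_mul, eval_C] at hz
    exact sub_eq_zero.mp hz
  have hwOs : algebraMap K Os (w j) ≠ 0 := by
    rw [← map_zero (algebraMap K Os)]
    exact fun h => hwj ((algebraMap K Os).injective h)
  -- the conjugates of `z`
  have hconj : ∀ σ : Os ≃ₐ[K] Os, ∃ n : ℤ, σ z = z + algebraMap K Os ((n : K) * w j) := by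
    intro σ
    have h1 := congrArg σ hz
    rw [map_sub, map_mul, map_pow, AlgEquiv.commutes, AlgEquiv.commutes] at h1
    obtain ⟨n, hn⟩ := exists_int_of_pow_eq p (x := (σ z - z) / algebraMap K Os (w j)) (by
      rw [div_pow, div_eq_div_iff (pow_ne_zero _ hwOs) hwOs, sub_pow_char]
      have h2 : algebraMap K Os (w j) ^ p = algebraMap K Os (w j ^ (p - 1)) *
          algebraMap K Os (w j) := by
        rw [map_pow, ← pow_succ, Nat.sub_add_cancel hp.one_le]
      rw [h2]
      linear_combination algebraMap K Os (w j) * (h1 - hz))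
    refine ⟨n, ?_⟩
    rw [map_mul, map_intCast, hn, div_mul_cancel₀ _ hwOs]
    ring
  have hPi : ∀ i, i ≠ j → ∃ x : K, algebraMap K Os x = aeval z (P i) := by
    intro i hij
    have h1 : aeval z (P i) ∈ Set.range (algebraMap K Os) := by
      rw [InfiniteGalois.mem_range_algebraMap_iff_fixed]
      intro σ
      obtain ⟨n, hn⟩ := hconj σ
      have h2 : σ (aeval z (P i)) = aeval (σ z) (P i) := (aeval_algHom_apply σ.toAlgHom z _).symm
      rw [h2, hn, (hadd i).aeval_add, (hadd i).eval_zsmul, heval, if_neg hij, mul_zero, map_zero,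
        add_zero]
    exact h1
  have hTP : ∀ i, aeval z T = algebraMap K Os (b i)⁻¹ * (aeval z (P i) ^ p - aeval z (P i)) := by
    intro i
    have h1 := congrArg (aeval z) (hP i)
    rw [map_sub, map_pow, map_mul, aeval_C] at h1
    rw [h1, ← mul_assoc, ← map_mul, inv_mul_cancel₀ (hb i), map_one, one_mul]
  have hT : ∃ t : K, algebraMap K Os t = aeval z T := by
    have h1 : aeval z T ∈ Set.range (algebraMap K Os) := by
      rw [InfiniteGalois.mem_range_algebraMap_iff_fixed]
      intro σ
      obtain ⟨n, hn⟩ := hconj σ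
      have h2 : σ (aeval z (P j)) = aeval z (P j) + algebraMap K Os (n : K) := by
        have h3 : σ (aeval z (P j)) = aeval (σ z) (P j) :=
          (aeval_algHom_apply σ.toAlgHom z _).symm
        rw [h3, hn, (hadd j).aeval_add, (hadd j).eval_zsmul, heval, if_pos rfl, mul_one]
      have h3 : algebraMap K Os (n : K) ^ p = algebraMap K Os (n : K) := by
        rw [← map_pow, int_pow]
      rw [hTP j, map_mul, AlgEquiv.commutes, map_sub, map_pow, h2, add_pow_char, h3]
      ring
    exact h1
  obtain ⟨t, ht⟩ := hT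
  obtain ⟨xj, hxj⟩ := hj t (by
    intro i hij
    obtain ⟨x, hx⟩ := hPi i hij
    refine ⟨x, (algebraMap K Os).injective ?_⟩
    rw [ht, hTP i, ← hx, map_mul, map_sub, map_pow])
  have hPj : ∃ x : K, algebraMap K Os x = aeval z (P j) := by
    have h1 : (aeval z (P j) - algebraMap K Os xj) ^ p = aeval z (P j) - algebraMap K Os xj := by
      have h2 := congrArg (algebraMap K Os) hxj
      rw [ht, hTP j, map_mul, map_sub, map_pow] at h2
      have h3 : algebraMap K Os (b j)⁻¹ ≠ 0 := by
        rw [← map_zero (algebraMap K Os)]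
        exact fun h => inv_ne_zero (hb j) ((algebraMap K Os).injective h)
      have h4 := mul_left_cancel₀ h3 h2
      rw [sub_pow_char]
      linear_combination h4
    obtain ⟨n, hn⟩ := exists_int_of_pow_eq p h1
    exact ⟨xj + n, by rw [map_add, map_intCast, hn]; ring⟩
  have hPall : ∀ i, ∃ x : K, algebraMap K Os x = aeval z (P i) := by
    intro i
    by_cases hij : i = j
    · rw [hij]
      exact hPj
    · exact hPi i hij
  choose x hx using hPall
  have hzK : z = algebraMap K Os (∑ i, w i * x i) := by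
    have h1 := congrArg (aeval z) hX
    rw [aeval_X, map_sum] at h1
    rw [h1, map_sum]
    refine Finset.sum_congr rfl fun i _ => ?_
    rw [map_mul, map_mul, aeval_C, hx]
  refine ⟨(∑ i, w i * x i) / w j, ?_⟩
  set s := ∑ i, w i * x i with hs
  rw [hzK, ← map_pow, ← map_mul, ← map_sub] at hz
  have h1 := (algebraMap K Os).injective hz
  have h2 : w j ^ p = w j ^ (p - 1) * w j := by
    rw [← pow_succ, Nat.sub_add_cancel hp.one_le]
  have h3 : w j ^ (p - 1) ≠ 0 := pow_ne_zero _ hwj
  rw [h2] at h1
  rw [div_pow, h2]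
  field_simp
  linear_combination h1

end

/-- Infinite `NIP` fields are Artin-Schreier closed (Kaplan, Scanlon, Wagner). -/
theorem as_closed {K : Type} [Field K] [FirstOrder.Ring.CompatibleRing K] (hK : NIPField K)
    [Infinite K] (p : ℕ) [Fact p.Prime] [CharP K p] (y : K) : ∃ x : K, x ^ p - x = y := by
  refine as_closed_of p ?_ y
  have hR : PD (fun v : Unit ⊕ Unit → K => ∃ x : K, v (Sum.inr ()) = v (Sum.inl ()) *
      (x ^ p - x)) := by
    apply PD.ex1
    exact PD.eq (PT.var (Sum.inl (Sum.inr ()))) ((PT.var (Sum.inl (Sum.inl ()))).mul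
      (((PT.var (Sum.inr ())).pow p).sub (PT.var (Sum.inr ()))))
  let f : K → K →+ K := fun a =>
    (AddMonoidHom.mulLeft a).comp ((frobenius K p).toAddMonoidHom - AddMonoidHom.id K)
  have hf : ∀ a x, f a x = a * (x ^ p - x) := fun a x => rfl
  obtain ⟨n, hn⟩ := baldwin_saxl hK hR (G := K) (I := K) (fun g _ => g) (fun a _ => a)
    (fun a => (f a).range) (by
      intro a g
      simp only [Sum.elim_inl, Sum.elim_inr, AddMonoidHom.mem_range, hf]
      exact ⟨fun ⟨x, hx⟩ => ⟨x, hx.symm⟩, fun ⟨x, hx⟩ => ⟨x, hx.symm⟩⟩)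
  refine ⟨n, fun a _ => ?_⟩
  obtain ⟨j, hj⟩ := hn a
  refine ⟨j, fun t ht => ?_⟩
  obtain ⟨x, hx⟩ := hj t fun i hi => by
    obtain ⟨x, hx⟩ := ht i hi
    exact ⟨x, hx.symm⟩
  exact ⟨x, hx.symm⟩

end Pool.Agent.Q175.NFC
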