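import Pool.Agent.Q175.NFC.Interp

/-!
# Intersections of definable groups in `NIP` fields
-/

set_option autoImplicit false

open FirstOrder FirstOrder.Language FirstOrder.Ring

namespace Pool.Agent.Q175.NFC

open Pool.Agent.W882.Nip3 Pool.Agent.Q175.NF

/-- The lemma of Baldwin and Saxl. -/
theorem baldwin_saxl {K : Type} [Field K] [CompatibleRing K] (hK : NIPField K) {α β : Type}
    [Finite α] [Finite β] {R : (α ⊕ β → K) → Prop} (hR : PD R) {G I : Type} [AddCommGroup G]
    (θ : G → β → K) (η : I → α → K) (H : I → AddSubgroup G)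
    (hH : ∀ i g, R (Sum.elim (η i) (θ g)) ↔ g ∈ H i) :
    ∃ n : ℕ, ∀ r : Fin n → I, ∃ j, ∀ g, (∀ i, i ≠ j → g ∈ H (r i)) → g ∈ H (r j) := by
  classical
  obtain ⟨n, hn⟩ := nip_PD hK hR
  refine ⟨n, fun r => ?_⟩
  by_contra hcon
  push Not at hcon
  choose t ht1 ht2 using hcon
  obtain ⟨i, J, hiJ⟩ := hn (fun i => η (r i)) (fun J => θ (∑ j ∈ Finset.univ \ J, t j))
  apply hiJ
  rw [hH]
  constructor
  · intro h
    by_contra hi
    have h1 : i ∈ Finset.univ \ J := Finset.mem_sdiff.mpr ⟨Finset.mem_univ _, hi⟩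
    rw [← Finset.add_sum_erase _ _ h1] at h
    have h2 : ∑ j ∈ (Finset.univ \ J).erase i, t j ∈ H (r i) :=
      AddSubgroup.sum_mem _ fun j hj => ht1 j i (Finset.ne_of_mem_erase hj).symm
    exact ht2 i ((AddSubgroup.add_mem_cancel_right _ h2).mp h)
  · intro hi
    refine AddSubgroup.sum_mem _ fun j hj => ht1 j i ?_
    rintro rfl
    exact (Finset.mem_sdiff.mp hj).2 hi

section

variable {G I : Type} [AddCommGroup G] (H : I → AddSubgroup G) {n : ℕ}
  (hn : ∀ r : Fin n → I, ∃ j, ∀ g, (∀ i, i ≠ j → g ∈ H (r i)) → g ∈ H (r j))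

include hn in
theorem exists_reduced (k : ℕ) : ∀ s : Finset I, s.card = k → ∃ s' : Finset I, s'.card < n ∧
    ∀ g, (∀ i ∈ s', g ∈ H i) → ∀ i ∈ s, g ∈ H i := by
  classical
  induction k with
  | zero =>
    intro s hs
    refine ⟨s, ?_, fun g hg => hg⟩
    rw [hs]
    rcases Nat.eq_zero_or_pos n with rfl | h
    · obtain ⟨j, _⟩ := hn fun i => i.elim0
      exact j.elim0
    · exact h
  | succ k ih =>
    intro s hs
    by_cases h : s.card < n
    · exact ⟨s, h, fun g hg => hg⟩
    obtain ⟨u, hu1, hu2⟩ := Finset.exists_subset_card_eq (not_lt.mp h)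
    let e : Fin n ≃ u := (finCongr hu2.symm).trans u.equivFin.symm
    obtain ⟨j, hj⟩ := hn (fun i => (e i : I))
    have hjs : (e j : I) ∈ s := hu1 (e j).2
    obtain ⟨s', hs1, hs2⟩ := ih (s.erase (e j)) (by rw [Finset.card_erase_of_mem hjs, hs]; rfl)
    refine ⟨s', hs1, fun g hg i hi => ?_⟩
    have h1 := hs2 g hg
    by_cases hij : i = e j
    · rw [hij]
      refine hj g fun l hl => h1 _ (Finset.mem_erase.mpr ⟨?_, hu1 (e l).2⟩)
      intro hcon
      exact hl (e.injective (Subtype.ext hcon))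
    · exact h1 i (Finset.mem_erase.mpr ⟨hij, hi⟩)

include hn in
/-- A family of subgroups of bounded finite index with the chain condition has a finite
subfamily with the same intersection. -/
theorem exists_finite_inter {N : ℕ} (hN : ∀ i, (H i).index ≠ 0 ∧ (H i).index ≤ N) :
    ∃ s : Finset I, (⨅ i ∈ s, H i).index ≠ 0 ∧ ∀ r, (⨅ i ∈ s, H i) ≤ H r := by
  classical
  have hmem : ∀ (s : Finset I) (g : G), g ∈ (⨅ i ∈ s, H i) ↔ ∀ i ∈ s, g ∈ H i := by
    intro s g
    simp only [AddSubgroup.mem_iInf]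
  have hb : ∀ s : Finset I, (⨅ i ∈ s, H i).index ≠ 0 ∧ (⨅ i ∈ s, H i).index ≤ (N + 1) ^ s.card := by
    intro s
    induction s using Finset.induction_on with
    | empty =>
      simp only [Finset.notMem_empty, iInf_false, iInf_top, AddSubgroup.index_top,
        Finset.card_empty, pow_zero, le_refl, and_true]
      exact one_ne_zero
    | insert i s hi ih =>
      have h1 : (⨅ j ∈ insert i s, H j) = H i ⊓ ⨅ j ∈ s, H j := by
        ext g
        rw [hmem, AddSubgroup.mem_inf, hmem]
        simp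
      rw [h1, Finset.card_insert_of_notMem hi, pow_succ]
      have h2 := AddSubgroup.index_inf_le (H := H i) (K := ⨅ j ∈ s, H j)
      refine ⟨AddSubgroup.index_inf_ne_zero (hN i).1 ih.1, h2.trans ?_⟩
      calc (H i).index * (⨅ j ∈ s, H j).index ≤ (N + 1) * (N + 1) ^ s.card :=
            Nat.mul_le_mul ((hN i).2.trans (Nat.le_succ N)) ih.2
        _ = (N + 1) ^ s.card * (N + 1) := mul_comm _ _
  have hbd : ∀ s : Finset I, (⨅ i ∈ s, H i).index ≤ (N + 1) ^ n := by
    intro s
    obtain ⟨s', h1, h2⟩ := exists_reduced H hn s.card s rfl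
    have h3 : (⨅ i ∈ s', H i) ≤ ⨅ i ∈ s, H i := by
      intro g hg
      rw [hmem] at hg ⊢
      exact h2 g hg
    calc (⨅ i ∈ s, H i).index ≤ (⨅ i ∈ s', H i).index :=
          Nat.le_of_dvd (Nat.pos_of_ne_zero (hb s').1) (AddSubgroup.index_dvd_of_le h3)
      _ ≤ (N + 1) ^ s'.card := (hb s').2
      _ ≤ (N + 1) ^ n := Nat.pow_le_pow_right (Nat.succ_pos N) h1.le
  have hex : ∃ s : Finset I, ∀ t : Finset I, (⨅ i ∈ t, H i).index ≤ (⨅ i ∈ s, H i).index := by
    by_contra hcon
    push Not at hcon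
    have h1 : ∀ k : ℕ, ∃ s : Finset I, k ≤ (⨅ i ∈ s, H i).index := by
      intro k
      induction k with
      | zero => exact ⟨∅, Nat.zero_le _⟩
      | succ k ih =>
        obtain ⟨s, hs⟩ := ih
        obtain ⟨t, ht⟩ := hcon s
        exact ⟨t, by omega⟩
    obtain ⟨s, hs⟩ := h1 ((N + 1) ^ n + 1)
    have := hbd s
    omega
  obtain ⟨s, hs⟩ := hex
  refine ⟨s, (hb s).1, fun r => ?_⟩
  have h1 : (⨅ j ∈ insert r s, H j) = H r ⊓ ⨅ j ∈ s, H j := by
    ext g
    rw [hmem, AddSubgroup.mem_inf, hmem]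
    simp
  have h2 := hs (insert r s)
  rw [h1] at h2
  have h3 : (H r ⊓ ⨅ j ∈ s, H j).relIndex (⨅ j ∈ s, H j) * (⨅ j ∈ s, H j).index =
      (H r ⊓ ⨅ j ∈ s, H j).index := AddSubgroup.relIndex_mul_index inf_le_right
  have h4 : (H r ⊓ ⨅ j ∈ s, H j).index ≠ 0 := AddSubgroup.index_inf_ne_zero (hN r).1 (hb s).1
  have h5 : (H r ⊓ ⨅ j ∈ s, H j).relIndex (⨅ j ∈ s, H j) = 1 := by
    have h6 : (H r ⊓ ⨅ j ∈ s, H j).relIndex (⨅ j ∈ s, H j) ≠ 0 := by
      intro h
      rw [h, zero_mul] at h3
      exact h4 h3.symm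
    by_contra h7
    have h8 : 2 ≤ (H r ⊓ ⨅ j ∈ s, H j).relIndex (⨅ j ∈ s, H j) := by omega
    have h9 := Nat.mul_le_mul_right (⨅ j ∈ s, H j).index h8
    rw [h3] at h9
    have := (hb s).1
    omega
  exact (AddSubgroup.relIndex_eq_one.mp h5).trans inf_le_left

end

/-- A subgroup of finite index of a module over a local ring with infinite residue field, which
satisfies the chain condition, is the whole module. -/
theorem eq_top_of_module {O : Type} [CommRing O] [IsLocalRing O]
    (hinf : Infinite (IsLocalRing.ResidueField O)) {G : Type} [AddCommGroup G] [Module O G]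
    (H : AddSubgroup G) (hidx : H.index ≠ 0)
    (hBS : ∃ n : ℕ, ∀ r : Fin n → O, ∃ j, ∀ g : G, (∀ i, i ≠ j → r i • g ∈ H) → r j • g ∈ H) :
    H = ⊤ := by
  classical
  obtain ⟨n, hn⟩ := hBS
  let f : O → G →+ G := fun r => DistribSMul.toAddMonoidHom G r
  let HH : O → AddSubgroup G := fun r => H.comap (f r)
  have hHH : ∀ r g, g ∈ HH r ↔ r • g ∈ H := fun r g => Iff.rfl
  have hidx2 : ∀ r, (HH r).index ≠ 0 ∧ (HH r).index ≤ H.index := by
    intro r
    have h1 : (HH r).index ∣ H.index := by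
      have h2 : (HH r).index = H.relIndex (f r).range := AddSubgroup.index_comap H (f r)
      rw [h2]
      exact AddSubgroup.relIndex_dvd_index_of_normal H _
    exact ⟨ne_zero_of_dvd_ne_zero hidx h1, Nat.le_of_dvd (Nat.pos_of_ne_zero hidx) h1⟩
  obtain ⟨s, hs1, hs2⟩ := exists_finite_inter HH (n := n) hn hidx2
  set A : AddSubgroup G := ⨅ i ∈ s, HH i with hA
  have hAsm : ∀ (r : O) (g : G), g ∈ A → r • g ∈ A := by
    intro r g hg
    rw [hA]
    simp only [AddSubgroup.mem_iInf]
    intro i _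
    rw [hHH, smul_smul]
    exact hs2 (i * r) hg
  rw [eq_top_iff]
  intro g _
  have hgA : g ∈ A := by
    by_contra hg
    let I : Ideal O :=
      { carrier := {r | r • g ∈ A}
        add_mem' := fun {a b} ha hb => by
          show (a + b) • g ∈ A
          rw [add_smul]
          exact A.add_mem ha hb
        zero_mem' := by
          show (0 : O) • g ∈ A
          rw [zero_smul]
          exact A.zero_mem
        smul_mem' := fun c x hx => by
          show (c • x) • g ∈ A
          rw [smul_assoc]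
          exact hAsm c _ hx }
    have hI : I ≠ ⊤ := by
      intro h
      have h1 : (1 : O) ∈ I := by rw [h]; trivial
      apply hg
      have h2 : (1 : O) • g ∈ A := h1
      rwa [one_smul] at h2
    have hFI : A.FiniteIndex := ⟨hs1⟩
    have hfinG : Finite (G ⧸ A) := AddSubgroup.finite_quotient_of_finiteIndex
    have hfin : Finite (O ⧸ I) := by
      let φ : O → G ⧸ A := fun r => QuotientAddGroup.mk (r • g)
      refine Finite.of_injective (fun q : O ⧸ I => φ (Quotient.out q)) ?_
      intro q q' hqq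
      have h1 : (QuotientAddGroup.mk (Quotient.out q • g) : G ⧸ A) =
        QuotientAddGroup.mk (Quotient.out q' • g) := hqq
      rw [QuotientAddGroup.eq] at h1
      have h2 : Quotient.out q' - Quotient.out q ∈ I := by
        show (Quotient.out q' - Quotient.out q) • g ∈ A
        rw [sub_smul, sub_eq_neg_add]
        exact h1
      have h3 := (Ideal.Quotient.mk_eq_mk_iff_sub_mem _ _).mpr h2
      have h4 : (Ideal.Quotient.mk I) (Quotient.out q) = q := Quotient.out_eq' q
      have h5 : (Ideal.Quotient.mk I) (Quotient.out q') = q' := Quotient.out_eq' q'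
      rw [h4, h5] at h3
      exact h3.symm
    have hsurj : Function.Surjective (Ideal.Quotient.factor (IsLocalRing.le_maximalIdeal hI)) :=
      Ideal.Quotient.factor_surjective _
    have : Finite (IsLocalRing.ResidueField O) := Finite.of_surjective _ hsurj
    exact not_finite (IsLocalRing.ResidueField O)
  have h1 := hs2 1 hgA
  rw [hHH, one_smul] at h1
  exact h1

end Pool.Agent.Q175.NFC
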