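import Pool.Agent.Q175.NFC.LemJ

/-!
# Conjugate valuations over `NIP` fields of characteristic `p`
-/

set_option autoImplicit false

open Polynomial

namespace Pool.Agent.Q175.NFC

open Pool.Agent.W882.Nip3 Pool.Agent.Q175.NF

section

variable {F : Type} [Field F]

/-- The largest valuation ring which contains `W` and in which `b` is not invertible. -/
def coarse (W : ValuationSubring F) (b : F) (hb : W.valuation b < 1) : ValuationSubring F where
  carrier := {x | ∀ n : ℕ, W.valuation (b * x ^ n) ≤ 1}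
  mul_mem' := by
    intro x y hx hy n
    rw [map_mul, map_pow, map_mul]
    rcases le_total (W.valuation x) (W.valuation y) with h | h
    · calc W.valuation b * (W.valuation x * W.valuation y) ^ n ≤
          W.valuation b * (W.valuation y * W.valuation y) ^ n := by gcongr
        _ = W.valuation (b * y ^ (2 * n)) := by
          rw [map_mul, map_pow, pow_mul, pow_two]
        _ ≤ 1 := hy _
    · calc W.valuation b * (W.valuation x * W.valuation y) ^ n ≤
          W.valuation b * (W.valuation x * W.valuation x) ^ n := by gcongr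
        _ = W.valuation (b * x ^ (2 * n)) := by
          rw [map_mul, map_pow, pow_mul, pow_two]
        _ ≤ 1 := hx _
  one_mem' := by
    intro n
    rw [one_pow, mul_one]
    exact hb.le
  add_mem' := by
    intro x y hx hy n
    rw [map_mul, map_pow]
    rcases le_total (W.valuation x) (W.valuation y) with h | h
    · calc W.valuation b * W.valuation (x + y) ^ n ≤ W.valuation b * W.valuation y ^ n := by
            gcongr
            exact (W.valuation.map_add _ _).trans (max_le h le_rfl)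
        _ = W.valuation (b * y ^ n) := by rw [map_mul, map_pow]
        _ ≤ 1 := hy _
    · calc W.valuation b * W.valuation (x + y) ^ n ≤ W.valuation b * W.valuation x ^ n := by
            gcongr
            exact (W.valuation.map_add _ _).trans (max_le le_rfl h)
        _ = W.valuation (b * x ^ n) := by rw [map_mul, map_pow]
        _ ≤ 1 := hx _
  zero_mem' := by
    intro n
    rcases n with _ | n
    · rw [pow_zero, mul_one]
      exact hb.le
    · rw [zero_pow (Nat.succ_ne_zero n), mul_zero, map_zero]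
      exact zero_le
  neg_mem' := by
    intro x hx n
    rw [map_mul, map_pow, Valuation.map_neg, ← map_pow, ← map_mul]
    exact hx n
  mem_or_inv_mem' := by
    intro x
    have key : ∀ x, W.valuation x ≤ 1 → ∀ n : ℕ, W.valuation (b * x ^ n) ≤ 1 := by
      intro x hx n
      rw [map_mul, map_pow]
      exact mul_le_one' hb.le (pow_le_one' hx n)
    rcases le_total (W.valuation x) 1 with h | h
    · exact Or.inl (key x h)
    · refine Or.inr (key x⁻¹ ?_)
      rw [map_inv₀]
      exact inv_le_one_of_one_le₀ h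

variable {W : ValuationSubring F} {b : F} {hb : W.valuation b < 1}

theorem mem_coarse {x : F} : x ∈ coarse W b hb ↔ ∀ n : ℕ, W.valuation (b * x ^ n) ≤ 1 := Iff.rfl

theorem le_coarse : W ≤ coarse W b hb := by
  intro x hx n
  rw [map_mul, map_pow]
  exact mul_le_one' hb.le (pow_le_one' ((ValuationSubring.valuation_le_one_iff _ _).mpr hx) n)

theorem val_lt_one_iff_inv {A : ValuationSubring F} {x : F} (hx : x ≠ 0) :
    A.valuation x < 1 ↔ x⁻¹ ∉ A := by
  rw [← ValuationSubring.valuation_le_one_iff, map_inv₀, not_le,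
    one_lt_inv₀ (zero_lt_iff.mpr ((Valuation.ne_zero_iff _).mpr hx))]

theorem one_lt_val_iff {A : ValuationSubring F} {x : F} : 1 < A.valuation x ↔ x ∉ A := by
  rw [← ValuationSubring.valuation_le_one_iff, not_le]

theorem coarse_lt (hb0 : b ≠ 0) {x : F} :
    (coarse W b hb).valuation x < 1 ↔ ∃ n : ℕ, W.valuation (x ^ n) < W.valuation b := by
  have hb0' : 0 < W.valuation b := zero_lt_iff.mpr ((Valuation.ne_zero_iff _).mpr hb0)
  by_cases hx : x = 0
  · rw [hx, map_zero]
    refine ⟨fun _ => ⟨1, ?_⟩, fun _ => zero_lt_one⟩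
    rw [pow_one, map_zero]
    exact hb0'
  rw [val_lt_one_iff_inv hx, mem_coarse]
  push Not
  refine exists_congr fun n => ?_
  have hx0 : 0 < W.valuation (x ^ n) :=
    zero_lt_iff.mpr ((Valuation.ne_zero_iff _).mpr (pow_ne_zero _ hx))
  rw [inv_pow, map_mul, map_inv₀, ← div_eq_mul_inv, one_lt_div₀ hx0]

theorem coarse_ne_top (hb0 : b ≠ 0) : coarse W b hb ≠ ⊤ := by
  intro h
  have h1 : (coarse W b hb).valuation b < 1 := by
    rw [coarse_lt hb0]
    refine ⟨2, ?_⟩
    rw [map_pow]
    exact pow_lt_self_of_lt_one₀ (zero_lt_iff.mpr ((Valuation.ne_zero_iff _).mpr hb0)) hb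
      one_lt_two
  rw [val_lt_one_iff_inv hb0, h] at h1
  exact h1 (ValuationSubring.mem_top _)

theorem val_b_coarse (hb0 : b ≠ 0) : (coarse W b hb).valuation b < 1 := by
  rw [coarse_lt hb0]
  refine ⟨2, ?_⟩
  rw [map_pow]
  exact pow_lt_self_of_lt_one₀ (zero_lt_iff.mpr ((Valuation.ne_zero_iff _).mpr hb0)) hb
    one_lt_two

end

theorem comap_coarse {K : Type} [Field K] {L : Type} [Field L] [Algebra K L]
    {V : ValuationSubring K} {W : ValuationSubring L} (hW : W.comap (algebraMap K L) = V) {b : K}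
    (hb : V.valuation b < 1) :
    (coarse W (algebraMap K L b) ((ext_lt_one hW b).mpr hb)).comap (algebraMap K L) =
      coarse V b hb := by
  ext x
  rw [ValuationSubring.mem_comap, mem_coarse, mem_coarse]
  refine forall_congr' fun n => ?_
  rw [← map_pow, ← map_mul, ext_le_one hW]

/-- Avoiding roots of geometric sums. -/
theorem exists_geom {k : Type} [Field k] {ι : Type} [Fintype ι] (u : ι → k) (p : ℕ) [Fact p.Prime]
    [CharP k p] : ∃ l : ℕ, 2 ≤ l ∧ ∀ i, ∑ j ∈ Finset.range l, u i ^ j ≠ 0 := by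
  classical
  have hp : p.Prime := Fact.out
  let d : ι → ℕ := fun i => if orderOf (u i) = 0 then 1 else orderOf (u i)
  have hd : ∀ i, d i ≠ 0 := by
    intro i
    simp only [d]
    split_ifs with h
    · exact one_ne_zero
    · exact h
  set N := p * ∏ i, d i with hN
  have hN0 : N ≠ 0 := mul_ne_zero hp.ne_zero (Finset.prod_ne_zero_iff.mpr fun i _ => hd i)
  refine ⟨N + 1, by omega, fun i h => ?_⟩
  have h1 : (u i - 1) * ∑ j ∈ Finset.range (N + 1), u i ^ j = u i ^ (N + 1) - 1 := mul_geom_sum _ _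
  rw [h, mul_zero] at h1
  have h2 : u i ^ (N + 1) = 1 := (sub_eq_zero.mp h1.symm)
  have h3 : orderOf (u i) ≠ 0 := by
    rw [← Nat.pos_iff_ne_zero, orderOf_pos_iff]
    exact isOfFinOrder_iff_pow_eq_one.mpr ⟨N + 1, Nat.succ_pos _, h2⟩
  have h4 : orderOf (u i) ∣ N := by
    refine Dvd.dvd.mul_left ?_ p
    have h5 : d i = orderOf (u i) := by simp only [d, h3, if_false]
    rw [← h5]
    exact Finset.dvd_prod_of_mem d (Finset.mem_univ i)
  have h5 : u i ^ N = 1 := orderOf_dvd_iff_pow_eq_one.mp h4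
  have h6 : u i = 1 := by
    rw [pow_succ, h5, one_mul] at h2
    exact h2
  rw [h6] at h
  simp only [one_pow, Finset.sum_const, Finset.card_range, nsmul_eq_mul, mul_one] at h
  rw [hN] at h
  push_cast at h
  rw [CharP.cast_eq_zero, zero_mul, zero_add] at h
  exact one_ne_zero h

section

variable {L : Type} [Field L] (A : ValuationSubring L)

theorem geom_unit {x : L} (hx : A.valuation x ≤ 1) {l : ℕ}
    (h : ∑ j ∈ Finset.range l, IsLocalRing.residue A
      ⟨x, (ValuationSubring.valuation_le_one_iff _ _).mp hx⟩ ^ j ≠ 0) :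
    A.valuation (∑ j ∈ Finset.range l, x ^ j) = 1 := by
  set x' : A := ⟨x, (ValuationSubring.valuation_le_one_iff _ _).mp hx⟩ with hx'
  have h1 : IsLocalRing.residue A (∑ j ∈ Finset.range l, x' ^ j) ≠ 0 := by
    rw [map_sum]
    simpa only [map_pow] using h
  have h2 : ((∑ j ∈ Finset.range l, x' ^ j : A) : L) = ∑ j ∈ Finset.range l, x ^ j := by
    push_cast
    rfl
  rw [Ne, IsLocalRing.residue_eq_zero_iff, ValuationSubring.valuation_lt_one_iff, h2, not_lt] at h1
  refine le_antisymm ?_ h1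
  rw [← h2]
  exact (ValuationSubring.valuation_le_one_iff _ _).mpr (Subtype.mem _)

theorem geom_large {x : L} (hx : 1 < A.valuation x) {l : ℕ} (hl : 2 ≤ l) :
    1 < A.valuation (∑ j ∈ Finset.range l, x ^ j) := by
  have hx0 : x ≠ 0 := by
    rintro rfl
    rw [map_zero] at hx
    exact absurd hx (not_lt.mpr zero_le)
  obtain ⟨m, rfl⟩ : ∃ m, l = m + 1 := ⟨l - 1, by omega⟩
  rw [Finset.sum_range_succ]
  have h1 : A.valuation (∑ j ∈ Finset.range m, x ^ j) < A.valuation (x ^ m) := by
    refine Valuation.map_sum_lt _ ((Valuation.ne_zero_iff _).mpr (pow_ne_zero _ hx0)) fun i hi => ?_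
    rw [map_pow, map_pow]
    exact pow_lt_pow_right₀ hx (Finset.mem_range.mp hi)
  rw [Valuation.map_add_eq_of_lt_right _ h1, map_pow]
  exact one_lt_pow₀ hx (by omega)

theorem geom_small {x : L} (hx : A.valuation x < 1) {l : ℕ} (hl : 2 ≤ l) :
    A.valuation ((∑ j ∈ Finset.range l, x ^ j)⁻¹ - 1) < 1 := by
  obtain ⟨m, rfl⟩ : ∃ m, l = m + 1 := ⟨l - 1, by omega⟩
  have h1 : A.valuation (∑ j ∈ Finset.range m, x ^ (j + 1)) < 1 := by
    refine Valuation.map_sum_lt _ one_ne_zero fun i _ => ?_
    rw [map_pow]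
    exact pow_lt_one₀ zero_le hx (Nat.succ_ne_zero i)
  set s := ∑ j ∈ Finset.range m, x ^ (j + 1) with hs
  have h2 : ∑ j ∈ Finset.range (m + 1), x ^ j = s + 1 := by
    rw [Finset.sum_range_succ', pow_zero]
  have h3 : A.valuation (s + 1) = 1 := by
    rw [Valuation.map_add_eq_of_lt_right _ (by rwa [map_one]), map_one]
  have h4 : s + 1 ≠ 0 := by
    intro h
    rw [h, map_zero] at h3
    exact zero_ne_one h3
  have h5 : (s + 1)⁻¹ - 1 = -s / (s + 1) := by
    field_simp
    ring
  rw [h2, h5, map_div₀, Valuation.map_neg, h3, div_one]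
  exact h1

theorem prod_near_one {ι : Type} (s : Finset ι) {a : ι → L} (h : ∀ i ∈ s, A.valuation (a i - 1) < 1) :
    A.valuation (∏ i ∈ s, a i - 1) < 1 := by
  classical
  induction s using Finset.induction_on with
  | empty => simp
  | insert j s hj ih =>
    rw [Finset.prod_insert hj]
    have h1 := ih fun i hi => h i (Finset.mem_insert_of_mem hi)
    have h2 := h j (Finset.mem_insert_self _ _)
    have h3 : A.valuation (a j) ≤ 1 := by
      have h4 : a j = (a j - 1) + 1 := by ring
      rw [h4]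
      exact (A.valuation.map_add _ _).trans (max_le h2.le (by rw [map_one]))
    have h4 : a j * ∏ i ∈ s, a i - 1 = a j * (∏ i ∈ s, a i - 1) + (a j - 1) := by ring
    rw [h4]
    refine (A.valuation.map_add _ _).trans_lt (max_lt ?_ h2)
    rw [map_mul]
    exact mul_lt_one_of_nonneg_of_lt_one_right h3 zero_le h1

end

/-- Finite extensions: the coarsening is stable under automorphisms. -/
theorem conj_fin {K : Type} [Field K] [FirstOrder.Ring.CompatibleRing K] (hK : NIPField K)
    [Infinite K] (p : ℕ) [Fact p.Prime] [CharP K p] {L : Type} [Field L] [Algebra K L]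
    [FiniteDimensional K L] [IsGalois K L] {V : ValuationSubring K} {W : ValuationSubring L}
    (hW : W.comap (algebraMap K L) = V) {S : Set K} (hS : IsDefinable S)
    (hS1 : ∀ x ∈ S, V.valuation x < 1) {b : K} (hb0 : b ≠ 0) (hb1 : V.valuation b < 1)
    (hS2 : ∀ x, V.valuation x ≤ V.valuation b → x ∈ S) (σ : L ≃ₐ[K] L) (x : L) :
    σ x ∈ coarse W (algebraMap K L b) ((ext_lt_one hW b).mpr hb1) ↔
      x ∈ coarse W (algebraMap K L b) ((ext_lt_one hW b).mpr hb1) := by
  classical
  have hp : p.Prime := Fact.out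
  have hcharL : CharP L p := charP_of_injective_algebraMap (algebraMap K L).injective p
  have hb0' : algebraMap K L b ≠ 0 := fun h => hb0 ((map_eq_zero_iff _ (algebraMap K L).injective).mp h)
  set A := coarse W (algebraMap K L b) ((ext_lt_one hW b).mpr hb1) with hA
  have hcharA := charP_residue (W := A) p
  by_contra hcon
  -- the automorphisms which preserve `A`
  let P : (L ≃ₐ[K] L) → Prop := fun τ => ∀ x, τ x ∈ A ↔ x ∈ A
  have hP1 : P 1 := fun x => Iff.rfl
  have hPinv : ∀ τ : L ≃ₐ[K] L, (∀ x ∈ A, τ x ∈ A) → P τ := by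
    intro τ hτ x
    refine ⟨fun h => ?_, hτ x⟩
    have h1 : ∀ (n : ℕ) (y : L), y ∈ A → (τ ^ n) y ∈ A := by
      intro n
      induction n with
      | zero => intro y hy; exact hy
      | succ n ih =>
        intro y hy
        rw [pow_succ']
        exact hτ _ (ih y hy)
    obtain ⟨n, hn⟩ : ∃ n : ℕ, τ ^ n = τ⁻¹ := by
      have h2 : 0 < orderOf τ := orderOf_pos τ
      refine ⟨orderOf τ - 1, ?_⟩
      rw [eq_inv_iff_mul_eq_one, ← pow_succ, Nat.sub_add_cancel h2, pow_orderOf_eq_one]
    have h3 := h1 n _ h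
    rw [hn] at h3
    simpa using h3
  have hsep : ∀ τ : L ≃ₐ[K] L, ¬ P τ → ∃ z, A.valuation z < 1 ∧ 1 < A.valuation (τ z) := by
    intro τ hτ
    have h1 : ∃ x ∈ A, τ x ∉ A := by
      by_contra h
      push Not at h
      exact hτ (hPinv τ h)
    have h2 : ∃ y, y ∉ A ∧ τ y ∈ A := by
      by_contra h
      push Not at h
      have h3 : P τ⁻¹ := by
        apply hPinv
        intro y hy
        by_contra h4
        apply h _ h4
        simpa using hy
      apply hτ
      intro x
      have h4 := h3 (τ x)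
      simp at h4
      exact h4.symm
    obtain ⟨x, hx1, hx2⟩ := h1
    obtain ⟨y, hy1, hy2⟩ := h2
    rw [← one_lt_val_iff] at hx2 hy1
    rw [← ValuationSubring.valuation_le_one_iff] at hx1 hy2
    have hy0 : y ≠ 0 := by
      rintro rfl
      rw [map_zero] at hy1
      exact absurd hy1 (not_lt.mpr zero_le)
    refine ⟨x / y, ?_, ?_⟩
    · rw [map_div₀, div_lt_one₀ (zero_lt_one.trans hy1)]
      exact hx1.trans_lt hy1
    · rw [map_div₀, map_div₀, one_lt_div₀ (zero_lt_iff.mpr ((Valuation.ne_zero_iff _).mpr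
        (by simpa using hy0)))]
      exact hy2.trans_lt hx2
  have hzex : ∀ τ : L ≃ₐ[K] L, ∃ z : L, ¬ P τ → (A.valuation z < 1 ∧ 1 < A.valuation (τ z)) := by
    intro τ
    by_cases h : P τ
    · exact ⟨0, fun h' => absurd h h'⟩
    · obtain ⟨z, hz⟩ := hsep τ h
      exact ⟨z, fun _ => hz⟩
  choose z hz using hzex
  -- geometric sums without zeros
  let u : (L ≃ₐ[K] L) × (L ≃ₐ[K] L) → IsLocalRing.ResidueField A := fun t =>
    if h : t.1 (z t.2) ∈ A then IsLocalRing.residue A ⟨t.1 (z t.2), h⟩ else 0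
  obtain ⟨l, hl, hlu⟩ := exists_geom u p
  let g : (L ≃ₐ[K] L) → L := fun ρ => (∑ j ∈ Finset.range l, z ρ ^ j)⁻¹
  have hg : ∀ τ ρ : L ≃ₐ[K] L, τ (g ρ) = (∑ j ∈ Finset.range l, τ (z ρ) ^ j)⁻¹ := by
    intro τ ρ
    simp only [g]
    rw [map_inv₀, map_sum]
    simp only [map_pow]
  have hg1 : ∀ τ ρ : L ≃ₐ[K] L, A.valuation (τ (g ρ)) ≤ 1 := by
    intro τ ρ
    rw [hg, map_inv₀]
    rcases le_or_gt (A.valuation (τ (z ρ))) 1 with h | h
    · rw [geom_unit A h, inv_one]
      have h1 := hlu (τ, ρ)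
      have h2 : τ (z ρ) ∈ A := (ValuationSubring.valuation_le_one_iff _ _).mp h
      simp only [u, h2, dif_pos] at h1
      exact h1
    · exact inv_le_one_of_one_le₀ (geom_large A h hl).le
  have hg2 : ∀ τ ρ : L ≃ₐ[K] L, 1 < A.valuation (τ (z ρ)) → A.valuation (τ (g ρ)) < 1 := by
    intro τ ρ h
    rw [hg, map_inv₀]
    exact inv_lt_one_of_one_lt₀ (geom_large A h hl)
  have hg3 : ∀ τ ρ : L ≃ₐ[K] L, A.valuation (τ (z ρ)) < 1 → A.valuation (τ (g ρ) - 1) < 1 := by
    intro τ ρ h
    rw [hg]
    exact geom_small A h hl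
  let Bad : Finset (L ≃ₐ[K] L) := Finset.univ.filter fun τ => ¬ P τ
  let e : L := ∏ ρ ∈ Bad, g ρ
  let c : (L ≃ₐ[K] L) → ℤ := fun τ => if P τ then 1 else 0
  have hPlt : ∀ τ, P τ → ∀ x, A.valuation x < 1 → A.valuation (τ x) < 1 := by
    intro τ hτ x hx
    by_cases hx0 : x = 0
    · rw [hx0, map_zero, map_zero]
      exact zero_lt_one
    have hτx : τ x ≠ 0 := by simpa using hx0
    rw [val_lt_one_iff_inv hτx, ← map_inv₀, hτ]
    rwa [val_lt_one_iff_inv hx0] at hx
  have he : ∀ τ, A.valuation (τ e - (c τ : L)) < 1 := by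
    intro τ
    have h1 : τ e = ∏ ρ ∈ Bad, τ (g ρ) := map_prod τ _ _
    rw [h1]
    by_cases hτ : P τ
    · have h2 : ((c τ : ℤ) : L) = 1 := by simp only [c, hτ, if_true, Int.cast_one]
      rw [h2]
      refine prod_near_one A _ fun ρ hρ => hg3 τ ρ (hPlt τ hτ _ (hz ρ ?_).1)
      exact (Finset.mem_filter.mp hρ).2
    · have h2 : ((c τ : ℤ) : L) = 0 := by simp only [c, hτ, if_false, Int.cast_zero]
      have h3 : τ ∈ Bad := Finset.mem_filter.mpr ⟨Finset.mem_univ _, hτ⟩
      rw [h2, sub_zero, ← Finset.mul_prod_erase _ _ h3, map_mul, map_prod]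
      exact mul_lt_one_of_nonneg_of_lt_one_left zero_le (hg2 τ τ (hz τ hτ).2)
        (Finset.prod_le_one' fun ρ _ => hg1 τ ρ)
  -- a high power
  have hex : ∀ τ, ∃ n : ℕ, W.valuation ((τ e - (c τ : L)) ^ n) < W.valuation (algebraMap K L b) :=
    fun τ => (coarse_lt hb0').mp (he τ)
  choose n hn using hex
  have hval1 : ∀ τ, W.valuation (τ e - (c τ : L)) < 1 := by
    intro τ
    by_contra h
    push Not at h
    have h1 := hn τ
    rw [map_pow] at h1
    exact absurd (h1.trans ((ext_lt_one hW b).mpr hb1)) (not_lt.mpr (one_le_pow₀ h))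
  set k := ∑ τ, n τ with hk
  have hkn : ∀ τ, n τ ≤ p ^ k := by
    intro τ
    have h1 : n τ ≤ k := Finset.single_le_sum (fun _ _ => Nat.zero_le _) (Finset.mem_univ τ)
    exact h1.trans (Nat.lt_pow_self hp.one_lt).le
  have hpc : ∀ m : ℤ, (m : L) ^ p ^ k = m := by
    intro m
    have : ∀ k : ℕ, (m : L) ^ p ^ k = m := by
      intro k
      induction k with
      | zero => rw [pow_zero, pow_one]
      | succ k ih => rw [pow_succ, pow_mul, ih, int_pow]
    exact this k
  have hfin : ∀ τ : L ≃ₐ[K] L, W.valuation (τ (e ^ p ^ k) - (c τ : L)) ≤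
      W.valuation (algebraMap K L b) := by
    intro τ
    have h1 : τ (e ^ p ^ k) - (c τ : L) = (τ e - (c τ : L)) ^ p ^ k := by
      rw [sub_pow_char_pow, hpc, map_pow]
    rw [h1, map_pow]
    have h2 := hn τ
    rw [map_pow] at h2
    exact (pow_le_pow_right_of_le_one' (hval1 τ).le (hkn τ)).trans h2.le
  have hcon2 := lemJ_fin hK p hW hS hS1 hS2 hfin σ
  have hσ : ¬ P σ := by
    intro h
    exact hcon (h x)
  have h1 : ((c σ : ℤ) : L) = 0 := by simp only [c, hσ, if_false, Int.cast_zero]
  have h2 : ((c 1 : ℤ) : L) = 1 := by simp only [c, hP1, if_true, Int.cast_one]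
  rw [h1, h2] at hcon2
  exact zero_ne_one hcon2

section

variable {K : Type} [Field K] [FirstOrder.Ring.CompatibleRing K] (hK : NIPField K)
    [Infinite K] (p : ℕ) [Fact p.Prime] [CharP K p] {Om : Type} [Field Om] [Algebra K Om]
    [IsGalois K Om] {V : ValuationSubring K} {W : ValuationSubring Om}
    (hW : W.comap (algebraMap K Om) = V) {S : Set K} (hS : IsDefinable S)
    (hS1 : ∀ x ∈ S, V.valuation x < 1) {b : K}
    (hS2 : ∀ x, V.valuation x ≤ V.valuation b → x ∈ S)

include hK p hW hS hS1 hS2 in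
/-- Infinite Galois extensions: residues in the prime field are equal. -/
theorem lemJ {e : Om} {c : (Om ≃ₐ[K] Om) → ℤ}
    (he : ∀ σ, W.valuation (σ e - (c σ : Om)) ≤ W.valuation (algebraMap K Om b))
    (σ : Om ≃ₐ[K] Om) : ((c σ : ℤ) : Om) = (c 1 : ℤ) := by
  have hcharO : CharP Om p := charP_of_injective_algebraMap (algebraMap K Om).injective p
  have hb1 : V.valuation b < 1 := hS1 b (hS2 b le_rfl)
  let L : FiniteGaloisIntermediateField K Om := FiniteGaloisIntermediateField.adjoin K {e}
  have heL : e ∈ L.toIntermediateField :=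
    FiniteGaloisIntermediateField.subset_adjoin K {e} (Set.mem_singleton e)
  let e' : L := ⟨e, heL⟩
  set WL : ValuationSubring L := W.comap (algebraMap L Om) with hWL
  have hWL' : WL.comap (algebraMap K L) = V := by
    rw [← hW]
    ext x
    rw [ValuationSubring.mem_comap, hWL, ValuationSubring.mem_comap, ValuationSubring.mem_comap,
      ← IsScalarTower.algebraMap_apply]
  have hlift : ∀ τ : L ≃ₐ[K] L, (τ.liftNormal Om) e = algebraMap L Om (τ e') := fun τ =>
    AlgEquiv.liftNormal_commutes τ Om e'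
  have key := lemJ_fin hK p hWL' hS hS1 hS2 (e := e') (c := fun τ => c (τ.liftNormal Om)) (by
    intro τ
    have h1 := he (τ.liftNormal Om)
    rw [hlift, ← map_intCast (algebraMap L Om), ← map_sub,
      IsScalarTower.algebraMap_apply K L Om, ext_le_iff hWL.symm] at h1
    exact h1)
  have hgen : ∀ σ : Om ≃ₐ[K] Om, ((c σ : ℤ) : Om) =
      (c ((AlgEquiv.restrictNormalHom L σ).liftNormal Om) : ℤ) := by
    intro σ
    apply int_eq W.valuation p
    have h1 := he σ
    have h2 := he ((AlgEquiv.restrictNormalHom L σ).liftNormal Om)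
    have h3 : ((AlgEquiv.restrictNormalHom L σ).liftNormal Om) e = σ e := by
      rw [hlift]
      exact AlgEquiv.restrictNormal_commutes σ L e'
    rw [h3] at h2
    have h4 : ((c σ : ℤ) : Om) - (c ((AlgEquiv.restrictNormalHom L σ).liftNormal Om) : ℤ) =
        (σ e - (c ((AlgEquiv.restrictNormalHom L σ).liftNormal Om) : Om)) -
          (σ e - (c σ : Om)) := by ring
    rw [h4]
    exact ((W.valuation.map_sub _ _).trans (max_le h2 h1)).trans_lt ((ext_lt_one hW b).mpr hb1)
  have hcast : ∀ τ : L ≃ₐ[K] L, ((c (τ.liftNormal Om) : ℤ) : Om) =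
      (c ((1 : L ≃ₐ[K] L).liftNormal Om) : ℤ) := by
    intro τ
    have h1 := congrArg (algebraMap L Om) (key τ)
    rwa [map_intCast, map_intCast] at h1
  rw [hgen σ, hcast, hgen 1, hcast (AlgEquiv.restrictNormalHom L 1)]

include hK p hS hS1 hS2 in
/-- The coarsening is stable under all automorphisms. -/
theorem conj_stable (hb0 : b ≠ 0) (hb1 : V.valuation b < 1) (σ : Om ≃ₐ[K] Om) (x : Om) :
    σ x ∈ coarse W (algebraMap K Om b) ((ext_lt_one hW b).mpr hb1) ↔
      x ∈ coarse W (algebraMap K Om b) ((ext_lt_one hW b).mpr hb1) := by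
  let L : FiniteGaloisIntermediateField K Om := FiniteGaloisIntermediateField.adjoin K {x}
  have hxL : x ∈ L.toIntermediateField :=
    FiniteGaloisIntermediateField.subset_adjoin K {x} (Set.mem_singleton x)
  let x' : L := ⟨x, hxL⟩
  set WL : ValuationSubring L := W.comap (algebraMap L Om) with hWL
  have hWL' : WL.comap (algebraMap K L) = V := by
    rw [← hW]
    ext x
    rw [ValuationSubring.mem_comap, hWL, ValuationSubring.mem_comap, ValuationSubring.mem_comap,
      ← IsScalarTower.algebraMap_apply]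
  have key := conj_fin hK p hWL' hS hS1 hb0 hb1 hS2 (AlgEquiv.restrictNormalHom L σ) x'
  have h1 : ∀ y : L, y ∈ coarse WL (algebraMap K L b) ((ext_lt_one hWL' b).mpr hb1) ↔
      algebraMap L Om y ∈ coarse W (algebraMap K Om b) ((ext_lt_one hW b).mpr hb1) := by
    intro y
    rw [mem_coarse, mem_coarse]
    refine forall_congr' fun n => ?_
    rw [IsScalarTower.algebraMap_apply K L Om, ← map_pow, ← map_mul, ext_le_one hWL.symm]
  rw [h1, h1] at key
  have h2 : algebraMap L Om ((AlgEquiv.restrictNormalHom L σ) x') = σ x :=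
    AlgEquiv.restrictNormal_commutes σ L x'
  rw [h2] at key
  exact key

include hK p hW hS hS1 hS2 in
theorem conj_small (hb0 : b ≠ 0) {x : Om}
    (hx : W.valuation x ≤ W.valuation (algebraMap K Om (b ^ 2))) (σ : Om ≃ₐ[K] Om) :
    W.valuation (σ x) ≤ W.valuation (algebraMap K Om b) := by
  have hb1 : V.valuation b < 1 := hS1 b (hS2 b le_rfl)
  have hb0' : algebraMap K Om b ≠ 0 := fun h =>
    hb0 ((map_eq_zero_iff _ (algebraMap K Om).injective).mp h)
  have hb2 : algebraMap K Om (b ^ 2) ≠ 0 := by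
    rw [map_pow]
    exact pow_ne_zero _ hb0'
  have h1 : x / algebraMap K Om (b ^ 2) ∈ W := (val_le_iff hb2).mp hx
  have h2 := (conj_stable hK p hW hS hS1 hS2 hb0 hb1 σ _).mpr (le_coarse
    (hb := (ext_lt_one hW b).mpr hb1) h1)
  have h3 := mem_coarse.mp h2 1
  rw [pow_one, map_div₀, AlgEquiv.commutes] at h3
  have h4 : algebraMap K Om b * (σ x / algebraMap K Om (b ^ 2)) = σ x / algebraMap K Om b := by
    rw [map_pow]
    field_simp
  rw [h4, map_div₀, div_le_one₀ (zero_lt_iff.mpr ((Valuation.ne_zero_iff _).mpr hb0'))] at h3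
  exact h3

end

end Pool.Agent.Q175.NFC
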