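import Pool.Agent.Q175.NFC.Ram
import Mathlib.RingTheory.NormTrace

/-!
# Approximation by norms and by powers
-/

set_option autoImplicit false

namespace Pool.Agent.Q175.NFC

open Polynomial IsLocalRing Module
open Pool.Agent.W882.Nip3 Pool.Agent.Q175.NF

/-- The set of norms of a finite extension is definable. -/
theorem isDefinable_norms {K : Type} [Field K] [FirstOrder.Ring.CompatibleRing K] (L : Type)
    [Field L] [Algebra K L] [FiniteDimensional K L] :
    IsDefinable {x : K | ∃ z : L, Algebra.norm K z = x} := by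
  classical
  let B := Module.finBasis K L
  have hN : ∀ z : Fin (Module.finrank K L) → K, Algebra.norm K (∑ k, z k • B k) =
      (Matrix.of fun i j => ∑ k, z k * Algebra.leftMulMatrix B (B k) i j).det := by
    intro z
    rw [Algebra.norm_eq_matrix_det B]
    congr 1
    ext i j
    rw [map_sum, Matrix.sum_apply, Matrix.of_apply]
    refine Finset.sum_congr rfl fun k _ => ?_
    rw [map_smul, Matrix.smul_apply, smul_eq_mul]
  have h1 : PD (fun v : Fin 1 → K => ∃ z : Fin (Module.finrank K L) → K,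
      (Matrix.of fun i j => ∑ k, z k * Algebra.leftMulMatrix B (B k) i j).det = v 0) := by
    apply PD.ex
    refine PD.eq ?_ (PT.var _)
    have h2 : (fun w : Fin 1 ⊕ Fin (Module.finrank K L) → K => (Matrix.of fun i j => ∑ k,
        w (Sum.inr k) * Algebra.leftMulMatrix B (B k) i j).det) = fun w =>
        ∑ σ : Equiv.Perm (Fin (Module.finrank K L)), ((Equiv.Perm.sign σ : ℤ) : K) *
          ∏ i, ∑ k, w (Sum.inr k) * Algebra.leftMulMatrix B (B k) (σ i) i := by
      funext w
      rw [Matrix.det_apply']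
      rfl
    show PT (fun w : Fin 1 ⊕ Fin (Module.finrank K L) → K => (Matrix.of fun i j => ∑ k,
        w (Sum.inr k) * Algebra.leftMulMatrix B (B k) i j).det)
    rw [h2]
    exact PT.sum _ fun σ => (PT.const _).mul (PT.prod _ fun i => PT.sum _ fun k =>
      (PT.var _).mul (PT.const _))
  rw [isDefinable_iff]
  refine h1.congr fun v => ?_
  constructor
  · rintro ⟨z, hz⟩
    exact ⟨∑ k, z k • B k, by rw [hN]; exact hz⟩
  · rintro ⟨z, hz⟩
    refine ⟨fun k => B.repr z k, ?_⟩
    rw [← hN, B.sum_repr]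
    exact hz

/-- The set of `n`-th powers is definable. -/
theorem isDefinable_powers {K : Type} [Field K] [FirstOrder.Ring.CompatibleRing K] (n : ℕ) :
    IsDefinable {x : K | ∃ z : K, z ^ n = x} := by
  rw [isDefinable_iff]
  have h1 : PD (fun v : Fin 1 → K => ∃ z : K, z ^ n = v 0) := by
    apply PD.ex1
    exact PD.eq ((PT.var (Sum.inr ())).pow n) (PT.var (Sum.inl 0))
  exact h1

/-- Multiplicatively closed sets which approximate the elements near `1` quadratically. -/
structure Approx {K : Type} [Field K] (V : ValuationSubring K) (T : Set K) : Prop where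
  one : (1 : K) ∈ T
  mul : ∀ x ∈ T, ∀ y ∈ T, x * y ∈ T
  app : ∀ x, V.valuation (x - 1) < 1 → ∃ t ∈ T, V.valuation (t - x) ≤ V.valuation (x - 1) ^ 2

section

variable {K : Type} [Field K] {V : ValuationSubring K} {T : Set K}

theorem Approx.iter (hT : Approx V T) (k : ℕ) : ∀ x, V.valuation (x - 1) < 1 →
    ∃ t ∈ T, V.valuation (t - x) ≤ V.valuation (x - 1) ^ (2 ^ k) := by
  induction k with
  | zero =>
    intro x _
    exact ⟨1, hT.one, by rw [pow_zero, pow_one, Valuation.map_sub_swap]⟩
  | succ k ih =>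
    intro x hx
    obtain ⟨t₁, ht₁, h1⟩ := hT.app x hx
    have hsq : V.valuation (x - 1) ^ 2 < 1 := pow_lt_one₀ zero_le hx two_ne_zero
    have hx1 : V.valuation x = 1 := by
      have h2 : x = 1 + (x - 1) := by ring
      rw [h2, Valuation.map_add_eq_of_lt_left _ (by rwa [map_one]), map_one]
    have ht1 : V.valuation t₁ = 1 := by
      have h2 : t₁ = x + (t₁ - x) := by ring
      rw [h2, Valuation.map_add_eq_of_lt_left _ (by rw [hx1]; exact h1.trans_lt hsq), hx1]
    have ht0 : t₁ ≠ 0 := by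
      rintro rfl
      rw [map_zero] at ht1
      exact zero_ne_one ht1
    have h3 : V.valuation (x / t₁ - 1) ≤ V.valuation (x - 1) ^ 2 := by
      have h4 : x / t₁ - 1 = (x - t₁) / t₁ := by field_simp
      rw [h4, map_div₀, ht1, div_one, Valuation.map_sub_swap]
      exact h1
    obtain ⟨t₂, ht₂, h5⟩ := ih (x / t₁) (h3.trans_lt hsq)
    refine ⟨t₁ * t₂, hT.mul _ ht₁ _ ht₂, ?_⟩
    have h6 : t₁ * t₂ - x = t₁ * (t₂ - x / t₁) := by field_simp
    rw [h6, map_mul, ht1, one_mul]
    refine h5.trans ?_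
    rw [pow_succ' 2 k, pow_mul]
    exact pow_le_pow_left₀ zero_le h3 _

/-- Powers with an exponent which is not divisible by the residue characteristic. -/
theorem approx_powers {n : ℕ} (hn : V.valuation (n : K) = 1) :
    Approx V {x : K | ∃ z : K, z ^ n = x} where
  one := ⟨1, one_pow n⟩
  mul := by
    rintro _ ⟨x, rfl⟩ _ ⟨y, rfl⟩
    exact ⟨x * y, mul_pow x y n⟩
  app := by
    intro x hx
    have hn0 : (n : K) ≠ 0 := by
      intro h
      rw [h, map_zero] at hn
      exact zero_ne_one hn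
    set s : K := (x - 1) / n with hs
    have hsv : V.valuation s = V.valuation (x - 1) := by rw [hs, map_div₀, hn, div_one]
    have hsV : s ∈ V := (ValuationSubring.valuation_le_one_iff _ _).mp (by rw [hsv]; exact hx.le)
    refine ⟨(1 + s) ^ n, ⟨1 + s, rfl⟩, ?_⟩
    obtain ⟨r, hr⟩ := Polynomial.powAddExpansion (1 : V) (⟨s, hsV⟩ : V) n
    have h1 : (1 + s) ^ n - x = (r : K) * s ^ 2 := by
      have h2 : (1 + s) ^ n = 1 + n * s + (r : K) * s ^ 2 := by
        have h3 := congrArg (fun z : V => (z : K)) hr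
        simpa using h3
      have h3 : (n : K) * s = x - 1 := by
        rw [hs]
        field_simp
      rw [h2, h3]
      ring
    rw [h1, map_mul, map_pow, hsv]
    exact mul_le_of_le_one_left' ((ValuationSubring.valuation_le_one_iff _ _).mpr r.2)

theorem trace_mk {R : Type*} [CommRing R] {f : R[X]} (hf : f.Monic) (Y : R[X]) :
    Algebra.trace R (AdjoinRoot f) (AdjoinRoot.mk f Y) =
      (TH686.NF.mulMat f Y f.natDegree).trace := by
  classical
  rw [Algebra.trace_eq_matrix_trace (AdjoinRoot.powerBasisAux' hf)]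
  congr 1
  ext i j
  rw [Algebra.leftMulMatrix_eq_repr_mul]
  have h1 : AdjoinRoot.powerBasisAux' hf j = AdjoinRoot.mk f (X ^ (j : ℕ)) := by
    rw [map_pow, AdjoinRoot.mk_X]
    exact (AdjoinRoot.powerBasis' hf).basis_eq_pow j
  rw [h1, ← map_mul, AdjoinRoot.powerBasisAux'_repr_apply_to_fun, AdjoinRoot.modByMonicHom_mk]
  rfl

theorem trace_map {R S : Type*} [CommRing R] [CommRing S] [Nontrivial S] (φ : R →+* S) {f : R[X]}
    (hf : f.Monic) (Y : R[X]) :
    Algebra.trace S (AdjoinRoot (f.map φ)) (AdjoinRoot.mk (f.map φ) (Y.map φ)) =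
      φ (Algebra.trace R (AdjoinRoot f) (AdjoinRoot.mk f Y)) := by
  rw [trace_mk hf, trace_mk (hf.map φ), hf.natDegree_map φ, Matrix.trace, Matrix.trace, map_sum]
  refine Finset.sum_congr rfl fun i _ => ?_
  simp only [TH686.NF.mulMat, Matrix.diag_apply]
  rw [← Polynomial.coeff_map, Polynomial.map_modByMonic φ hf, Polynomial.map_mul,
    Polynomial.map_pow, Polynomial.map_X]

/-- Norms of unramified extensions. -/
theorem approx_norms (g : V[X]) (hg : g.Monic) (hirr : Irreducible (g.map (residue V)))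
    (hsep : (g.map (residue V)).Separable) (G : K[X]) (hG : G = g.map (algebraMap V K)) :
    Approx V {x : K | ∃ z : AdjoinRoot G, Algebra.norm K z = x} where
  one := ⟨1, map_one _⟩
  mul := by
    rintro _ ⟨x, rfl⟩ _ ⟨y, rfl⟩
    exact ⟨x * y, map_mul _ x y⟩
  app := by
    intro x hx
    have hgbm : (g.map (residue V)).Monic := hg.map _
    have hfac : Fact (Irreducible (g.map (residue V))) := ⟨hirr⟩
    have hfin : FiniteDimensional (ResidueField V) (AdjoinRoot (g.map (residue V))) :=
      hgbm.finite_adjoinRoot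
    have hsp : Algebra.IsSeparable (ResidueField V) (AdjoinRoot (g.map (residue V))) :=
      TH686.NF.isSeparable_adjoinRoot hirr hsep
    obtain ⟨y, hy⟩ := Algebra.trace_surjective (ResidueField V) (AdjoinRoot (g.map (residue V))) 1
    obtain ⟨Yb, rfl⟩ := AdjoinRoot.mk_surjective y
    obtain ⟨Y, rfl⟩ := Polynomial.map_surjective (residue V) residue_surjective Yb
    rw [trace_map (residue V) hg] at hy
    set τ : V := Algebra.trace V (AdjoinRoot g) (AdjoinRoot.mk g Y) with hτ
    have hτu : IsUnit τ := by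
      by_contra h
      have h1 := (residue_eq_zero_iff τ).2 ((mem_maximalIdeal _).2 h)
      rw [hy] at h1
      exact one_ne_zero h1
    obtain ⟨ρ, hρ⟩ := hτu.exists_right_inv
    have hxV : x - 1 ∈ V := (ValuationSubring.valuation_le_one_iff _ _).mp hx.le
    have hfree : Module.Free V (AdjoinRoot g) := hg.free_adjoinRoot
    have hfinV : Module.Finite V (AdjoinRoot g) := hg.finite_adjoinRoot
    obtain ⟨r, hr⟩ := Algebra.norm_one_add_smul (ρ * ⟨x - 1, hxV⟩) (AdjoinRoot.mk g Y)
    have h1 : (1 : AdjoinRoot g) + (ρ * ⟨x - 1, hxV⟩) • AdjoinRoot.mk g Y =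
        AdjoinRoot.mk g (1 + C (ρ * ⟨x - 1, hxV⟩) * Y) := by
      rw [map_add, map_one, map_mul, AdjoinRoot.mk_C, Algebra.smul_def, AdjoinRoot.algebraMap_eq]
    rw [h1, ← hτ] at hr
    refine ⟨_, ⟨AdjoinRoot.mk G ((1 + C (ρ * ⟨x - 1, hxV⟩) * Y).map (algebraMap V K)), rfl⟩, ?_⟩
    subst hG
    rw [TH686.NF.norm_map (algebraMap V K) hg, hr]
    have h2 : algebraMap V K (1 + τ * (ρ * ⟨x - 1, hxV⟩) + r * (ρ * ⟨x - 1, hxV⟩) ^ 2) - x =
        (r : K) * (ρ : K) ^ 2 * (x - 1) ^ 2 := by
      have h3 : τ * (ρ * ⟨x - 1, hxV⟩) = ⟨x - 1, hxV⟩ := by rw [← mul_assoc, hρ, one_mul]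
      rw [h3]
      have h4 : algebraMap V K (1 + ⟨x - 1, hxV⟩ + r * (ρ * ⟨x - 1, hxV⟩) ^ 2) =
          1 + (x - 1) + (r : K) * ((ρ : K) * (x - 1)) ^ 2 := rfl
      rw [h4]
      ring
    rw [h2, map_mul, map_pow, map_mul, map_pow]
    refine mul_le_of_le_one_left' ?_
    exact mul_le_one' ((ValuationSubring.valuation_le_one_iff _ _).mpr r.2)
      (pow_le_one₀ zero_le ((ValuationSubring.valuation_le_one_iff _ _).mpr ρ.2))

end

end Pool.Agent.Q175.NFC
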