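import Pool.Agent.Q175.NFC.Tow

/-!
# Definable henselian valuation rings from definable `V`-topologies, in characteristic `p`
-/

set_option autoImplicit false

namespace Pool.Agent.Q175.NFC

open Pool.Agent.W882.Nip3 Pool.Agent.Q175.NF
open Module

theorem exists_small_ne_zero {K : Type} [Field K] {V : ValuationSubring K} (hV : V ≠ ⊤) :
    ∃ d : K, d ≠ 0 ∧ V.valuation d < 1 := by
  obtain ⟨x, hx⟩ : ∃ x, x ∉ V := by
    by_contra hcon
    push Not at hcon
    exact hV (by
      ext x
      exact ⟨fun _ => ValuationSubring.mem_top x, fun _ => hcon x⟩)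
  have hx0 : x ≠ 0 := fun h => hx (h ▸ V.zero_mem)
  refine ⟨x⁻¹, inv_ne_zero hx0, ?_⟩
  rw [val_lt_one_iff_inv (inv_ne_zero hx0), inv_inv]
  exact hx

/-- The maximal ideal of a definable valuation ring is definable. -/
theorem isDefinable_lt_one {K : Type} [Field K] [FirstOrder.Ring.CompatibleRing K]
    {O : ValuationSubring K} (hO : IsDefinable (O : Set K)) :
    IsDefinable {x : K | O.valuation x < 1} := by
  rw [isDefinable_iff]
  have h1 : PD (fun v : Fin 1 → K => ¬ ∃ y : K, v 0 * y = 1 ∧ y ∈ (O : Set K)) := by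
    apply PD.not
    apply PD.ex1
    exact PD.and (PD.eq ((PT.var (Sum.inl 0)).mul (PT.var (Sum.inr ()))) (PT.const 1))
      (PD.mem hO (PT.var (Sum.inr ())))
  refine h1.congr fun v => ?_
  constructor
  · intro h
    show O.valuation (v 0) < 1
    by_cases h0 : v 0 = 0
    · rw [h0, map_zero]
      exact zero_lt_one
    · rw [val_lt_one_iff_inv h0]
      exact fun h2 => h ⟨(v 0)⁻¹, mul_inv_cancel₀ h0, h2⟩
  · rintro h ⟨y, hy, hyO⟩
    have h0 : v 0 ≠ 0 := left_ne_zero_of_mul_eq_one hy
    have h1 : y = (v 0)⁻¹ := eq_inv_of_mul_eq_one_right hy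
    have h2 : O.valuation (v 0) < 1 := h
    rw [val_lt_one_iff_inv h0, ← h1] at h2
    exact h2 hyO

/-- Nontrivial definable valuation rings of `NIP` fields of characteristic `p` are henselian. -/
theorem henselian_of_definable {K : Type} [Field K] [FirstOrder.Ring.CompatibleRing K]
    (hK : NIPField K) (p : ℕ) [Fact p.Prime] [CharP K p] {O : ValuationSubring K} (hO : O ≠ ⊤)
    (hOd : IsDefinable (O : Set K)) : HenselianLocalRing O := by
  have hinf : Infinite K := infinite_of_ne_top hO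
  obtain ⟨W, hW⟩ := exists_ext (E := SeparableClosure K) O
  have hSd := isDefinable_lt_one hOd
  have key : ∀ (σ : SeparableClosure K ≃ₐ[K] SeparableClosure K) (x : SeparableClosure K),
      x ∈ W → σ x ∈ W := by
    intro σ x hx
    by_contra hcon
    have hy1 : 1 < W.valuation (σ x) := one_lt_val_iff.mpr hcon
    have hy0 : σ x ≠ 0 := fun h => hcon (h ▸ W.zero_mem)
    obtain ⟨m, hm, g, hg0, hg⟩ := exists_pow_val (K := K) W hy0
    have hg1 : 1 < W.valuation (algebraMap K (SeparableClosure K) g) := by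
      rw [← hg, map_pow]
      exact one_lt_pow₀ hy1 hm.ne'
    have hb0 : g⁻¹ ≠ 0 := inv_ne_zero hg0
    have hgO : g ∉ O := by
      intro h
      rw [← hW] at h
      exact one_lt_val_iff.mp hg1 h
    have hb1 : O.valuation g⁻¹ < 1 := by
      rw [val_lt_one_iff_inv hb0, inv_inv]
      exact hgO
    have h1 := (conj_stable hK p hW hSd (fun y hy => hy) (b := g⁻¹)
      (fun y hy => lt_of_le_of_lt hy hb1) hb0 hb1 σ x).mpr (le_coarse hx)
    have h2 := mem_coarse.mp h1 (2 * m)
    rw [map_mul, map_inv₀, map_inv₀, ← hg, two_mul, pow_add, map_mul] at h2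
    have h3 : W.valuation (σ x ^ m) ≠ 0 := (Valuation.ne_zero_iff _).mpr (pow_ne_zero _ hy0)
    rw [← mul_assoc, inv_mul_cancel₀ h3, one_mul, hg] at h2
    exact absurd h2 (not_le.mpr hg1)
  refine henselian_of_stable (Om := SeparableClosure K) hW fun σ x => ⟨fun h => ?_, key σ x⟩
  have h1 := key σ.symm _ h
  rwa [AlgEquiv.symm_apply_apply] at h1

/-- `NIP` fields of characteristic `p` with a definable `V`-topology which are not separably closed
have a nontrivial definable henselian valuation ring, inducing the same topology. -/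
theorem main_char_p {K : Type} [Field K] [FirstOrder.Ring.CompatibleRing K] (hK : NIPField K)
    (p : ℕ) [Fact p.Prime] [CharP K p] {V : ValuationSubring K} (hV : V ≠ ⊤) {S : Set K}
    (hS : IsDefinable S) (hSV : ∀ x ∈ S, x ∈ V) {b : K} (hb : b ≠ 0)
    (hbS : ∀ x, V.valuation x ≤ V.valuation b → x ∈ S)
    (hns : ∃ x : SeparableClosure K, x ∉ Set.range (algebraMap K (SeparableClosure K))) :
    (∃ O : ValuationSubring K, O ≠ ⊤ ∧ HenselianLocalRing O ∧ IsDefinable (O : Set K) ∧
      ∃ t : K, t ≠ 0 ∧ (∀ x ∈ V, t * x ∈ O) ∧ ∀ x ∈ O, t * x ∈ V) ∧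
    ∃ A : ValuationSubring K, A ≠ ⊤ ∧ HenselianLocalRing A ∧ V ≤ A := by
  have hinf : Infinite K := infinite_of_ne_top hV
  obtain ⟨d, hd0, hd1⟩ := exists_small_ne_zero hV
  set b' : K := d * b with hb'
  have hb0' : b' ≠ 0 := mul_ne_zero hd0 hb
  set S' : Set K := {x | d⁻¹ * x ∈ S} with hS'
  have hS'd : IsDefinable S' := by
    rw [isDefinable_iff]
    exact PD.mem hS ((PT.const d⁻¹).mul (PT.var 0))
  have hS1 : ∀ x ∈ S', V.valuation x < 1 := by
    intro x hx
    have h1 : V.valuation (d⁻¹ * x) ≤ 1 := (ValuationSubring.valuation_le_one_iff _ _).mpr (hSV _ hx)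
    have h2 : x = d * (d⁻¹ * x) := by rw [← mul_assoc, mul_inv_cancel₀ hd0, one_mul]
    rw [h2, map_mul]
    exact mul_lt_one_of_nonneg_of_lt_one_left zero_le hd1 h1
  have hdp : V.valuation d ≠ 0 := (Valuation.ne_zero_iff _).mpr hd0
  have hS2 : ∀ x, V.valuation x ≤ V.valuation b' → x ∈ S' := by
    intro x hx
    apply hbS
    rw [map_mul, map_inv₀]
    rw [hb', map_mul] at hx
    rwa [inv_mul_le_iff₀ (zero_lt_iff.mpr hdp)]
  have hb1' : V.valuation b' < 1 := hS1 _ (hS2 _ le_rfl)
  refine ⟨?_, coarse V b' hb1', coarse_ne_top hb0', coarse_henselian hK p hS'd hS1 hS2 hb0' hb1',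
    le_coarse⟩
  obtain ⟨x₀, hx₀⟩ := hns
  obtain ⟨q, M, ζ, hq, hqp, hMf, hζ, hζM, c, hcM, hc⟩ := exists_sub hK p hx₀
  have hqp' : Nat.Coprime p q :=
    (Nat.coprime_primes Fact.out hq).mpr hqp.symm
  have hchOm : CharP (SeparableClosure K) p :=
    charP_of_injective_algebraMap (algebraMap K (SeparableClosure K)).injective p
  have hchM : CharP M p := charP_of_injective_algebraMap (algebraMap K M).injective p
  have hqOm : (q : SeparableClosure K) ≠ 0 := by
    intro h
    rw [CharP.cast_eq_zero_iff (SeparableClosure K) p] at h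
    exact hqp ((Nat.prime_dvd_prime_iff_eq Fact.out hq).mp h).symm
  obtain ⟨W, hW⟩ := exists_ext (E := SeparableClosure K) V
  set VM : ValuationSubring M := W.comap (algebraMap M (SeparableClosure K)) with hVM
  have hVM' : VM.comap (algebraMap K M) = V := by
    rw [← hW]
    ext x
    rw [ValuationSubring.mem_comap, hVM, ValuationSubring.mem_comap, ValuationSubring.mem_comap,
      ← IsScalarTower.algebraMap_apply]
  have hroot : ∀ x : M, VM.valuation x ≤ VM.valuation (algebraMap K M (b' ^ 2)) →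
      IsPow q (1 + x) := by
    intro x hx
    rw [← ext_le_iff hVM.symm, ← IsScalarTower.algebraMap_apply K M (SeparableClosure K)] at hx
    obtain ⟨y, hyM, hy⟩ := exists_root hK p hW hS'd hS1 hS2 hb0' M hq hqOm hζ hζM x.2 hx
    exact ⟨⟨y, hyM⟩, Subtype.ext hy⟩
  let iM : FirstOrder.Ring.CompatibleRing M := FirstOrder.Ring.compatibleRingOfRing M
  have hbM0 : algebraMap K M (b' ^ 2) ≠ 0 := fun h =>
    pow_ne_zero 2 hb0' ((map_eq_zero_iff _ (algebraMap K M).injective).mp h)
  have hbM1 : VM.valuation (algebraMap K M (b' ^ 2)) < 1 := by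
    rw [ext_lt_one hVM', map_pow]
    exact pow_lt_one₀ zero_le hb1' two_ne_zero
  obtain ⟨R, U, hR, hRd, hU, hRU, hVU⟩ := exists_definable hq.two_le p hqp' hbM0 hbM1 hroot
    ⟨⟨c, hcM⟩, fun ⟨y, hy⟩ => hc y y.2 (congrArg Subtype.val hy)⟩
  set O : ValuationSubring K := R.comap (algebraMap K M) with hO
  have hOt : O ≠ ⊤ := fun h => hR (eq_top_of_comap R h)
  have hUt : U.comap (algebraMap K M) ≠ ⊤ := fun h => hU (eq_top_of_comap U h)
  have hOd : IsDefinable (O : Set K) := isDefinable_comap hRd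
  obtain ⟨t, ht0, ht1⟩ := exists_small_ne_zero hUt
  refine ⟨O, hOt, henselian_of_definable hK p hOt hOd, hOd, t, ht0, ?_, ?_⟩
  · intro x hx
    have hxU : x ∈ U.comap (algebraMap K M) := by
      rw [← hVM'] at hx
      exact hVU hx
    by_cases hx0 : x = 0
    · rw [hx0, mul_zero]
      exact O.zero_mem
    by_contra hcon
    have h1 : (t * x)⁻¹ ∈ O := (O.mem_or_inv_mem _).resolve_left hcon
    have h2 : (t * x)⁻¹ ∈ U.comap (algebraMap K M) := hRU h1
    have h3 : (U.comap (algebraMap K M)).valuation (t * x) < 1 := by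
      rw [map_mul]
      exact mul_lt_one_of_nonneg_of_lt_one_left zero_le ht1
        ((ValuationSubring.valuation_le_one_iff _ _).mpr hxU)
    rw [val_lt_one_iff_inv (mul_ne_zero ht0 hx0)] at h3
    exact h3 h2
  · intro x hx
    have hxU : x ∈ U.comap (algebraMap K M) := hRU hx
    by_cases hx0 : x = 0
    · rw [hx0, mul_zero]
      exact V.zero_mem
    by_contra hcon
    have h1 : (t * x)⁻¹ ∈ V := (V.mem_or_inv_mem _).resolve_left hcon
    have h2 : (t * x)⁻¹ ∈ U.comap (algebraMap K M) := by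
      rw [← hVM'] at h1
      exact hVU h1
    have h3 : (U.comap (algebraMap K M)).valuation (t * x) < 1 := by
      rw [map_mul]
      exact mul_lt_one_of_nonneg_of_lt_one_left zero_le ht1
        ((ValuationSubring.valuation_le_one_iff _ _).mpr hxU)
    rw [val_lt_one_iff_inv (mul_ne_zero ht0 hx0)] at h3
    exact h3 h2

/-- The theorem on norm groups. -/
theorem main_norm {K : Type} [Field K] [FirstOrder.Ring.CompatibleRing K] (hK : NIPField K)
    (p : ℕ) [Fact p.Prime] [CharP K p] {V : ValuationSubring K} (hV : V ≠ ⊤) {M : Type} [Field M]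
    [Algebra K M] [FiniteDimensional K M] {W : ValuationSubring M}
    (hW : W.comap (algebraMap K M) = V)
    (L : Type) [Field L] [Algebra M L] [FiniteDimensional M L] [Algebra.IsSeparable M L]
    {c e : M} (he : e ≠ 0) (h : ∀ x : L, W.valuation e ≤ W.valuation (Algebra.norm M x - c)) :
    (∃ O : ValuationSubring K, O ≠ ⊤ ∧ HenselianLocalRing O ∧ IsDefinable (O : Set K) ∧
      ∃ t : K, t ≠ 0 ∧ (∀ x ∈ V, t * x ∈ O) ∧ ∀ x ∈ O, t * x ∈ V) ∧
    ∃ A : ValuationSubring K, A ≠ ⊤ ∧ HenselianLocalRing A ∧ V ≤ A := by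
  obtain ⟨S, hS, hSV, b, hb, hbS⟩ := vtop_tower (Or.inl hK) hV hW L he h
  exact main_char_p hK p hV hS hSV hb hbS
    (exists_not_mem (K := K) L he h (Om := SeparableClosure K))

end Pool.Agent.Q175.NFC
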