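import Pool.Agent.Q175.NFC.Cut
import Pool.Agent.Q175.NFC.Fin

/-!
# Definable cuts in the value group
-/

set_option autoImplicit false

namespace Pool.Agent.Q175.NFC

open Polynomial IsLocalRing Module
open Pool.Agent.W882.Nip3 Pool.Agent.Q175.NF

section

variable {K : Type} [Field K] [FirstOrder.Ring.CompatibleRing K]

/-- A cut defined by an `n`-th root of a value which has no `n`-th root is definable. -/
theorem cut_definable {V : ValuationSubring K} {S : Set K} (hS : IsDefinable S)
    (hSV : ∀ x ∈ S, x ∈ V) {b : K} (hb : b ≠ 0)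
    (hbS : ∀ x, V.valuation x ≤ V.valuation b → x ∈ S) {d : K} (hd0 : d ≠ 0)
    (hd1 : V.valuation d < 1) (hdb : V.valuation (d * b) < 1) {T : Set K} (hT : IsDefinable T)
    (hA : Approx V T) {n : ℕ}
    (hTn : ∀ t ∈ T, t ≠ 0 → ∃ g : K, V.valuation t = V.valuation g ^ n) {c : K} (hc0 : c ≠ 0)
    (hcut : ∀ g : K, (coarse V (d * b) hdb).valuation g ^ n ≠
      (coarse V (d * b) hdb).valuation c) :
    IsDefinable {y : K | (coarse V (d * b) hdb).valuation y ^ n <
      (coarse V (d * b) hdb).valuation c} := by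
  set A := coarse V (d * b) hdb with hAdef
  have hVA : V ≤ A := le_coarse
  have hcA : 0 < A.valuation c := zero_lt_iff.mpr ((Valuation.ne_zero_iff _).mpr hc0)
  have hone : ∀ x, 1 < A.valuation x → 1 < V.valuation x := by
    intro x hx
    rw [one_lt_val_iff] at hx ⊢
    exact fun h => hx (hVA h)
  have hunit : ∀ x y, y ≠ 0 → V.valuation x = V.valuation y → A.valuation x = A.valuation y := by
    intro x y hy h
    have hx : x ≠ 0 := by
      rintro rfl
      rw [map_zero] at h
      exact (Valuation.ne_zero_iff _).mpr hy h.symm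
    exact le_antisymm ((val_le_iff hy).mpr (hVA ((val_le_iff hy).mp h.le)))
      ((val_le_iff hx).mpr (hVA ((val_le_iff hx).mp h.ge)))
  rw [isDefinable_iff]
  have h1 : PD (fun v : Fin 1 → K => ∃ t : K, t ∈ T ∧ d⁻¹ * (t - (1 + v 0 ^ n * c⁻¹)) ∈ S) := by
    apply PD.ex1
    refine PD.and (PD.mem hT (PT.var (Sum.inr ()))) (PD.mem hS ?_)
    exact (PT.const d⁻¹).mul ((PT.var (Sum.inr ())).sub ((PT.const 1).add
      (((PT.var (Sum.inl 0)).pow n).mul (PT.const c⁻¹))))
  refine h1.congr fun v => ?_
  set y := v 0 with hy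
  show _ ↔ A.valuation y ^ n < A.valuation c
  set x : K := 1 + y ^ n * c⁻¹ with hx
  have hval : A.valuation (y ^ n * c⁻¹) = A.valuation y ^ n / A.valuation c := by
    rw [map_mul, map_pow, map_inv₀, div_eq_mul_inv]
  constructor
  · rintro ⟨t, htT, ht⟩
    by_contra hcon
    push Not at hcon
    have h2 : 1 < A.valuation (y ^ n * c⁻¹) := by
      rw [hval]
      exact (one_lt_div₀ hcA).mpr (lt_of_le_of_ne hcon (hcut y).symm)
    have h3 := hone _ h2
    have h4 : V.valuation x = V.valuation (y ^ n * c⁻¹) := by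
      rw [hx]
      exact Valuation.map_add_eq_of_lt_right _ (by rwa [map_one])
    have h5 : V.valuation (t - x) < 1 := by
      have h6 : t - x = d * (d⁻¹ * (t - x)) := by
        rw [← mul_assoc, mul_inv_cancel₀ hd0, one_mul]
      rw [h6, map_mul]
      exact mul_lt_one_of_nonneg_of_lt_one_left zero_le hd1
        ((ValuationSubring.valuation_le_one_iff _ _).mpr (hSV _ ht))
    have h6 : V.valuation t = V.valuation (y ^ n * c⁻¹) := by
      have h7 : t = x + (t - x) := by ring
      rw [h7, Valuation.map_add_eq_of_lt_left _ (by rw [h4]; exact h5.trans h3), h4]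
    have ht0 : t ≠ 0 := by
      rintro rfl
      rw [map_zero] at h6
      rw [← h6] at h3
      exact absurd h3 (not_lt.mpr zero_le)
    have hy0 : y ^ n * c⁻¹ ≠ 0 := by
      intro h
      rw [h, map_zero] at h3
      exact absurd h3 (not_lt.mpr zero_le)
    obtain ⟨g, hg⟩ := hTn t htT ht0
    have hg0 : g ^ n ≠ 0 := by
      intro h
      rw [← map_pow, h, map_zero] at hg
      exact (Valuation.ne_zero_iff _).mpr ht0 hg
    have h7 : A.valuation (g ^ n) = A.valuation (y ^ n * c⁻¹) := by
      apply hunit _ _ hy0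
      rw [map_pow, ← hg, h6]
    apply hcut (y / g)
    rw [← map_pow, div_pow, map_div₀, h7, map_mul, map_inv₀]
    have h8 : A.valuation (y ^ n) ≠ 0 := by
      apply (Valuation.ne_zero_iff _).mpr
      exact left_ne_zero_of_mul hy0
    rw [div_mul_cancel_left₀ h8, inv_inv]
  · intro h
    have h2 : A.valuation (y ^ n * c⁻¹) < 1 := by
      rw [hval]
      exact (div_lt_one₀ hcA).mpr h
    obtain ⟨k, hk⟩ := (coarse_lt (mul_ne_zero hd0 hb)).mp h2
    have hx1 : x - 1 = y ^ n * c⁻¹ := by rw [hx]; ring
    have h3 : V.valuation (x - 1) < 1 := by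
      by_contra hcon
      push Not at hcon
      rw [hx1] at hcon
      have h4 : 1 ≤ V.valuation (y ^ n * c⁻¹) ^ k := one_le_pow₀ hcon
      rw [map_pow] at hk
      exact absurd (h4.trans hk.le) (not_le.mpr hdb)
    obtain ⟨t, htT, ht⟩ := hA.iter k x h3
    refine ⟨t, htT, hbS _ ?_⟩
    rw [map_mul, map_inv₀, inv_mul_le_iff₀ (zero_lt_iff.mpr ((Valuation.ne_zero_iff _).mpr hd0)),
      ← map_mul]
    refine ht.trans (le_trans ?_ hk.le)
    rw [hx1, map_pow]
    exact pow_le_pow_of_le_one zero_le (by rw [← hx1]; exact h3.le) (Nat.lt_two_pow_self).le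

/-- The valuation ring of a cut. -/
theorem exists_cut_ring {A : ValuationSubring K} (hA : A ≠ ⊤) {n : ℕ} (hn : 0 < n) {c : K}
    (hc0 : c ≠ 0) (hI : IsDefinable {y : K | A.valuation y ^ n < A.valuation c}) :
    ∃ O : ValuationSubring K, A ≤ O ∧ O ≠ ⊤ ∧ IsDefinable (O : Set K) := by
  let S : Subring K :=
    { carrier := {x | ∀ y, A.valuation y ^ n < A.valuation c →
        A.valuation (x * y) ^ n < A.valuation c}
      mul_mem' := by
        intro x y hx hy z hz
        have h1 := hx (y * z) (hy z hz)
        rwa [← mul_assoc] at h1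
      one_mem' := by
        intro z hz
        rwa [one_mul]
      add_mem' := by
        intro x y hx hy z hz
        rw [add_mul]
        rcases le_total (A.valuation (x * z)) (A.valuation (y * z)) with h | h
        · refine lt_of_le_of_lt (pow_le_pow_left₀ zero_le (Valuation.map_add _ _ _) n) ?_
          rw [max_eq_right h]
          exact hy z hz
        · refine lt_of_le_of_lt (pow_le_pow_left₀ zero_le (Valuation.map_add _ _ _) n) ?_
          rw [max_eq_left h]
          exact hx z hz
      zero_mem' := by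
        intro z hz
        rw [zero_mul, map_zero, zero_pow hn.ne']
        exact lt_of_le_of_lt zero_le hz
      neg_mem' := by
        intro x hx z hz
        rw [neg_mul, Valuation.map_neg]
        exact hx z hz }
  have hAS : A.toSubring ≤ S := by
    intro x hx z hz
    refine lt_of_le_of_lt (pow_le_pow_left₀ zero_le ?_ n) hz
    rw [map_mul]
    exact mul_le_of_le_one_left' ((ValuationSubring.valuation_le_one_iff _ _).mpr hx)
  refine ⟨ValuationSubring.ofLE A S hAS, hAS, ?_, ?_⟩
  · intro htop
    have hall : ∀ x, x ∈ S := by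
      intro x
      have h1 : x ∈ ValuationSubring.ofLE A S hAS := by
        rw [htop]
        exact ValuationSubring.mem_top _
      exact h1
    have hc : 0 < A.valuation c := zero_lt_iff.mpr ((Valuation.ne_zero_iff _).mpr hc0)
    obtain ⟨δ, hδ0, hδ1⟩ := exists_small_ne_zero hA
    obtain ⟨y, hy0, hy⟩ : ∃ y, y ≠ 0 ∧ A.valuation y ^ n < A.valuation c := by
      rcases le_or_gt (A.valuation c) 1 with h | h
      · refine ⟨c * δ, mul_ne_zero hc0 hδ0, ?_⟩
        have h2 : A.valuation (c * δ) < A.valuation c := by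
          rw [map_mul]
          exact mul_lt_of_lt_one_right hc hδ1
        refine lt_of_le_of_lt ?_ h2
        exact pow_le_of_le_one zero_le (h2.le.trans h) hn.ne'
      · refine ⟨1, one_ne_zero, ?_⟩
        rwa [map_one, one_pow]
    obtain ⟨w, hw⟩ : ∃ w, A.valuation c ≤ A.valuation w ^ n := by
      rcases le_or_gt 1 (A.valuation c) with h | h
      · exact ⟨c, le_self_pow₀ h hn.ne'⟩
      · refine ⟨1, ?_⟩
        rw [map_one, one_pow]
        exact h.le
    have h1 := hall (w / y) y hy
    rw [div_mul_cancel₀ _ hy0] at h1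
    exact absurd h1 (not_lt.mpr hw)
  · rw [isDefinable_iff]
    have h1 : PD (fun v : Fin 1 → K => ∀ y : K, y ∈ {y : K | A.valuation y ^ n < A.valuation c} →
        v 0 * y ∈ {y : K | A.valuation y ^ n < A.valuation c}) := by
      apply PD.all1
      exact PD.imp (PD.mem hI (PT.var (Sum.inr ()))) (PD.mem hI ((PT.var (Sum.inl 0)).mul
        (PT.var (Sum.inr ()))))
    exact h1

end

end Pool.Agent.Q175.NFC
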