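import Pool.Agent.Q175.NFC.Cut2
import Pool.Agent.Q175.NF.Disc

/-!
# Definable valuations of tame fields
-/

set_option autoImplicit false

namespace Pool.Agent.Q175.NFC

open Polynomial IsLocalRing Module
open Pool.Agent.W882.Nip3 Pool.Agent.Q175.NF

/-- Lifting of separable extensions of the residue field. -/
theorem exists_lift {M : Type} [Field M] (W : ValuationSubring M) (F : Type) [Field F]
    [Algebra (ResidueField W) F] [FiniteDimensional (ResidueField W) F]
    [Algebra.IsSeparable (ResidueField W) F] :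
    ∃ g : W[X], g.Monic ∧ Irreducible (g.map (residue W)) ∧ (g.map (residue W)).Separable ∧
      g.natDegree = Module.finrank (ResidueField W) F ∧
      Irreducible (g.map (algebraMap W M)) := by
  classical
  obtain ⟨θ, hθ⟩ := Field.exists_primitive_element (ResidueField W) F
  have hint : IsIntegral (ResidueField W) θ := Algebra.IsIntegral.isIntegral θ
  set gb := minpoly (ResidueField W) θ with hgb
  have hgbm : gb.Monic := minpoly.monic hint
  have hgbi : Irreducible gb := minpoly.irreducible hint
  have hgbs : gb.Separable := Algebra.IsSeparable.isSeparable (ResidueField W) θ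
  have hdeg : gb.natDegree = Module.finrank (ResidueField W) F := by
    rw [hgb, ← IntermediateField.adjoin.finrank hint, hθ, IntermediateField.finrank_top']
  have hl : gb ∈ lifts (residue W) := by
    rw [lifts_iff_coeff_lifts]
    intro n
    exact residue_surjective _
  obtain ⟨g, hg1, hg2, hg3⟩ := lifts_and_natDegree_eq_and_monic hl hgbm
  have hirr : Irreducible (g.map (residue W)) := by rw [hg1]; exact hgbi
  refine ⟨g, hg3, hirr, by rw [hg1]; exact hgbs, by rw [hg2, hdeg], ?_⟩
  have h1 : Irreducible g := Polynomial.Monic.irreducible_of_irreducible_map (residue W) g hg3 hirr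
  exact hg3.irreducible_iff_irreducible_map_fraction_map.1 h1

/-- The rank of an extension. -/
theorem rank_one_ext {K : Type} [Field K] {M : Type} [Field M] [Algebra K M]
    [Algebra.IsAlgebraic K M] {V : ValuationSubring K} {W : ValuationSubring M}
    (hW : W.comap (algebraMap K M) = V)
    (hV : ∀ O : ValuationSubring K, V ≤ O → O ≠ ⊤ → O = V) (O : ValuationSubring M) (hWO : W ≤ O)
    (hO : O ≠ ⊤) : O = W := by
  have h1 : O.comap (algebraMap K M) = V := by
    apply hV
    · rw [← hW]
      exact fun x hx => hWO hx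
    · exact fun h => hO (eq_top_of_comap O h)
  refine le_antisymm ?_ hWO
  intro x hx
  by_contra hxW
  have hx0 : x ≠ 0 := fun h => hxW (h ▸ W.zero_mem)
  have hx1 : 1 < W.valuation x := one_lt_val_iff.mpr hxW
  obtain ⟨m, hm, g, hg0, hg⟩ := exists_pow_val (K := K) W hx0
  have hxm : x ^ m ≠ 0 := pow_ne_zero _ hx0
  have h2 : algebraMap K M g / x ^ m ∈ W := by
    rw [← val_le_iff hxm]
    exact hg.ge
  have h3 : algebraMap K M g ∈ O := by
    have h4 : algebraMap K M g = algebraMap K M g / x ^ m * x ^ m := by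
      rw [div_mul_cancel₀ _ hxm]
    rw [h4]
    exact O.mul_mem _ _ (hWO h2) (pow_mem hx m)
  have h5 : g ∈ V := by rw [← h1]; exact h3
  rw [← hW] at h5
  have h6 : W.valuation (algebraMap K M g) ≤ 1 := (ValuationSubring.valuation_le_one_iff _ _).mpr h5
  rw [← hg, map_pow] at h6
  exact absurd h6 (not_le.mpr (one_lt_pow₀ hx1 hm.ne'))

section

variable {M : Type} [Field M] [FirstOrder.Ring.CompatibleRing M] (hM : Tame M)
  {W : ValuationSubring M} (hW : W ≠ ⊤)
  (hr : ∀ O : ValuationSubring M, W ≤ O → O ≠ ⊤ → O = W)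

include hM hW hr in
/-- Rank one valuations with a norm gap and a value group which is not `n`-divisible, `n` prime to
the residue characteristic. -/
theorem rank_one_powers (hgap : NormGap W) {n : ℕ} (hn : W.valuation (n : M) = 1) {c : M}
    (hc : ∀ g : M, W.valuation g ^ n ≠ W.valuation c) : IsDefinable (W : Set M) := by
  obtain ⟨L, _, _, h1, h2, c', e, he, h⟩ := hgap
  obtain ⟨S, hS, hSV, b, hb, hbS⟩ := vtop hM hW L he h
  obtain ⟨d, hd0, hd1⟩ := exists_small_ne_zero hW
  have hb1 : W.valuation b ≤ 1 :=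
    (ValuationSubring.valuation_le_one_iff _ _).mpr (hSV _ (hbS b le_rfl))
  have hdb : W.valuation (d * b) < 1 := by
    rw [map_mul]
    exact mul_lt_one_of_nonneg_of_lt_one_left zero_le hd1 hb1
  have hA : coarse W (d * b) hdb = W := hr _ le_coarse (coarse_ne_top (mul_ne_zero hd0 hb))
  have hn0 : 0 < n := by
    rcases Nat.eq_zero_or_pos n with h3 | h3
    · rw [h3, Nat.cast_zero, map_zero] at hn
      exact absurd hn zero_ne_one
    · exact h3
  have hc0 : c ≠ 0 := by
    rintro rfl
    apply hc 0
    rw [map_zero, zero_pow hn0.ne']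
  have hI := cut_definable hS hSV hb hbS hd0 hd1 hdb (isDefinable_powers n) (approx_powers hn)
    (n := n) (by
      rintro t ⟨z, rfl⟩ _
      exact ⟨z, map_pow _ _ _⟩) hc0 (by
      rw [hA]
      exact hc)
  obtain ⟨O, hO1, hO2, hO3⟩ := exists_cut_ring (coarse_ne_top (mul_ne_zero hd0 hb)) hn0 hc0 hI
  rw [hA] at hO1
  rw [hr O hO1 hO2] at hO3
  exact hO3

include hM hW hr in
/-- Rank one valuations whose residue field has a separable extension of degree `n` and whose
value group is not `n`-divisible. -/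
theorem rank_one_norms (F : Type) [Field F] [Algebra (ResidueField W) F]
    [FiniteDimensional (ResidueField W) F] [Algebra.IsSeparable (ResidueField W) F] {c : M}
    (hc : ∀ g : M, W.valuation g ^ Module.finrank (ResidueField W) F ≠ W.valuation c) :
    IsDefinable (W : Set M) := by
  obtain ⟨L, _, _, h1, h2, c', e, he, h⟩ := gap_value W F hc
  obtain ⟨S, hS, hSV, b, hb, hbS⟩ := vtop hM hW L he h
  obtain ⟨d, hd0, hd1⟩ := exists_small_ne_zero hW
  have hb1 : W.valuation b ≤ 1 :=
    (ValuationSubring.valuation_le_one_iff _ _).mpr (hSV _ (hbS b le_rfl))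
  have hdb : W.valuation (d * b) < 1 := by
    rw [map_mul]
    exact mul_lt_one_of_nonneg_of_lt_one_left zero_le hd1 hb1
  have hA : coarse W (d * b) hdb = W := hr _ le_coarse (coarse_ne_top (mul_ne_zero hd0 hb))
  have hn0 : 0 < Module.finrank (ResidueField W) F := Module.finrank_pos
  have hc0 : c ≠ 0 := by
    rintro rfl
    apply hc 0
    rw [map_zero, zero_pow hn0.ne']
  obtain ⟨g, hg1, hg2, hg3, hg4, hg5⟩ := exists_lift W F
  have hfac : Fact (Irreducible (g.map (algebraMap W M))) := ⟨hg5⟩
  have hfin : FiniteDimensional M (AdjoinRoot (g.map (algebraMap W M))) :=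
    (hg1.map _).finite_adjoinRoot
  have hI := cut_definable hS hSV hb hbS hd0 hd1 hdb
    (isDefinable_norms (AdjoinRoot (g.map (algebraMap W M)))) (approx_norms g hg1 hg2 hg3 _ rfl)
    (n := Module.finrank (ResidueField W) F) (by
      rintro t ⟨z, rfl⟩ ht
      have hz : z ≠ 0 := by
        rintro rfl
        exact ht (Algebra.norm_zero)
      obtain ⟨c, u, hc0, hu, hcu, -⟩ := res_norm W g hg1 hg2 _ rfl z hz
      refine ⟨c, ?_⟩
      rw [hcu, map_mul, map_pow, (ValuationSubring.valuation_eq_one_iff W u).mp hu, mul_one,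
        hg4]) hc0 (by
      rw [hA]
      exact hc)
  obtain ⟨O, hO1, hO2, hO3⟩ := exists_cut_ring (coarse_ne_top (mul_ne_zero hd0 hb)) hn0 hc0 hI
  rw [hA] at hO1
  rw [hr O hO1 hO2] at hO3
  exact hO3

end

/-- The definable topology, with explicit parameters. -/
theorem vtop_of {K : Type} [Field K] [FirstOrder.Ring.CompatibleRing K] (hK : Tame K)
    {V : ValuationSubring K} {d : ℕ} (hd : 0 < d) {a : Fin d → K} {δ p c : K} (hp0 : p ≠ 0)
    (hp1 : V.valuation p < 1) (ha : ∀ k, p * a k ∈ V) (hpc : p * c ∈ V)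
    (hδ : δ * nfm d a (der d a) = 1) (hpδ : p * δ ∈ V)
    (hN : ∀ x : Fin d → K, V.valuation p ≤ V.valuation (nfm d a x - c)) :
    ∃ S : Set K, IsDefinable S ∧ (∀ x ∈ S, x ∈ V) ∧
      ∀ x, V.valuation x ≤ V.valuation (p ^ 2) → x ∈ S := by
  have hpv : V.valuation p ≠ 0 := (Valuation.ne_zero_iff _).mpr hp0
  let v : Par d → K := Sum.elim a ![c, δ, p, p⁻¹, p]
  have hB : BR d K v := by
    refine ⟨mul_inv_cancel₀ hp0, hδ, ?_⟩
    rintro ⟨x, hx⟩
    have h1 := hN x
    have h2 : nfm d a x = c := hx
    rw [h2, sub_self, map_zero, le_zero_iff] at h1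
    exact hpv h1
  have hVV : V ∈ VV (E1 d) (fun _ _ v => v (Sum.inr 2)) K v := by
    refine ⟨?_, hp1⟩
    rintro z (⟨k, rfl⟩ | rfl | rfl | ⟨x, hx⟩)
    · exact ha k
    · exact hpc
    · exact hpδ
    · have hx' : z * (nfm d a x - c) = p := hx
      have h1 : V.valuation z * V.valuation (nfm d a x - c) = V.valuation p := by
        rw [← map_mul, hx']
      have h2 : V.valuation (nfm d a x - c) ≠ 0 := by
        intro h3
        have h4 := hN x
        rw [h3, le_zero_iff] at h4
        exact hpv h4
      rw [← ValuationSubring.valuation_le_one_iff]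
      by_contra hcon
      push Not at hcon
      have h3 : V.valuation (nfm d a x - c) < V.valuation z * V.valuation (nfm d a x - c) :=
        lt_mul_of_one_lt_left (zero_lt_iff.mpr h2) hcon
      rw [h1] at h3
      exact absurd (hN x) (not_le.mpr h3)
  obtain ⟨S, hS1, hS2, hS3⟩ := definable_of_bound (E := E1 d)
    (p := fun _ _ v => v (Sum.inr 2)) (t := fun _ _ v x => v (Sum.inr 3) * x) (UDS_E1 d)
    (UT.var _) ((UT.var _).mul (UT.var _)) hp0
    (exists_vmax_E hd hK hB (fun _ _ _ => subset_rfl)) (by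
      intro K' _ v' hEE Q hQ O hO O' hO' hi hi' x hx0 hx hx'
      have hB' : BR d K' v' := (hEE (BR d) (UD_BR d)).mp hB
      have hp' : v' (Sum.inr 2) ≠ 0 := left_ne_zero_of_mul_eq_one hB'.1
      refine not_inc_two hp' hQ.2 hO.2 hO'.2 hi hi' (x := x) ?_ ?_
      · rw [map_inv₀] at hx
        by_contra hcon
        push Not at hcon
        have hx1 : 0 < O.valuation x := zero_lt_iff.mpr ((Valuation.ne_zero_iff _).mpr hx0)
        exact absurd hx (not_lt.mpr ((one_le_inv₀ hx1).mpr hcon.le))
      · have e1 : x = v' (Sum.inr 2) * (v' (Sum.inr 3) * x) := by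
          rw [← mul_assoc, hB'.1, one_mul]
        rw [e1, map_mul]
        exact mul_le_of_le_one_right' hx'.le) V hVV
  refine ⟨S, hS1, hS2, fun x hx => ?_⟩
  by_contra hxS
  apply hS3 x hxS
  show V.valuation (p⁻¹ * x) < 1
  rw [map_mul, map_inv₀]
  calc (V.valuation p)⁻¹ * V.valuation x ≤ (V.valuation p)⁻¹ * V.valuation (p ^ 2) := by gcongr
    _ = V.valuation p := by
      rw [map_pow, pow_two, ← mul_assoc, inv_mul_cancel₀ hpv, one_mul]
    _ < 1 := hp1

end Pool.Agent.Q175.NFC
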