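import Pool.Agent.Q175.NFC.Cut3

/-!
# Definable cuts for valuations of arbitrary rank
-/

set_option autoImplicit false

namespace Pool.Agent.Q175.NFC

open Polynomial IsLocalRing Module
open Pool.Agent.W882.Nip3 Pool.Agent.Q175.NF

/-- The coarsening of a power. -/
theorem coarse_cube {K : Type} [Field K] {V A : ValuationSubring K} {c : K}
    (hA : ∀ x, x ∈ A ↔ ∀ k : ℕ, V.valuation (c * x ^ k) ≤ 1)
    (hc1 : V.valuation c < 1) (hcc : V.valuation (c * c ^ 2) < 1) : coarse V (c * c ^ 2) hcc = A := by
  ext x
  rw [hA, mem_coarse]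
  constructor
  · intro h k
    have h1 := h (k * 3)
    have h2 : c * c ^ 2 * x ^ (k * 3) = (c * x ^ k) ^ 3 := by
      rw [mul_pow, ← pow_mul]
      ring
    rw [h2, map_pow] at h1
    by_contra hcon
    push Not at hcon
    exact absurd h1 (not_le.mpr (one_lt_pow₀ hcon (by norm_num)))
  · intro h k
    have h2 : c * c ^ 2 * x ^ k = c ^ 2 * (c * x ^ k) := by ring
    rw [h2, map_mul, map_pow]
    exact mul_le_one' (pow_le_one₀ zero_le hc1.le) (h k)

/-- Cuts of the value group, for valuations of arbitrary rank. -/
theorem cut_of_value {K : Type} [Field K] [FirstOrder.Ring.CompatibleRing K] (hK : Tame K)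
    {V : ValuationSubring K} (F : Type) [Field F] [Algebra (ResidueField V) F]
    [FiniteDimensional (ResidueField V) F] [Algebra.IsSeparable (ResidueField V) F] {c : K}
    (hc0 : c ≠ 0) (hc1 : V.valuation c < 1) (hcc : V.valuation (c * c ^ 2) < 1)
    (hcut : ∀ g : K, (coarse V (c * c ^ 2) hcc).valuation g ^ Module.finrank (ResidueField V) F ≠
      (coarse V (c * c ^ 2) hcc).valuation c) :
    IsDefinable {y : K | (coarse V (c * c ^ 2) hcc).valuation y ^
      Module.finrank (ResidueField V) F < (coarse V (c * c ^ 2) hcc).valuation c} := by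
  have hcV : V.valuation c ≠ 0 := (Valuation.ne_zero_iff _).mpr hc0
  have hcutV : ∀ g : K, V.valuation g ^ Module.finrank (ResidueField V) F ≠ V.valuation c := by
    intro g hg
    apply hcut g
    have hg0 : g ^ Module.finrank (ResidueField V) F ≠ 0 := by
      intro h
      rw [← map_pow, h, map_zero] at hg
      exact hcV hg.symm
    rw [← map_pow] at hg ⊢
    exact le_antisymm ((val_le_iff hc0).mpr (le_coarse ((val_le_iff hc0).mp hg.le)))
      ((val_le_iff hg0).mpr (le_coarse ((val_le_iff hg0).mp hg.ge)))
  obtain ⟨g, hg1, hg2, hg3, hg4, hg5⟩ := exists_lift V F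
  set d := g.natDegree with hd
  have hd0 : 0 < d := by
    rw [hg4]
    exact Module.finrank_pos
  let a' : Fin d → V := fun k => g.coeff k
  set a : Fin d → K := fun k => (a' k : K) with ha
  have hmon : (g.map (algebraMap V K)).Monic := hg1.map _
  have hG : mpoly d a = g.map (algebraMap V K) := by
    have h1 := mpoly_lowCoeff (K := K) hmon (d := d) (hg1.natDegree_map _)
    have h2 : lowCoeff d (g.map (algebraMap V K)) = a := by
      funext k
      show (g.map (algebraMap V K)).coeff k = a k
      rw [coeff_map]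
      rfl
    rw [h2] at h1
    exact h1
  have hGb : mpoly d (fun k => residue V (a' k)) = g.map (residue V) := by
    have h1 := mpoly_lowCoeff (K := ResidueField V) (hg1.map (residue V)) (d := d)
      (hg1.natDegree_map _)
    have h2 : lowCoeff d (g.map (residue V)) = fun k => residue V (a' k) := by
      funext k
      show (g.map (residue V)).coeff k = _
      rw [coeff_map]
    rw [h2] at h1
    exact h1
  have hu : IsUnit (nfm d a' (der d a')) := by
    rw [← IsLocalRing.residue_ne_zero_iff_isUnit, ← nfm_map]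
    have e : (fun i => residue V (der d a' i)) = der d (fun k => residue V (a' k)) := by
      funext i
      exact (der_map _ d a' i).symm
    rw [e]
    apply nfm_of_separable
    rw [hGb]
    exact hg3
  obtain ⟨u, hu⟩ := hu.exists_left_inv
  have hδ : (u : K) * nfm d a (der d a) = 1 := by
    have h1 := congrArg (algebraMap V K) hu
    rw [map_mul, map_one, ← nfm_map] at h1
    have e : (fun i => algebraMap V K (der d a' i)) = der d a := by
      funext i
      exact (der_map _ d a' i).symm
    rw [e] at h1
    exact h1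
  have hcW : c ∈ V := (ValuationSubring.valuation_le_one_iff _ _).mp hc1.le
  have hirrG : Irreducible (mpoly d a) := by rw [hG]; exact hg5
  have hfac : Fact (Irreducible (mpoly d a)) := ⟨hirrG⟩
  have hfin : FiniteDimensional K (AdjoinRoot (mpoly d a)) := (mpoly_monic d a).finite_adjoinRoot
  have hval : ∀ z : AdjoinRoot (mpoly d a), Algebra.norm K z ≠ 0 →
      ∃ h : K, V.valuation (Algebra.norm K z) =
        V.valuation h ^ Module.finrank (ResidueField V) F := by
    intro z hz0
    have hz : z ≠ 0 := by
      rintro rfl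
      exact hz0 Algebra.norm_zero
    obtain ⟨h, w, _, hw, hzw, -⟩ := res_norm V g hg1 hg2 _ hG z hz
    refine ⟨h, ?_⟩
    rw [hzw, map_mul, map_pow, (ValuationSubring.valuation_eq_one_iff V w).mp hw, mul_one, ← hd, hg4]
  have hN : ∀ x : Fin d → K, V.valuation c ≤ V.valuation (nfm d a x - c) := by
    intro x
    by_contra hcon
    push Not at hcon
    have h1 : V.valuation (nfm d a x) = V.valuation c := by
      have h2 : nfm d a x = (nfm d a x - c) + c := by ring
      rw [h2, Valuation.map_add_eq_of_lt_right _ hcon]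
    have h2 : Algebra.norm K (∑ i, x i • algBasis d a i) = nfm d a x := norm_eq_nfm d a x
    obtain ⟨h, hh⟩ := hval (∑ i, x i • algBasis d a i) (by
      rw [h2]
      intro h3
      rw [h3, map_zero] at h1
      exact hcV h1.symm)
    have h3 : V.valuation (nfm d a x) = V.valuation h ^ Module.finrank (ResidueField V) F := by
      rw [← h2]
      exact hh
    exact hcutV h (by rw [← h3, h1])
  obtain ⟨S, hS, hSV, hbS⟩ := vtop_of hK hd0 (a := a) (δ := (u : K)) (p := c) (c := c) hc0 hc1
    (fun k => V.mul_mem _ _ hcW (a' k).2) (V.mul_mem _ _ hcW hcW) hδ (V.mul_mem _ _ hcW u.2) hN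
  refine cut_definable hS hSV (pow_ne_zero 2 hc0) hbS hc0 hc1 hcc
    (isDefinable_norms (AdjoinRoot (mpoly d a))) (approx_norms g hg1 hg2 hg3 _ hG)
    (n := Module.finrank (ResidueField V) F) ?_ hc0 hcut
  rintro t ⟨z, rfl⟩ ht
  exact hval z ht

/-- Cuts of the value group, for valuations of arbitrary rank. -/
theorem cut_and_ring {K : Type} [Field K] [FirstOrder.Ring.CompatibleRing K] (hK : Tame K)
    {V : ValuationSubring K} (F : Type) [Field F] [Algebra (ResidueField V) F]
    [FiniteDimensional (ResidueField V) F] [Algebra.IsSeparable (ResidueField V) F] {c : K}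
    (hc1 : V.valuation c < 1) {A : ValuationSubring K}
    (hA : ∀ x, x ∈ A ↔ ∀ k : ℕ, V.valuation (c * x ^ k) ≤ 1)
    (hcut : ∀ g : K, A.valuation g ^ Module.finrank (ResidueField V) F ≠ A.valuation c) :
    IsDefinable {y : K | A.valuation y ^ Module.finrank (ResidueField V) F < A.valuation c} ∧
    ∃ O : ValuationSubring K, A ≤ O ∧ O ≠ ⊤ ∧ IsDefinable (O : Set K) := by
  have hn : 0 < Module.finrank (ResidueField V) F := Module.finrank_pos
  have hc0 : c ≠ 0 := by
    rintro rfl
    apply hcut 0
    rw [map_zero, zero_pow hn.ne']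
  have hcc : V.valuation (c * c ^ 2) < 1 := by
    rw [map_mul]
    exact mul_lt_one_of_nonneg_of_lt_one_left zero_le hc1
      (by rw [map_pow]; exact pow_le_one₀ zero_le hc1.le)
  have h1 := coarse_cube hA hc1 hcc
  have hAt : A ≠ ⊤ := by
    rw [← h1]
    exact coarse_ne_top (mul_ne_zero hc0 (pow_ne_zero 2 hc0))
  have h2 := cut_of_value hK F hc0 hc1 hcc (by
    rw [h1]
    exact hcut)
  rw [h1] at h2
  exact ⟨h2, exists_cut_ring hAt hn hc0 h2⟩

/-- Valuation rings with a principal maximal ideal. -/
theorem principal {K : Type} [Field K] [FirstOrder.Ring.CompatibleRing K] (hK : Tame K)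
    {V : ValuationSubring K} (hV : ¬ IsSepClosed (IsLocalRing.ResidueField V)) {ϖ : K}
    (h0 : ϖ ≠ 0) (h1 : V.valuation ϖ < 1)
    (hmin : ∀ x, V.valuation x < 1 → V.valuation x ≤ V.valuation ϖ) :
    IsDefinable (V : Set K) := discrete_definable hK hV h0 h1 hmin

end Pool.Agent.Q175.NFC
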