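import Pool.Agent.Q175.NFC.Cut4

/-!
# Definable overrings of valuation rings
-/

set_option autoImplicit false

namespace Pool.Agent.Q175.NFC

open Polynomial IsLocalRing Module
open Pool.Agent.W882.Nip3 Pool.Agent.Q175.NF

section

variable {K : Type} [Field K] {M : Type} [Field M] [Algebra K M] [Algebra.IsAlgebraic K M]

theorem le_of_comap_le {O O' : ValuationSubring M} (hle : O ≤ O')
    (hc : O'.comap (algebraMap K M) ≤ O.comap (algebraMap K M)) : O' ≤ O := by
  intro x hx
  by_contra hxO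
  have hx0 : x ≠ 0 := fun h => hxO (h ▸ O.zero_mem)
  have hx1 : 1 < O.valuation x := one_lt_val_iff.mpr hxO
  obtain ⟨m, hm, g, hg0, hg⟩ := exists_pow_val (K := K) O hx0
  have hxm : x ^ m ≠ 0 := pow_ne_zero _ hx0
  have h2 : algebraMap K M g / x ^ m ∈ O := by
    rw [← val_le_iff hxm]
    exact hg.ge
  have h3 : algebraMap K M g ∈ O' := by
    have h4 : algebraMap K M g = algebraMap K M g / x ^ m * x ^ m := by
      rw [div_mul_cancel₀ _ hxm]
    rw [h4]
    exact O'.mul_mem _ _ (hle h2) (pow_mem hx m)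
  have h5 : algebraMap K M g ∈ O := hc h3
  have h6 : O.valuation (algebraMap K M g) ≤ 1 := (ValuationSubring.valuation_le_one_iff _ _).mpr h5
  rw [← hg, map_pow] at h6
  exact absurd h6 (not_le.mpr (one_lt_pow₀ hx1 hm.ne'))

/-- The valuation rings which contain `V` are well ordered by inclusion. -/
def WO {K : Type} [Field K] (V : ValuationSubring K) : Prop :=
  ∀ s : Set (ValuationSubring K), s.Nonempty → (∀ O ∈ s, V ≤ O) → ∃ O ∈ s, ∀ O' ∈ s, O ≤ O'

theorem le_total_over {K : Type} [Field K] {V O O' : ValuationSubring K} (h : V ≤ O)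
    (h' : V ≤ O') : O ≤ O' ∨ O' ≤ O :=
  le_total (⟨O, h⟩ : {S : ValuationSubring K // V ≤ S}) ⟨O', h'⟩

theorem WO.ext {V : ValuationSubring K} (hV : WO V) {W : ValuationSubring M}
    (hW : W.comap (algebraMap K M) = V) : WO W := by
  intro s hs hsW
  obtain ⟨O₁, hO₁⟩ := hs
  obtain ⟨_, ⟨O, hO, rfl⟩, hmin⟩ := hV ((fun O => O.comap (algebraMap K M)) '' s)
    ⟨_, O₁, hO₁, rfl⟩ (by
      rintro _ ⟨O, hO, rfl⟩
      rw [← hW]
      exact fun x hx => hsW O hO hx)
  refine ⟨O, hO, fun O' hO' => ?_⟩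
  rcases le_total_over (hsW O hO) (hsW O' hO') with h | h
  · exact h
  · exact le_of_comap_le (K := K) h (hmin _ ⟨O', hO', rfl⟩)

end

/-- Finite rank. -/
theorem WO.of_finite {K : Type} [Field K] {V : ValuationSubring K}
    (h : {O : ValuationSubring K | V ≤ O}.Finite) : WO V := by
  intro s hs hsV
  have hfin : s.Finite := h.subset fun O hO => hsV O hO
  obtain ⟨O, hO, hmin⟩ := hfin.exists_minimal hs
  refine ⟨O, hO, fun O' hO' => ?_⟩
  rcases le_total_over (hsV O hO) (hsV O' hO') with h1 | h1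
  · exact h1
  · exact hmin hO' h1

section

variable {M : Type} [Field M] {W : ValuationSubring M}

theorem not_pow_inv {n : ℕ} {c : M} (hc : ∀ g : M, W.valuation g ^ n ≠ W.valuation c) (g : M) :
    W.valuation g ^ n ≠ W.valuation c⁻¹ := by
  intro h
  apply hc g⁻¹
  rw [map_inv₀, inv_pow, h, map_inv₀, inv_inv]

/-- An element whose value is not divisible modulo the largest convex subgroup which does not
contain this value. -/
theorem exists_cut_value (hwf : WO W) {n : ℕ} (hn : 0 < n) {c : M}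
    (hc : ∀ g : M, W.valuation g ^ n ≠ W.valuation c) :
    ∃ (c' : M) (h' : W.valuation c' < 1), ∀ g : M,
      (coarse W c' h').valuation g ^ n ≠ (coarse W c' h').valuation c' := by
  by_contra hcon
  push Not at hcon
  have hsmall : ∀ c : M, (∀ g : M, W.valuation g ^ n ≠ W.valuation c) → ∃ c' : M,
      (c' = c ∨ c' = c⁻¹) ∧ W.valuation c' < 1 ∧ ∀ g : M, W.valuation g ^ n ≠ W.valuation c' := by
    intro c hc
    have h1 : W.valuation c ≠ 1 := by
      intro h
      apply hc 1
      rw [map_one, one_pow, h]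
    rcases lt_or_gt_of_ne h1 with h | h
    · exact ⟨c, Or.inl rfl, h, hc⟩
    · refine ⟨c⁻¹, Or.inr rfl, ?_, not_pow_inv hc⟩
      rw [map_inv₀]
      exact inv_lt_one_of_one_lt₀ h
  have hne0 : ∀ c : M, (∀ g : M, W.valuation g ^ n ≠ W.valuation c) → c ≠ 0 := by
    rintro c hc rfl
    apply hc 0
    rw [map_zero, zero_pow hn.ne']
  obtain ⟨c₀, -, hc₀1, hc₀⟩ := hsmall c hc
  obtain ⟨O, ⟨c', h', hc', rfl⟩, hmin⟩ := hwf
    {O | ∃ (c' : M) (h' : W.valuation c' < 1), (∀ g : M, W.valuation g ^ n ≠ W.valuation c') ∧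
      O = coarse W c' h'} ⟨_, c₀, hc₀1, hc₀, rfl⟩ (by
      rintro _ ⟨c', h', -, rfl⟩
      exact le_coarse)
  obtain ⟨g, hg⟩ := hcon c' h'
  have hc0' := hne0 c' hc'
  have hcv : (coarse W c' h').valuation c' ≠ 0 := (Valuation.ne_zero_iff _).mpr hc0'
  have hg0 : g ≠ 0 := by
    rintro rfl
    rw [map_zero, zero_pow hn.ne'] at hg
    exact hcv hg.symm
  have hu : ∀ x : M, W.valuation x ^ n ≠ W.valuation (c' / g ^ n) := by
    intro x hx
    apply hc' (x * g)
    rw [map_mul, mul_pow, hx, map_div₀, map_pow, div_mul_cancel₀]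
    exact pow_ne_zero _ ((Valuation.ne_zero_iff _).mpr hg0)
  have hu1 : (coarse W c' h').valuation (c' / g ^ n) = 1 := by
    rw [map_div₀, map_pow, hg, div_self hcv]
  obtain ⟨u, hu2, hu3, hu4⟩ := hsmall _ hu
  have hu5 : (coarse W c' h').valuation u = 1 := by
    rcases hu2 with rfl | rfl
    · exact hu1
    · rw [map_inv₀, hu1, inv_one]
  have hu0 := hne0 u hu4
  have h1 := hmin _ ⟨u, hu3, hu4, rfl⟩
  have h2 : u⁻¹ ∈ coarse W c' h' := by
    rw [← ValuationSubring.valuation_le_one_iff, map_inv₀, hu5, inv_one]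
  have h3 : u⁻¹ ∈ coarse W u hu3 := h1 h2
  rw [← ValuationSubring.valuation_le_one_iff, map_inv₀] at h3
  have h4 := val_b_coarse (W := W) (hb := hu3) hu0
  have h5 : 0 < (coarse W u hu3).valuation u := zero_lt_iff.mpr ((Valuation.ne_zero_iff _).mpr hu0)
  exact absurd h3 (not_le.mpr ((one_lt_inv₀ h5).mpr h4))

end

section

variable {M : Type} [Field M] [FirstOrder.Ring.CompatibleRing M] (hM : Tame M)
  {W : ValuationSubring M} (hW : W ≠ ⊤)

include hM hW in
/-- Valuations with a norm gap, and powers. -/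
theorem ring_powers (hgap : NormGap W) {n : ℕ} (hn : W.valuation (n : M) = 1)
    (hA : ∀ A : ValuationSubring M, W ≤ A → A ≠ ⊤ → ∃ c : M, ∀ g : M,
      A.valuation g ^ n ≠ A.valuation c) :
    ∃ O : ValuationSubring M, W ≤ O ∧ O ≠ ⊤ ∧ IsDefinable (O : Set M) := by
  obtain ⟨L, _, _, h1, h2, c', e, he, h⟩ := hgap
  obtain ⟨S, hS, hSV, b, hb, hbS⟩ := vtop hM hW L he h
  obtain ⟨d, hd0, hd1⟩ := exists_small_ne_zero hW
  have hb1 : W.valuation b ≤ 1 :=
    (ValuationSubring.valuation_le_one_iff _ _).mpr (hSV _ (hbS b le_rfl))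
  have hdb : W.valuation (d * b) < 1 := by
    rw [map_mul]
    exact mul_lt_one_of_nonneg_of_lt_one_left zero_le hd1 hb1
  obtain ⟨c, hc⟩ := hA (coarse W (d * b) hdb) le_coarse (coarse_ne_top (mul_ne_zero hd0 hb))
  have hn0 : 0 < n := by
    rcases Nat.eq_zero_or_pos n with h3 | h3
    · rw [h3, Nat.cast_zero, map_zero] at hn
      exact absurd hn zero_ne_one
    · exact h3
  have hc0 : c ≠ 0 := by
    rintro rfl
    apply hc 0
    rw [map_zero, zero_pow hn0.ne']
  have hI := cut_definable hS hSV hb hbS hd0 hd1 hdb (isDefinable_powers n) (approx_powers hn)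
    (n := n) (by
      rintro t ⟨z, rfl⟩ _
      exact ⟨z, map_pow _ _ _⟩) hc0 hc
  obtain ⟨O, hO1, hO2, hO3⟩ := exists_cut_ring (coarse_ne_top (mul_ne_zero hd0 hb)) hn0 hc0 hI
  exact ⟨O, le_coarse.trans hO1, hO2, hO3⟩

include hM in
/-- Valuations with well ordered overrings, and norms of unramified extensions. -/
theorem ring_norms (hwf : WO W) (F : Type) [Field F] [Algebra (ResidueField W) F]
    [FiniteDimensional (ResidueField W) F] [Algebra.IsSeparable (ResidueField W) F] {c : M}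
    (hc : ∀ g : M, W.valuation g ^ Module.finrank (ResidueField W) F ≠ W.valuation c) :
    ∃ O : ValuationSubring M, W ≤ O ∧ O ≠ ⊤ ∧ IsDefinable (O : Set M) := by
  obtain ⟨c', h', hc'⟩ := exists_cut_value hwf Module.finrank_pos hc
  obtain ⟨-, O, hO1, hO2, hO3⟩ := cut_and_ring hM F h' (A := coarse W c' h')
    (fun x => mem_coarse) hc'
  exact ⟨O, le_coarse.trans hO1, hO2, hO3⟩

end

/-- Descent of definable overrings. -/
theorem descend {K : Type} [Field K] [FirstOrder.Ring.CompatibleRing K] {M : Type} [Field M]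
    [FirstOrder.Ring.CompatibleRing M] [Algebra K M] [FiniteDimensional K M]
    {V : ValuationSubring K} {W : ValuationSubring M} (hW : W.comap (algebraMap K M) = V)
    (h : ∃ O : ValuationSubring M, W ≤ O ∧ O ≠ ⊤ ∧ IsDefinable (O : Set M)) :
    ∃ O : ValuationSubring K, V ≤ O ∧ O ≠ ⊤ ∧ IsDefinable (O : Set K) := by
  obtain ⟨O, hO1, hO2, hO3⟩ := h
  refine ⟨O.comap (algebraMap K M), ?_, fun h => hO2 (eq_top_of_comap O h),
    isDefinable_comap hO3⟩
  rw [← hW]
  exact fun x hx => hO1 hx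

theorem ne_top_of_comap {K : Type} [Field K] {M : Type} [Field M] [Algebra K M]
    {V : ValuationSubring K} (hV : V ≠ ⊤) {W : ValuationSubring M}
    (hW : W.comap (algebraMap K M) = V) : W ≠ ⊤ := by
  rintro rfl
  apply hV
  rw [← hW]
  ext x
  exact ⟨fun _ => ValuationSubring.mem_top x, fun _ => ValuationSubring.mem_top _⟩

end Pool.Agent.Q175.NFC
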