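import Pool.Agent.Q175.NFC.Cut5

/-!
# Definable valuation rings of arbitrary rank
-/

set_option autoImplicit false

namespace Pool.Agent.Q175.NFC

open Polynomial IsLocalRing Module
open Pool.Agent.W882.Nip3 Pool.Agent.Q175.NF

section

variable {K : Type} [Field K] [FirstOrder.Ring.CompatibleRing K]

/-- The invariance ring of a cut. -/
theorem inv_ring {V A : ValuationSubring K} {n : ℕ} (hn : 0 < n) {c : K}
    (hc1 : V.valuation c < 1) (hA : ∀ x, x ∈ A ↔ ∀ k : ℕ, V.valuation (c * x ^ k) ≤ 1)
    (hcut : ∀ g : K, A.valuation g ^ n ≠ A.valuation c)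
    (hI : IsDefinable {y : K | A.valuation y ^ n < A.valuation c}) :
    IsDefinable (A : Set K) := by
  have hVA : V ≤ A := by
    intro x hx
    rw [hA]
    intro k
    rw [map_mul, map_pow]
    exact mul_le_one' hc1.le (pow_le_one₀ zero_le ((ValuationSubring.valuation_le_one_iff _ _).mpr hx))
  have hc0 : c ≠ 0 := by
    rintro rfl
    apply hcut 0
    rw [map_zero, zero_pow hn.ne']
  have hAc : A.valuation c < 1 := by
    rw [val_lt_one_iff_inv hc0, hA]
    intro h
    have h1 := h 2
    have h2 : c * c⁻¹ ^ 2 = c⁻¹ := by field_simp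
    rw [h2, map_inv₀] at h1
    have h3 : 0 < V.valuation c := zero_lt_iff.mpr ((Valuation.ne_zero_iff _).mpr hc0)
    exact absurd h1 (not_le.mpr ((one_lt_inv₀ h3).mpr hc1))
  have hAc0 : 0 < A.valuation c := zero_lt_iff.mpr ((Valuation.ne_zero_iff _).mpr hc0)
  have hn2 : 2 ≤ n := by
    by_contra hcon
    have h1 : n = 1 := by omega
    apply hcut c
    rw [h1, pow_one]
  have hcI : A.valuation c ^ n < A.valuation c := pow_lt_self_of_lt_one₀ hAc0 hAc hn2
  rw [isDefinable_iff]
  have h1 : PD (fun v : Fin 1 → K => ∀ y : K, y ∈ {y : K | A.valuation y ^ n < A.valuation c} →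
      v 0 * y ∈ {y : K | A.valuation y ^ n < A.valuation c}) := by
    apply PD.all1
    exact PD.imp (PD.mem hI (PT.var (Sum.inr ()))) (PD.mem hI ((PT.var (Sum.inl 0)).mul
      (PT.var (Sum.inr ()))))
  refine h1.congr fun v => ?_
  constructor
  · intro h
    show v 0 ∈ A
    rw [hA]
    intro k
    have h2 : ∀ k : ℕ, v 0 ^ k * c ∈ {y : K | A.valuation y ^ n < A.valuation c} := by
      intro k
      induction k with
      | zero => rwa [pow_zero, one_mul]
      | succ k ih =>
        rw [pow_succ', mul_assoc]
        exact h _ ih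
    have h3 : A.valuation (v 0 ^ k * c) ^ n < A.valuation c := h2 k
    have h4 : A.valuation (v 0 ^ k * c) < 1 := by
      by_contra hcon
      push Not at hcon
      exact absurd (h3.trans hAc) (not_lt.mpr (one_le_pow₀ hcon))
    by_contra hcon
    push Not at hcon
    rw [one_lt_val_iff] at hcon
    rw [mul_comm] at h4
    by_cases h0 : c * v 0 ^ k = 0
    · rw [h0] at hcon
      exact hcon V.zero_mem
    · rw [val_lt_one_iff_inv h0] at h4
      exact h4 (hVA ((V.mem_or_inv_mem _).resolve_left hcon))
  · intro hx y hy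
    have hy' : A.valuation y ^ n < A.valuation c := hy
    show A.valuation (v 0 * y) ^ n < A.valuation c
    refine lt_of_le_of_lt (pow_le_pow_left₀ zero_le ?_ n) hy'
    rw [map_mul]
    exact mul_le_of_le_one_left' ((ValuationSubring.valuation_le_one_iff _ _).mpr hx)

/-- The largest valuation ring over `V` in which `c` is not a unit is definable, if the value of
`c` is not divisible by the degree of a separable extension of the residue field. -/
theorem ring_definable (hK : Tame K) {V : ValuationSubring K} (F : Type) [Field F]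
    [Algebra (ResidueField V) F] [FiniteDimensional (ResidueField V) F]
    [Algebra.IsSeparable (ResidueField V) F] {c : K} (hc1 : V.valuation c < 1)
    {A : ValuationSubring K} (hA : ∀ x, x ∈ A ↔ ∀ k : ℕ, V.valuation (c * x ^ k) ≤ 1)
    (hcut : ∀ g : K, A.valuation g ^ Module.finrank (ResidueField V) F ≠ A.valuation c) :
    IsDefinable (A : Set K) :=
  inv_ring Module.finrank_pos hc1 hA hcut (cut_and_ring hK F hc1 hA hcut).1

/-- The case of a smallest convex subgroup. -/
theorem self_definable (hK : Tame K) {V : ValuationSubring K} (F : Type) [Field F]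
    [Algebra (ResidueField V) F] [FiniteDimensional (ResidueField V) F]
    [Algebra.IsSeparable (ResidueField V) F] {c : K} (hc1 : V.valuation c < 1)
    (hmin : ∀ x, (∀ k : ℕ, c * x ^ k ∈ V) → x ∈ V)
    (hcut : ∀ g : K, V.valuation g ^ Module.finrank (ResidueField V) F ≠ V.valuation c) :
    IsDefinable (V : Set K) := by
  refine ring_definable hK F hc1 (fun x => ⟨fun hx k => ?_, fun h => hmin x fun k => ?_⟩) hcut
  · rw [map_mul, map_pow]
    exact mul_le_one' hc1.le (pow_le_one₀ zero_le ((ValuationSubring.valuation_le_one_iff _ _).mpr hx))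
  · exact (ValuationSubring.valuation_le_one_iff _ _).mp (h k)

/-- Valuations with well ordered overrings. -/
theorem over_definable (hK : Tame K) {V : ValuationSubring K} (hwf : WO V) (F : Type) [Field F]
    [Algebra (ResidueField V) F] [FiniteDimensional (ResidueField V) F]
    [Algebra.IsSeparable (ResidueField V) F] {c : K}
    (hcut : ∀ g : K, V.valuation g ^ Module.finrank (ResidueField V) F ≠ V.valuation c) :
    ∃ O : ValuationSubring K, V ≤ O ∧ O ≠ ⊤ ∧ IsDefinable (O : Set K) := by
  obtain ⟨c', h', hc'⟩ := exists_cut_value hwf Module.finrank_pos hcut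
  have hc0 : c' ≠ 0 := by
    rintro rfl
    apply hc' 0
    rw [map_zero, zero_pow (Module.finrank_pos).ne']
  exact ⟨coarse V c' h', le_coarse, coarse_ne_top hc0,
    ring_definable hK F h' (fun x => mem_coarse) hc'⟩

/-- A nonunit which is a unit in all larger valuation rings. -/
theorem coarse_eq_self {K : Type} [Field K] {W : ValuationSubring K} {c : K} (hc0 : c ≠ 0)
    (hc1 : W.valuation c < 1) (h : ∀ A : ValuationSubring K, W ≤ A → A ≠ W → c⁻¹ ∈ A) (x : K)
    (hx : ∀ k : ℕ, c * x ^ k ∈ W) : x ∈ W := by
  by_contra hcon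
  have h1 : x ∈ coarse W c hc1 := mem_coarse.mpr fun k =>
    (ValuationSubring.valuation_le_one_iff _ _).mpr (hx k)
  have h2 : coarse W c hc1 ≠ W := fun h3 => hcon (h3 ▸ h1)
  have h3 := h _ le_coarse h2
  exact (val_lt_one_iff_inv hc0).mp (val_b_coarse hc0) h3

/-- A valuation ring with a value which is not divisible is not the whole field. -/
theorem ne_top_of_cut {K : Type} [Field K] {W : ValuationSubring K} {n : ℕ} (hn : 0 < n) {c : K}
    (hc : ∀ g : K, W.valuation g ^ n ≠ W.valuation c) : W ≠ ⊤ := by
  rintro rfl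
  by_cases h0 : c = 0
  · apply hc 0
    rw [h0, map_zero, zero_pow hn.ne']
  · apply hc 1
    have h1 : (⊤ : ValuationSubring K).valuation c ≤ 1 :=
      (ValuationSubring.valuation_le_one_iff _ _).mpr (ValuationSubring.mem_top _)
    have h2 : (⊤ : ValuationSubring K).valuation c⁻¹ ≤ 1 :=
      (ValuationSubring.valuation_le_one_iff _ _).mpr (ValuationSubring.mem_top _)
    rw [map_one, one_pow]
    refine le_antisymm ?_ h1
    rw [map_inv₀] at h2
    exact (inv_le_one₀ (zero_lt_iff.mpr ((Valuation.ne_zero_iff _).mpr h0))).mp h2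

end

end Pool.Agent.Q175.NFC
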