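import Pool.Agent.Q175.NFC.Conj

/-!
# Valuation rings compatible with the group of `q`-th powers
-/

set_option autoImplicit false

namespace Pool.Agent.Q175.NFC

open Pool.Agent.W882.Nip3 Pool.Agent.Q175.NF

/-- `x` is a `q`-th power. -/
def IsPow {F : Type} [Field F] (q : ℕ) (x : F) : Prop := ∃ y : F, y ^ q = x

section

variable {F : Type} [Field F] {q : ℕ}

theorem IsPow.mul {x y : F} (hx : IsPow q x) (hy : IsPow q y) : IsPow q (x * y) := by
  obtain ⟨a, rfl⟩ := hx
  obtain ⟨b, rfl⟩ := hy
  exact ⟨a * b, mul_pow _ _ _⟩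

theorem IsPow.inv {x : F} (hx : IsPow q x) : IsPow q x⁻¹ := by
  obtain ⟨a, rfl⟩ := hx
  exact ⟨a⁻¹, inv_pow _ _⟩

theorem IsPow.div {x y : F} (hx : IsPow q x) (hy : IsPow q y) : IsPow q (x / y) := by
  rw [div_eq_mul_inv]
  exact hx.mul hy.inv

theorem IsPow.of_mul {x y : F} (hxy : IsPow q (x * y)) (hy : IsPow q y) (hy0 : y ≠ 0) :
    IsPow q x := by
  have h := hxy.div hy
  rwa [mul_div_cancel_right₀ _ hy0] at h

theorem isPow_one : IsPow q (1 : F) := ⟨1, one_pow _⟩

theorem isPow_of_coprime {x : F} {n : ℕ} (hn : Nat.Coprime n q) (h : IsPow q (x ^ n)) :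
    IsPow q x := by
  by_cases hx : x = 0
  · subst hx
    rcases Nat.eq_zero_or_pos q with hq | hq
    · subst hq
      rw [Nat.coprime_zero_right] at hn
      rw [hn, pow_one] at h
      exact h
    · exact ⟨0, zero_pow hq.ne'⟩
  obtain ⟨y, hy⟩ := h
  have h1 : (1 : ℤ) = n * Nat.gcdA n q + q * Nat.gcdB n q := by
    have h2 := Nat.gcd_eq_gcd_ab n q
    rw [hn] at h2
    exact_mod_cast h2
  refine ⟨y ^ Nat.gcdA n q * x ^ Nat.gcdB n q, ?_⟩
  have h2 : x = x ^ (n * Nat.gcdA n q + q * Nat.gcdB n q : ℤ) := by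
    rw [← h1, zpow_one]
  conv_rhs => rw [h2]
  rw [mul_pow, ← zpow_natCast (y ^ _), ← zpow_natCast (x ^ _), ← zpow_mul, ← zpow_mul,
    zpow_add₀ hx, mul_comm (Nat.gcdA n q) (q : ℤ), zpow_mul, zpow_natCast, hy,
    zpow_mul x (n : ℤ), zpow_natCast, mul_comm (Nat.gcdB n q) (q : ℤ)]

/-- Compatible valuation rings. -/
def Comp (q : ℕ) (O : ValuationSubring F) : Prop := ∀ x, O.valuation x < 1 → IsPow q (1 + x)

/-- The elements which belong to all compatible valuation rings. -/
def Eq' (q : ℕ) (F : Type) [Field F] : Set F := {x | x ≠ 0 ∧ ¬ IsPow q (1 + x⁻¹)}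

theorem comp_iff {O : ValuationSubring F} : Comp q O ↔ ∀ x ∈ Eq' q F, x ∈ O := by
  constructor
  · rintro h x ⟨hx0, hx⟩
    by_contra hxO
    apply hx
    apply h
    rw [val_lt_one_iff_inv (inv_ne_zero hx0), inv_inv]
    exact hxO
  · intro h x hx
    by_cases hx0 : x = 0
    · rw [hx0, add_zero]
      exact isPow_one
    by_contra hcon
    have h1 : x⁻¹ ∈ Eq' q F := ⟨inv_ne_zero hx0, by rwa [inv_inv]⟩
    exact (val_lt_one_iff_inv hx0).mp hx (h _ h1)

theorem Comp.mono {O O' : ValuationSubring F} (h : Comp q O) (hle : O ≤ O') : Comp q O' := by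
  rw [comp_iff] at h ⊢
  exact fun x hx => hle (h x hx)

theorem isPow_add_of_char (p : ℕ) [Fact p.Prime] [CharP F p] (hqp : Nat.Coprime p q) {x : F}
    {k : ℕ} (h : IsPow q (1 + x ^ p ^ k)) : IsPow q (1 + x) := by
  apply isPow_of_coprime (n := p ^ k) (Nat.Coprime.pow_left k hqp)
  rwa [add_pow_char_pow, one_pow]

theorem comp_coarse (p : ℕ) [Fact p.Prime] [CharP F p] (hqp : Nat.Coprime p q)
    {V : ValuationSubring F} {b : F} (hb0 : b ≠ 0) (hb : V.valuation b < 1)
    (h : ∀ x, V.valuation x ≤ V.valuation b → IsPow q (1 + x)) : Comp q (coarse V b hb) := by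
  have hp : p.Prime := Fact.out
  intro x hx
  obtain ⟨n, hn⟩ := (coarse_lt hb0).mp hx
  apply isPow_add_of_char p hqp (k := n)
  apply h
  have hx1 : V.valuation x < 1 := by
    by_contra h'
    push Not at h'
    rw [map_pow] at hn
    exact absurd (hn.trans hb) (not_lt.mpr (one_le_pow₀ h'))
  rw [map_pow] at hn ⊢
  exact (pow_le_pow_right_of_le_one' hx1.le (Nat.lt_pow_self hp.one_lt).le).trans hn.le

/-- Elements which are not `q`-th powers. -/
theorem mem_Eq_or {x : F} (hx : ¬ IsPow q x) (hx0 : x ≠ 0) :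
    x ∈ Eq' q F ∨ x⁻¹ ∈ Eq' q F ∨ x = -1 := by
  by_contra hcon
  push Not at hcon
  obtain ⟨h1, h2, h3⟩ := hcon
  have h4 : IsPow q (1 + x⁻¹) := by
    by_contra h
    exact h1 ⟨hx0, h⟩
  have h5 : IsPow q (1 + x) := by
    by_contra h
    exact h2 ⟨inv_ne_zero hx0, by rwa [inv_inv]⟩
  apply hx
  have h6 : x = (1 + x) / (1 + x⁻¹) := by
    have h7 : 1 + x⁻¹ ≠ 0 := by
      intro h
      apply h3
      have h8 : (1 + x⁻¹) * x = 0 := by rw [h, zero_mul]
      rw [add_mul, one_mul, inv_mul_cancel₀ hx0] at h8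
      linear_combination h8
    rw [eq_div_iff h7]
    field_simp
    ring
  rw [h6]
  exact h5.div h4

end

section

variable {F : Type} [Field F] [FirstOrder.Ring.CompatibleRing F] {q : ℕ}

theorem PD_isPow {γ : Type} {f : (γ → F) → F} (hf : PT f) (q : ℕ) :
    PD (fun v => IsPow q (f v)) := by
  apply PD.ex1
  exact PD.eq ((PT.var _).pow q) (hf.comp Sum.inl)

/-- The case of a value group which is not divisible by `q`. -/
theorem definable_of_value (hq : 2 ≤ q) {O : ValuationSubring F} (hO : Comp q O) {a : F}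
    (ha0 : a ≠ 0) (ha : ∀ g : F, O.valuation a ≠ O.valuation g ^ q) :
    ∃ R : ValuationSubring F, R ≠ ⊤ ∧ O ≤ R ∧ IsDefinable (R : Set F) := by
  have hq0 : q ≠ 0 := by omega
  have key : ∀ x : F, IsPow q (1 + a * x ^ q) ↔ O.valuation (a * x ^ q) < 1 := by
    intro x
    refine ⟨fun h => ?_, fun h => hO _ h⟩
    by_contra hcon
    push Not at hcon
    have hx0 : x ≠ 0 := by
      rintro rfl
      rw [zero_pow hq0, mul_zero, map_zero] at hcon
      exact absurd hcon (not_le.mpr zero_lt_one)
    have hxv : O.valuation x ≠ 0 := (Valuation.ne_zero_iff _).mpr hx0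
    rcases hcon.eq_or_lt with h1 | h1
    · apply ha x⁻¹
      rw [map_mul, map_pow] at h1
      rw [map_inv₀, inv_pow]
      exact eq_inv_of_mul_eq_one_left h1.symm
    · obtain ⟨y, hy⟩ := h
      apply ha (y / x)
      have h2 := congrArg O.valuation hy
      rw [Valuation.map_add_eq_of_lt_right _ (by rwa [map_one]), map_pow, map_mul, map_pow] at h2
      rw [map_div₀, div_pow, h2]
      field_simp
  have hpos : ∀ x : F, x ≠ 0 → 0 < O.valuation x := fun x hx =>
    zero_lt_iff.mpr ((Valuation.ne_zero_iff _).mpr hx)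
  let R : ValuationSubring F :=
    { carrier := {y | ∀ x : F, IsPow q (1 + a * x ^ q) → IsPow q (1 + a * (x * y) ^ q)}
      mul_mem' := by
        intro y z hy hz x hx
        rw [← mul_assoc]
        exact hz _ (hy x hx)
      one_mem' := by
        intro x hx
        rwa [mul_one]
      add_mem' := by
        intro y z hy hz x hx
        have h1 := (key _).mp (hy x hx)
        have h2 := (key _).mp (hz x hx)
        rw [key]
        rcases le_total (O.valuation y) (O.valuation z) with h | h
        · refine lt_of_le_of_lt ?_ h2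
          rw [map_mul, map_mul, map_pow, map_pow, map_mul, map_mul]
          gcongr
          exact (O.valuation.map_add _ _).trans (max_le h le_rfl)
        · refine lt_of_le_of_lt ?_ h1
          rw [map_mul, map_mul, map_pow, map_pow, map_mul, map_mul]
          gcongr
          exact (O.valuation.map_add _ _).trans (max_le le_rfl h)
      zero_mem' := by
        intro x _
        rw [mul_zero, zero_pow hq0, mul_zero, add_zero]
        exact isPow_one
      neg_mem' := by
        intro y hy x hx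
        have h1 := (key _).mp (hy x hx)
        rw [key]
        rwa [mul_neg, map_mul, map_pow, Valuation.map_neg, ← map_pow, ← map_mul]
      mem_or_inv_mem' := by
        intro y
        have h1 : ∀ y : F, O.valuation y ≤ 1 → ∀ x : F, IsPow q (1 + a * x ^ q) →
            IsPow q (1 + a * (x * y) ^ q) := by
          intro y hy x hx
          rw [key] at hx ⊢
          refine lt_of_le_of_lt ?_ hx
          rw [map_mul, map_mul, map_pow, map_pow, map_mul]
          gcongr
          exact mul_le_of_le_one_right' hy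
        rcases le_total (O.valuation y) 1 with h | h
        · exact Or.inl (h1 y h)
        · refine Or.inr (h1 y⁻¹ ?_)
          rw [map_inv₀]
          exact inv_le_one_of_one_le₀ h }
  have hR : ∀ y, y ∈ R ↔ ∀ x : F, O.valuation (a * x ^ q) < 1 →
      O.valuation (a * (x * y) ^ q) < 1 := by
    intro y
    constructor
    · intro h x hx
      exact (key _).mp (h x ((key _).mpr hx))
    · intro h x hx
      exact (key _).mpr (h x ((key _).mp hx))
  refine ⟨R, ?_, ?_, ?_⟩
  · intro htop
    have hall : ∀ y, y ∈ R := fun y => by rw [htop]; exact ValuationSubring.mem_top y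
    have hne : O.valuation a ≠ 1 := by
      intro h
      apply ha 1
      rw [h, map_one, one_pow]
    rcases lt_or_gt_of_ne hne with h | h
    · have h1 := (hR a⁻¹).mp (hall _) 1 (by rwa [one_pow, mul_one])
      rw [one_mul, map_mul, map_pow, map_inv₀] at h1
      refine absurd h1 (not_lt.mpr ?_)
      obtain ⟨m, rfl⟩ : ∃ m, q = m + 1 := ⟨q - 1, by omega⟩
      rw [pow_succ', ← mul_assoc, mul_inv_cancel₀ (hpos a ha0).ne', one_mul]
      exact one_le_pow₀ ((one_le_inv₀ (hpos a ha0)).mpr h.le)
    · have h1 := (hR a).mp (hall _) a⁻¹ (by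
        rw [map_mul, map_pow, map_inv₀]
        obtain ⟨m, rfl⟩ : ∃ m, q = m + 1 := ⟨q - 1, by omega⟩
        rw [pow_succ', ← mul_assoc, mul_inv_cancel₀ (hpos a ha0).ne', one_mul]
        exact pow_lt_one₀ zero_le (inv_lt_one_of_one_lt₀ h) (by omega))
      rw [inv_mul_cancel₀ ha0, one_pow, mul_one] at h1
      exact absurd h1 (not_lt.mpr h.le)
  · intro y hy
    rw [hR]
    intro x hx
    refine lt_of_le_of_lt ?_ hx
    rw [map_mul, map_mul, map_pow, map_pow, map_mul]
    gcongr
    exact mul_le_of_le_one_right' ((ValuationSubring.valuation_le_one_iff _ _).mpr hy)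
  · rw [isDefinable_iff]
    show PD (fun v : Fin 1 → F => ∀ x : F, IsPow q (1 + a * x ^ q) →
      IsPow q (1 + a * (x * v 0) ^ q))
    apply PD.all1
    refine PD.imp (PD_isPow ?_ q) (PD_isPow ?_ q)
    · exact (PT.const 1).add ((PT.const a).mul ((PT.var _).pow q))
    · exact (PT.const 1).add ((PT.const a).mul (((PT.var (Sum.inr ())).mul
        (PT.var (Sum.inl 0))).pow q))

end

end Pool.Agent.Q175.NFC
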