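import Pool.Agent.Q175.NFC.Enc1

/-!
# Valuation rings from bounded sets, in characteristic `p`
-/

set_option autoImplicit false

namespace Pool.Agent.Q175.NFC

open Pool.Agent.W882.Nip3 Pool.Agent.Q175.NF

/-- The data of a bounded neighbourhood. -/
structure Nbd {k : Type} [Field k] (q : ℕ) (D : Set k) (u w : k) : Prop where
  u0 : u ≠ 0
  w0 : w ≠ 0
  zero : (0 : k) ∈ D
  neg : ∀ x ∈ D, -x ∈ D
  inv : ∀ x y : k, x * y = 1 → x ∈ D ∨ y ∈ D
  add : ∀ x ∈ D, ∀ y ∈ D, ∃ z ∈ D, x + y = u * z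
  mul : ∀ x ∈ D, ∀ y ∈ D, ∃ z ∈ D, x * y = u ^ 2 * z
  pow : ∀ x ∈ D, IsPow q (1 + w * x)
  one : ∀ x ∈ D, w * x ≠ 1

section

variable {k : Type} [Field k] {q : ℕ} {D : Set k} {u w : k} (h : Nbd q D u w)

/-- Multiples of the neighbourhood. -/
def Dj (D : Set k) (u : k) (j : ℕ) : Set k := {x | ∃ z ∈ D, x = u ^ j * z}

include h

theorem Nbd.one_mem : (1 : k) ∈ D := by
  rcases h.inv 1 1 (one_mul 1) with h1 | h1 <;> exact h1

theorem Nbd.mono {i j : ℕ} (hij : i ≤ j) : Dj D u i ⊆ Dj D u j := by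
  induction j, hij using Nat.le_induction with
  | base => exact subset_rfl
  | succ j _ ih =>
    intro x hx
    obtain ⟨z, hz, rfl⟩ := ih hx
    obtain ⟨z', hz', h1⟩ := h.add z hz 0 h.zero
    rw [add_zero] at h1
    exact ⟨z', hz', by rw [h1]; ring⟩

theorem Nbd.add_mem {i : ℕ} {x y : k} (hx : x ∈ Dj D u i) (hy : y ∈ Dj D u i) :
    x + y ∈ Dj D u (i + 1) := by
  obtain ⟨z, hz, rfl⟩ := hx
  obtain ⟨z', hz', rfl⟩ := hy
  obtain ⟨z'', hz'', h1⟩ := h.add z hz z' hz'
  exact ⟨z'', hz'', by rw [← mul_add, h1]; ring⟩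

theorem Nbd.mul_mem {i j : ℕ} {x y : k} (hx : x ∈ Dj D u i) (hy : y ∈ Dj D u j) :
    x * y ∈ Dj D u (i + j + 2) := by
  obtain ⟨z, hz, rfl⟩ := hx
  obtain ⟨z', hz', rfl⟩ := hy
  obtain ⟨z'', hz'', h1⟩ := h.mul z hz z' hz'
  exact ⟨z'', hz'', by
    rw [show u ^ i * z * (u ^ j * z') = u ^ i * u ^ j * (z * z') by ring, h1]
    ring⟩

omit h in
theorem mem_Dj_zero {x : k} (hx : x ∈ D) : x ∈ Dj D u 0 := ⟨x, hx, by rw [pow_zero, one_mul]⟩

theorem Nbd.not_mem_Dj {i : ℕ} {x : k} (hx : x ∉ Dj D u i) : u ^ i * x⁻¹ ∈ D := by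
  have hui : u ^ i ≠ 0 := pow_ne_zero _ h.u0
  have hx0 : x ≠ 0 := by
    rintro rfl
    exact hx ⟨0, h.zero, by rw [mul_zero]⟩
  refine (h.inv ((u ^ i)⁻¹ * x) (u ^ i * x⁻¹) (by field_simp)).resolve_left ?_
  intro h1
  exact hx ⟨_, h1, by rw [← mul_assoc, mul_inv_cancel₀ hui, one_mul]⟩

theorem Nbd.exists_closure {x : k} (hx : x ∈ Subring.closure D) : ∃ j, x ∈ Dj D u j := by
  induction hx using Subring.closure_induction with
  | mem x hx => exact ⟨0, mem_Dj_zero hx⟩
  | zero => exact ⟨0, mem_Dj_zero h.zero⟩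
  | one => exact ⟨0, mem_Dj_zero h.one_mem⟩
  | add x y _ _ hx hy =>
    obtain ⟨n, hn⟩ := hx
    obtain ⟨m, hm⟩ := hy
    exact ⟨max n m + 1, h.add_mem (h.mono (le_max_left _ _) hn) (h.mono (le_max_right _ _) hm)⟩
  | neg x _ hx =>
    obtain ⟨n, z, hz, rfl⟩ := hx
    exact ⟨n, -z, h.neg z hz, by ring⟩
  | mul x y _ _ hx hy =>
    obtain ⟨n, hn⟩ := hx
    obtain ⟨m, hm⟩ := hy
    exact ⟨_, h.mul_mem hn hm⟩

/-- A bounded neighbourhood gives a compatible valuation ring. -/
theorem Nbd.exists_comp (p : ℕ) [Fact p.Prime] [CharP k p] (hqp : Nat.Coprime p q) :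
    ∃ O : ValuationSubring k, Comp q O ∧ O ≠ ⊤ := by
  classical
  have hp : p.Prime := Fact.out
  by_cases hcase : ∃ s, s ∉ Subring.closure D
  · -- the closure is a valuation ring
    obtain ⟨s, hs⟩ := hcase
    let A : ValuationSubring k :=
      { Subring.closure D with
        mem_or_inv_mem' := by
          intro x
          by_cases hx : x = 0
          · left
            rw [hx]
            exact (Subring.closure D).zero_mem
          · rcases h.inv x x⁻¹ (mul_inv_cancel₀ hx) with h1 | h1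
            · exact Or.inl (Subring.subset_closure h1)
            · exact Or.inr (Subring.subset_closure h1) }
    have hA : ∀ x, x ∈ A ↔ x ∈ Subring.closure D := fun x => Iff.rfl
    have hsA : s ∉ A := hs
    have hs0 : s ≠ 0 := fun h0 => hsA (h0 ▸ A.zero_mem)
    have hkey : ∀ y ∈ A, IsPow q (1 + w / s * y) := by
      intro y hy
      have h1 : s⁻¹ * y ∈ D := by
        by_cases hy0 : y = 0
        · rw [hy0, mul_zero]
          exact h.zero
        refine (h.inv (s⁻¹ * y) (s * y⁻¹) (by field_simp)).resolve_right ?_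
        intro h1
        apply hsA
        have h2 : s = (s * y⁻¹) * y := by field_simp
        rw [h2]
        exact A.mul_mem _ _ (Subring.subset_closure h1) hy
      have h2 := h.pow _ h1
      rwa [show w * (s⁻¹ * y) = w / s * y by field_simp] at h2
    have hws : w / s ≠ 0 := div_ne_zero h.w0 hs0
    have hsv : A.valuation s⁻¹ < 1 := by
      rw [val_lt_one_iff_inv (inv_ne_zero hs0), inv_inv]
      exact hsA
    obtain ⟨b, hb0, hb1, hb2⟩ : ∃ b : k, b ≠ 0 ∧ A.valuation b < 1 ∧
        A.valuation b ≤ A.valuation (w / s) := by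
      rcases lt_or_ge (A.valuation (w / s)) 1 with h1 | h1
      · exact ⟨w / s, hws, h1, le_rfl⟩
      · exact ⟨s⁻¹, inv_ne_zero hs0, hsv, hsv.le.trans h1⟩
    refine ⟨coarse A b hb1, comp_coarse p hqp hb0 hb1 ?_, coarse_ne_top hb0⟩
    intro x hx
    have h1 : x / (w / s) ∈ A := (val_le_iff hws).mp (hx.trans hb2)
    have h2 := hkey _ h1
    rwa [mul_div_cancel₀ _ hws] at h2
  · push Not at hcase
    have hall : ∀ x : k, ∃ j, x ∈ Dj D u j := fun x => h.exists_closure (hcase x)
    -- the power bounded elements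
    let O : ValuationSubring k :=
      { carrier := {x | ∃ j : ℕ, ∀ m : ℕ, x ^ p ^ m ∈ Dj D u j}
        mul_mem' := by
          rintro x y ⟨i, hi⟩ ⟨j, hj⟩
          refine ⟨i + j + 2, fun m => ?_⟩
          rw [mul_pow]
          exact h.mul_mem (hi m) (hj m)
        one_mem' := ⟨0, fun m => by rw [one_pow]; exact mem_Dj_zero h.one_mem⟩
        add_mem' := by
          rintro x y ⟨i, hi⟩ ⟨j, hj⟩
          refine ⟨max i j + 1, fun m => ?_⟩
          rw [add_pow_char_pow]
          exact h.add_mem (h.mono (le_max_left _ _) (hi m)) (h.mono (le_max_right _ _) (hj m))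
        zero_mem' := ⟨0, fun m => by
          rw [zero_pow (pow_ne_zero _ hp.ne_zero)]
          exact mem_Dj_zero h.zero⟩
        neg_mem' := by
          rintro x ⟨i, hi⟩
          refine ⟨i, fun m => ?_⟩
          have h1 : (-x) ^ p ^ m = -(x ^ p ^ m) := by
            have h2 := sub_pow_char_pow (p := p) (n := m) (0 : k) x
            rw [zero_sub, zero_pow (pow_ne_zero _ hp.ne_zero), zero_sub] at h2
            exact h2
          rw [h1]
          obtain ⟨z, hz, h2⟩ := hi m
          exact ⟨-z, h.neg z hz, by rw [h2]; ring⟩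
        mem_or_inv_mem' := by
          intro x
          by_cases hx : ∃ j : ℕ, ∀ m : ℕ, x ^ p ^ m ∈ Dj D u j
          · exact Or.inl hx
          right
          push Not at hx
          obtain ⟨m₀, hm₀⟩ := hx 2
          set y : k := (x ^ p ^ m₀)⁻¹ with hy
          have hy1 : u ^ 2 * y ∈ D := h.not_mem_Dj hm₀
          have hy2 : ∀ n : ℕ, u ^ 2 * y ^ (n + 1) ∈ D := by
            intro n
            induction n with
            | zero => rwa [zero_add, pow_one]
            | succ n ih =>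
              obtain ⟨z, hz, h1⟩ := h.mul _ ih _ hy1
              have h2 : u ^ 2 * (u ^ 2 * y ^ (n + 1 + 1)) = u ^ 2 * z := by
                rw [← h1]
                ring
              rw [mul_left_cancel₀ (pow_ne_zero _ h.u0) h2]
              exact hz
          obtain ⟨j₁, hj₁⟩ := hall (u ^ 2)⁻¹
          have hy3 : ∀ n : ℕ, y ^ (n + 1) ∈ Dj D u (j₁ + 0 + 2) := by
            intro n
            have h1 := h.mul_mem hj₁ (mem_Dj_zero (u := u) (hy2 n))
            rwa [← mul_assoc, inv_mul_cancel₀ (pow_ne_zero _ h.u0), one_mul] at h1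
          choose jj hjj using fun m : ℕ => hall (x⁻¹ ^ p ^ m)
          refine ⟨j₁ + 2 + ∑ m ∈ Finset.range m₀, jj m, fun m => ?_⟩
          rcases lt_or_ge m m₀ with hm | hm
          · refine h.mono ?_ (hjj m)
            have h1 : jj m ≤ ∑ m ∈ Finset.range m₀, jj m :=
              Finset.single_le_sum (fun _ _ => Nat.zero_le _) (Finset.mem_range.mpr hm)
            omega
          · refine h.mono (by omega) (i := j₁ + 0 + 2) ?_
            obtain ⟨r, rfl⟩ : ∃ r, m = m₀ + r := ⟨m - m₀, by omega⟩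
            have h1 : p ^ r = (p ^ r - 1) + 1 := (Nat.sub_add_cancel (Nat.one_le_pow _ _ hp.pos)).symm
            have h2 : x⁻¹ ^ p ^ (m₀ + r) = y ^ p ^ r := by
              rw [hy, ← inv_pow, pow_add, pow_mul]
            rw [h2, h1]
            exact hy3 _ }
    have hO : ∀ x, x ∈ O ↔ ∃ j : ℕ, ∀ m : ℕ, x ^ p ^ m ∈ Dj D u j := fun x => Iff.rfl
    refine ⟨O, ?_, ?_⟩
    · intro x hx
      by_cases hx0 : x = 0
      · rw [hx0, add_zero]
        exact isPow_one
      rw [val_lt_one_iff_inv hx0, hO] at hx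
      push Not at hx
      obtain ⟨j₂, z₂, hz₂, hw⟩ := hall w⁻¹
      obtain ⟨m, hm⟩ := hx (j₂ + 2)
      apply isPow_add_of_char p hqp (k := m)
      have h1 := h.not_mem_Dj hm
      rw [inv_pow, inv_inv] at h1
      obtain ⟨z, hz, h2⟩ := h.mul z₂ hz₂ _ h1
      have h3 : x ^ p ^ m = w * z := by
        have h4 : u ^ (j₂ + 2) * (w⁻¹ * x ^ p ^ m) = u ^ (j₂ + 2) * z := by
          rw [hw]
          linear_combination u ^ j₂ * h2
        have h5 := mul_left_cancel₀ (pow_ne_zero _ h.u0) h4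
        rw [← h5, ← mul_assoc, mul_inv_cancel₀ h.w0, one_mul]
      rw [h3]
      exact h.pow z hz
    · intro htop
      have hu : u ∈ O := by rw [htop]; exact ValuationSubring.mem_top u
      obtain ⟨j, hj⟩ := (hO u).mp hu
      obtain ⟨z, hz, h1⟩ := hj (j + 3)
      have hlt : j + 3 < p ^ (j + 3) := Nat.lt_pow_self hp.one_lt
      obtain ⟨N, hN⟩ : ∃ N, p ^ (j + 3) = j + (N + 2) + 1 := ⟨p ^ (j + 3) - j - 3, by omega⟩
      have h2 : u ^ (N + 3) = z := by
        rw [hN, show j + (N + 2) + 1 = j + (N + 3) by ring, pow_add] at h1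
        exact mul_left_cancel₀ (pow_ne_zero _ h.u0) h1
      have h3 : ∀ x ∈ D, u ^ (N + 1) * x ∈ D := by
        intro x hx
        obtain ⟨z', hz', h4⟩ := h.mul z hz x hx
        have h5 : u ^ 2 * (u ^ (N + 1) * x) = u ^ 2 * z' := by
          rw [← h4, ← h2]
          ring
        rw [mul_left_cancel₀ (pow_ne_zero _ h.u0) h5]
        exact hz'
      have h4 : ∀ (m : ℕ), ∀ x ∈ D, u ^ (m * (N + 1)) * x ∈ D := by
        intro m
        induction m with
        | zero =>
          intro x hx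
          rwa [zero_mul, pow_zero, one_mul]
        | succ m ih =>
          intro x hx
          have h5 := ih _ (h3 x hx)
          rwa [← mul_assoc, ← pow_add, show m * (N + 1) + (N + 1) = (m + 1) * (N + 1) by ring]
            at h5
      obtain ⟨i, hi⟩ := hall w⁻¹
      obtain ⟨z', hz', h5⟩ := h.mono (show i ≤ i * (N + 1) by nlinarith) hi
      have h6 : w⁻¹ ∈ D := by
        rw [h5]
        exact h4 i z' hz'
      exact h.one _ h6 (mul_inv_cancel₀ h.w0)

end

end Pool.Agent.Q175.NFC
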