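import Pool.Agent.Q175.NFC.Enc2

/-!
# Definable valuation rings from open groups of `q`-th powers, in characteristic `p`
-/

set_option autoImplicit false

namespace Pool.Agent.Q175.NFC

open Pool.Agent.W882.Nip3 Pool.Agent.Q175.NF

/-- Generators of the smallest compatible valuation ring. -/
def Bset (q : ℕ) (F : Type) [Field F] (c d : F) : Set F :=
  {x | x = c ∨ x = d ∨ x ∈ Eq' q F ∨ c * x ∈ Eq' q F ∨ d * x ∈ Eq' q F}

section

variable {F : Type} [Field F] {q : ℕ}

theorem closure_mem_or {c d : F} (hc : ¬ IsPow q c) (hcd : c * d = 1) {A : Subring F}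
    (hA : Bset q F c d ⊆ A) (x : F) : x ∈ A ∨ x⁻¹ ∈ A := by
  have hc0 : c ≠ 0 := left_ne_zero_of_mul_eq_one hcd
  have hd : d = c⁻¹ := eq_inv_of_mul_eq_one_right hcd
  by_cases hx0 : x = 0
  · rw [hx0]
    exact Or.inl A.zero_mem
  by_cases hx : IsPow q x
  · have hcx : ¬ IsPow q (c * x) := fun h => hc (h.of_mul hx hx0)
    rcases mem_Eq_or hcx (mul_ne_zero hc0 hx0) with h | h | h
    · exact Or.inl (hA (Or.inr (Or.inr (Or.inr (Or.inl h)))))
    · refine Or.inr (hA (Or.inr (Or.inr (Or.inr (Or.inr ?_)))))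
      rwa [hd, ← mul_inv]
    · right
      have h1 : x⁻¹ = -c := by
        symm
        apply eq_inv_of_mul_eq_one_left
        rw [neg_mul, h, neg_neg]
      rw [h1]
      exact A.neg_mem (hA (Or.inl rfl))
  · rcases mem_Eq_or hx hx0 with h | h | h
    · exact Or.inl (hA (Or.inr (Or.inr (Or.inl h))))
    · exact Or.inr (hA (Or.inr (Or.inr (Or.inl h))))
    · rw [h]
      exact Or.inl (A.neg_mem A.one_mem)

/-- The closure as a valuation ring. -/
def closureVal {c d : F} (hc : ¬ IsPow q c) (hcd : c * d = 1) : ValuationSubring F :=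
  { Subring.closure (Bset q F c d) with
    mem_or_inv_mem' := closure_mem_or hc hcd Subring.subset_closure }

theorem mem_closureVal {c d : F} {hc : ¬ IsPow q c} {hcd : c * d = 1} {x : F} :
    x ∈ closureVal hc hcd ↔ x ∈ Subring.closure (Bset q F c d) := Iff.rfl

theorem comp_closureVal {c d : F} {hc : ¬ IsPow q c} {hcd : c * d = 1} :
    Comp q (closureVal hc hcd) :=
  comp_iff.mpr fun _ hx => Subring.subset_closure (Or.inr (Or.inr (Or.inl hx)))

end

section

variable {q : ℕ} {α : Type}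

theorem UD_isPow {f : ∀ (K : Type) [Field K], (α → K) → K} (hf : UT α f) :
    UD α (fun K _ v => IsPow q (f K v)) := by
  apply UD.ex1
  exact UD.eq ((UT.var _).pow q) (hf.comp Sum.inl)

theorem UD_Eq {f : ∀ (K : Type) [Field K], (α → K) → K} (hf : UT α f) :
    UD α (fun K _ v => f K v ∈ Eq' q K) := by
  have h1 : UD α (fun K _ v => ∃ y : K, f K v * y = 1 ∧ ¬ IsPow q (1 + y)) := by
    apply UD.ex1
    exact UD.and (UD.eq ((hf.comp Sum.inl).mul (UT.var _)) UT.one)
      (UD.not (UD_isPow (UT.one.add (UT.var _))))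
  refine h1.congr fun K _ v => ?_
  constructor
  · rintro ⟨y, hy, h2⟩
    have h3 : y = (f K v)⁻¹ := eq_inv_of_mul_eq_one_right hy
    exact ⟨left_ne_zero_of_mul_eq_one hy, by rwa [← h3]⟩
  · rintro ⟨h2, h3⟩
    exact ⟨(f K v)⁻¹, mul_inv_cancel₀ h2, h3⟩

theorem UDS_Bset : UDS (Fin 2) (fun K _ v => Bset q K (v 0) (v 1)) := by
  refine UD.or (UD.eq (UT.var _) (UT.var _)) (UD.or (UD.eq (UT.var _) (UT.var _))
    (UD.or (UD_Eq (UT.var _)) (UD.or (UD_Eq ((UT.var _).mul (UT.var _)))
      (UD_Eq ((UT.var _).mul (UT.var _))))))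

/-- Small elements of the class of `c`. -/
def Xset (q : ℕ) (K : Type) [Field K] (c : K) : Set K :=
  {x | ∃ g h : K, g ≠ 0 ∧ x = c * g ^ q ∧ 1 + x = h ^ q}

/-- Multiples of differences. -/
def DD (q : ℕ) (K : Type) [Field K] (c u : K) : Set K :=
  {z | ∃ x y : K, (x ∈ Xset q K c ∧ y ∈ Xset q K c) ∧ z = u * (x - y)}

theorem UD_Xset {f g : ∀ (K : Type) [Field K], (α → K) → K} (hf : UT α f) (hg : UT α g) :
    UD α (fun K _ v => f K v ∈ Xset q K (g K v)) := by
  apply UD.ex1
  apply UD.ex1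
  refine UD.and (UD.not (UD.eq (UT.var (Sum.inl (Sum.inr ()))) UT.zero)) (UD.and ?_ ?_)
  · exact UD.eq ((hf.comp Sum.inl).comp Sum.inl) (((hg.comp Sum.inl).comp Sum.inl).mul
      ((UT.var _).pow q))
  · exact UD.eq (UT.one.add ((hf.comp Sum.inl).comp Sum.inl)) ((UT.var _).pow q)

theorem UD_DD {f g l : ∀ (K : Type) [Field K], (α → K) → K} (hf : UT α f) (hg : UT α g)
    (hl : UT α l) : UD α (fun K _ v => f K v ∈ DD q K (g K v) (l K v)) := by
  apply UD.ex1
  apply UD.ex1
  refine UD.and (UD.and (UD_Xset (UT.var _) ((hg.comp Sum.inl).comp Sum.inl))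
    (UD_Xset (UT.var _) ((hg.comp Sum.inl).comp Sum.inl))) ?_
  exact UD.eq ((hf.comp Sum.inl).comp Sum.inl) (((hl.comp Sum.inl).comp Sum.inl).mul
    (UT.sub (UT.var _) (UT.var _)))

/-- The statement to be transferred. -/
def Th (q : ℕ) (K : Type) [Field K] (c : K) : Prop :=
  ∃ u w : K, Nbd q (DD q K c u) u w

theorem UD_Th : UD (Fin 2) (fun K _ v => Th q K (v 0)) := by
  have h1 : UD (Fin 2) (fun K _ v => ∃ u w : K, (u ≠ 0 ∧ w ≠ 0) ∧
      (0 : K) ∈ DD q K (v 0) u ∧
      (∀ x : K, x ∈ DD q K (v 0) u → -x ∈ DD q K (v 0) u) ∧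
      (∀ x y : K, x * y = 1 → x ∈ DD q K (v 0) u ∨ y ∈ DD q K (v 0) u) ∧
      (∀ x y : K, x ∈ DD q K (v 0) u ∧ y ∈ DD q K (v 0) u →
        ∃ z : K, z ∈ DD q K (v 0) u ∧ x + y = u * z) ∧
      (∀ x y : K, x ∈ DD q K (v 0) u ∧ y ∈ DD q K (v 0) u →
        ∃ z : K, z ∈ DD q K (v 0) u ∧ x * y = u ^ 2 * z) ∧
      (∀ x : K, x ∈ DD q K (v 0) u → IsPow q (1 + w * x)) ∧
      (∀ x : K, x ∈ DD q K (v 0) u → ¬ w * x = 1)) := by
    apply UD.ex1
    apply UD.ex1
    refine UD.and (UD.and (UD.not (UD.eq (UT.var _) UT.zero)) (UD.not (UD.eq (UT.var _) UT.zero)))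
      (UD.and (UD_DD UT.zero (UT.var _) (UT.var _)) (UD.and ?_ (UD.and ?_ (UD.and ?_ (UD.and ?_
        (UD.and ?_ ?_))))))
    · apply UD.all1
      exact UD.imp (UD_DD (UT.var _) (UT.var _) (UT.var _))
        (UD_DD (UT.var _).neg (UT.var _) (UT.var _))
    · apply UD.all1
      apply UD.all1
      exact UD.imp (UD.eq ((UT.var _).mul (UT.var _)) UT.one)
        (UD.or (UD_DD (UT.var _) (UT.var _) (UT.var _)) (UD_DD (UT.var _) (UT.var _) (UT.var _)))
    · apply UD.all1
      apply UD.all1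
      refine UD.imp (UD.and (UD_DD (UT.var _) (UT.var _) (UT.var _))
        (UD_DD (UT.var _) (UT.var _) (UT.var _))) ?_
      apply UD.ex1
      exact UD.and (UD_DD (UT.var _) (UT.var _) (UT.var _))
        (UD.eq ((UT.var _).add (UT.var _)) ((UT.var _).mul (UT.var _)))
    · apply UD.all1
      apply UD.all1
      refine UD.imp (UD.and (UD_DD (UT.var _) (UT.var _) (UT.var _))
        (UD_DD (UT.var _) (UT.var _) (UT.var _))) ?_
      apply UD.ex1
      exact UD.and (UD_DD (UT.var _) (UT.var _) (UT.var _))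
        (UD.eq ((UT.var _).mul (UT.var _)) (((UT.var _).pow 2).mul (UT.var _)))
    · apply UD.all1
      exact UD.imp (UD_DD (UT.var _) (UT.var _) (UT.var _))
        (UD_isPow (UT.one.add ((UT.var _).mul (UT.var _))))
    · apply UD.all1
      exact UD.imp (UD_DD (UT.var _) (UT.var _) (UT.var _))
        (UD.not (UD.eq ((UT.var _).mul (UT.var _)) UT.one))
  refine h1.congr fun K _ v => ?_
  refine exists_congr fun u => exists_congr fun w => ?_
  constructor
  · rintro ⟨⟨a1, a2⟩, a3, a4, a5, a6, a7, a8, a9⟩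
    exact ⟨a1, a2, a3, a4, a5, fun x hx y hy => a6 x y ⟨hx, hy⟩,
      fun x hx y hy => a7 x y ⟨hx, hy⟩, a8, a9⟩
  · intro h
    exact ⟨⟨h.u0, h.w0⟩, h.zero, h.neg, h.inv, fun x y hxy => h.add x hxy.1 y hxy.2,
      fun x y hxy => h.mul x hxy.1 y hxy.2, h.pow, h.one⟩

end

/-- A compatible valuation ring gives a bounded neighbourhood. -/
theorem th_of_comp {k : Type} [Field k] {q : ℕ} (hq : q ≠ 0) {O : ValuationSubring k}
    (hO : Comp q O) (hOt : O ≠ ⊤) {c : k} (hc : ¬ IsPow q c) (hcv : O.valuation c = 1) :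
    Th q k c := by
  have hXO : ∀ x ∈ Xset q k c, x ∈ O := by
    rintro x ⟨g, h, hg, hx, h1⟩
    by_contra hxO
    have hx0 : x ≠ 0 := fun h => hxO (h ▸ O.zero_mem)
    have h2 : O.valuation x⁻¹ < 1 := by
      rw [val_lt_one_iff_inv (inv_ne_zero hx0), inv_inv]
      exact hxO
    have h3 : IsPow q (1 + x⁻¹) := hO _ h2
    have h4 : 1 + x⁻¹ ≠ 0 := by
      intro h5
      have h6 : O.valuation (1 + x⁻¹) = 1 := by
        rw [Valuation.map_add_eq_of_lt_left _ (by rwa [map_one]), map_one]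
      rw [h5, map_zero] at h6
      exact zero_ne_one h6
    have h5 : IsPow q (x * (1 + x⁻¹)) := ⟨h, by rw [← h1]; field_simp; ring⟩
    have h6 : IsPow q x := h5.of_mul h3 h4
    rw [hx] at h6
    exact hc (h6.of_mul ⟨g, rfl⟩ (pow_ne_zero _ hg))
  obtain ⟨s, hs⟩ : ∃ s, s ∉ O := by
    by_contra hcon
    push Not at hcon
    exact hOt (by
      ext x
      exact ⟨fun _ => ValuationSubring.mem_top x, fun _ => hcon x⟩)
  have hs0 : s ≠ 0 := fun h => hs (h ▸ O.zero_mem)
  set π : k := s⁻¹ with hπ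
  have hπ0 : π ≠ 0 := inv_ne_zero hs0
  have hπ1 : O.valuation π < 1 := by
    rw [val_lt_one_iff_inv hπ0, hπ, inv_inv]
    exact hs
  have hπp : 0 < O.valuation π := zero_lt_iff.mpr ((Valuation.ne_zero_iff _).mpr hπ0)
  have hc0 : c ≠ 0 := by
    intro h
    rw [h, map_zero] at hcv
    exact zero_ne_one hcv
  set a : k := c * π ^ q with ha
  have ha0 : a ≠ 0 := mul_ne_zero hc0 (pow_ne_zero _ hπ0)
  have hav : O.valuation a < 1 := by
    rw [ha, map_mul, hcv, one_mul, map_pow]
    exact pow_lt_one₀ zero_le hπ1 hq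
  have hap : 0 < O.valuation a := zero_lt_iff.mpr ((Valuation.ne_zero_iff _).mpr ha0)
  have hsmall : ∀ y, O.valuation y < O.valuation a → ∃ x x', x ∈ Xset q k c ∧ x' ∈ Xset q k c ∧
      y = x - x' := by
    intro y hy
    obtain ⟨h1, hh1⟩ := hO a hav
    have h2 : O.valuation (a + y) = O.valuation a := Valuation.map_add_eq_of_lt_left _ hy
    obtain ⟨h3, hh3⟩ := hO (a + y) (by rw [h2]; exact hav)
    obtain ⟨g, hg⟩ := hO (y / a) (by
      rw [map_div₀, div_lt_one₀ hap]
      exact hy)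
    have h4 : a + y = c * (π * g) ^ q := by
      rw [mul_pow, hg, ha]
      field_simp
    have hg0 : g ≠ 0 := by
      rintro rfl
      rw [mul_zero, zero_pow hq, mul_zero] at h4
      rw [h4, map_zero] at h2
      exact hap.ne h2
    refine ⟨a + y, a, ⟨π * g, h3, mul_ne_zero hπ0 hg0, h4, hh3.symm⟩, ⟨π, h1, hπ0, ha, hh1.symm⟩, ?_⟩
    ring
  set u : k := (a * π)⁻¹ with hu
  have hu0 : u ≠ 0 := inv_ne_zero (mul_ne_zero ha0 hπ0)
  have hOD : ∀ z ∈ O, z ∈ DD q k c u := by
    intro z hz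
    obtain ⟨x, x', hx, hx', h1⟩ := hsmall (a * π * z) (by
      rw [map_mul, map_mul, mul_assoc]
      refine mul_lt_of_lt_one_right hap ?_
      exact mul_lt_one_of_nonneg_of_lt_one_left zero_le hπ1
        ((ValuationSubring.valuation_le_one_iff _ _).mpr hz))
    refine ⟨x, x', ⟨hx, hx'⟩, ?_⟩
    rw [← h1, hu, ← mul_assoc, inv_mul_cancel₀ (mul_ne_zero ha0 hπ0), one_mul]
  have hDO : ∀ z ∈ DD q k c u, ∃ s ∈ O, z = u * s := by
    rintro z ⟨x, y, ⟨hx, hy⟩, rfl⟩
    exact ⟨_, O.toSubring.sub_mem (hXO x hx) (hXO y hy), rfl⟩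
  refine ⟨u, π / u, hu0, div_ne_zero hπ0 hu0, hOD 0 O.zero_mem, ?_, ?_, ?_, ?_, ?_, ?_⟩
  · rintro z ⟨x, y, ⟨hx, hy⟩, rfl⟩
    exact ⟨y, x, ⟨hy, hx⟩, by ring⟩
  · intro x y hxy
    have hx0 : x ≠ 0 := left_ne_zero_of_mul_eq_one hxy
    rcases O.mem_or_inv_mem x with h | h
    · exact Or.inl (hOD x h)
    · rw [eq_inv_of_mul_eq_one_right hxy]
      exact Or.inr (hOD _ h)
  · intro x hx y hy
    obtain ⟨s, hs, rfl⟩ := hDO x hx
    obtain ⟨t, ht, rfl⟩ := hDO y hy
    exact ⟨s + t, hOD _ (O.add_mem _ _ hs ht), by ring⟩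
  · intro x hx y hy
    obtain ⟨s, hs, rfl⟩ := hDO x hx
    obtain ⟨t, ht, rfl⟩ := hDO y hy
    exact ⟨s * t, hOD _ (O.mul_mem _ _ hs ht), by ring⟩
  · intro x hx
    obtain ⟨s, hs, rfl⟩ := hDO x hx
    apply hO
    rw [← mul_assoc, div_mul_cancel₀ _ hu0, map_mul]
    exact mul_lt_one_of_nonneg_of_lt_one_left zero_le hπ1
      ((ValuationSubring.valuation_le_one_iff _ _).mpr hs)
  · intro x hx h1
    obtain ⟨s, hs, rfl⟩ := hDO x hx
    rw [← mul_assoc, div_mul_cancel₀ _ hu0] at h1
    have h2 : O.valuation (π * s) < 1 := by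
      rw [map_mul]
      exact mul_lt_one_of_nonneg_of_lt_one_left zero_le hπ1
        ((ValuationSubring.valuation_le_one_iff _ _).mpr hs)
    rw [h1, map_one] at h2
    exact lt_irrefl _ h2

/-- If the sets of level `n` do not exhaust the field, there is a compatible valuation ring. -/
theorem exists_comp_of_levels {k : Type} [Field k] {q : ℕ} (hq : q ≠ 0) (p : ℕ) [Fact p.Prime]
    [CharP k p] (hqp : Nat.Coprime p q) {c d : k} (hc : ¬ IsPow q c) (hcd : c * d = 1)
    (h : ∀ n, ∃ y, y ∉ RL (Bset q k c d) n) : ∃ O : ValuationSubring k, Comp q O ∧ O ≠ ⊤ := by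
  let ik : FirstOrder.Ring.CompatibleRing k := FirstOrder.Ring.compatibleRingOfRing k
  choose y hy using h
  obtain ⟨k', i1, i2, v', w', hee, hEE, hw⟩ := comp_par k (α := Fin 2) (β := Unit) ![c, d]
    (fun n _ => y n)
  have hc' : ¬ IsPow q (v' 0) := by
    have h1 := (hEE (fun K _ v => ¬ IsPow q (v 0)) (UD.not (UD_isPow (UT.var _)))).mp (by
      simpa using hc)
    exact h1
  have hcd' : v' 0 * v' 1 = 1 := by
    have h1 := (hEE (fun K _ v => v 0 * v 1 = 1) (UD.eq ((UT.var _).mul (UT.var _)) UT.one)).mp (by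
      simpa using hcd)
    exact h1
  have hnot : ∀ n, w' () ∉ RL (Bset q k' (v' 0) (v' 1)) n := by
    intro n
    refine hw (fun K _ v x => x () ∉ RL (Bset q K (v 0) (v 1)) n) ?_ ⟨n, fun m hm => ?_⟩
    · apply UD.not
      exact (UDS_RL UDS_Bset n).mem (fun a => UT.var (Sum.inl a)) (UT.var (Sum.inr ()))
    · intro hcon
      exact hy m (RL_mono _ hm (by simpa using hcon))
  set O' : ValuationSubring k' := closureVal hc' hcd' with hO'
  have hO't : O' ≠ ⊤ := by
    intro h1
    have h2 : w' () ∈ O' := by rw [h1]; exact ValuationSubring.mem_top _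
    rw [hO', mem_closureVal] at h2
    obtain ⟨n, hn⟩ := exists_RL h2
    exact hnot n hn
  have hcO : v' 0 ∈ O' := Subring.subset_closure (Or.inl rfl)
  have hdO : v' 1 ∈ O' := Subring.subset_closure (Or.inr (Or.inl rfl))
  have hcv : O'.valuation (v' 0) = 1 := by
    have h1 := (ValuationSubring.valuation_le_one_iff _ _).mpr hcO
    have h2 := (ValuationSubring.valuation_le_one_iff _ _).mpr hdO
    refine le_antisymm h1 ?_
    by_contra hlt
    push Not at hlt
    have h3 := congrArg O'.valuation hcd'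
    rw [map_mul, map_one] at h3
    have h4 : O'.valuation (v' 0) * O'.valuation (v' 1) < 1 :=
      mul_lt_one_of_nonneg_of_lt_one_left zero_le hlt h2
    exact absurd h3 h4.ne
  have hTh' : Th q k' (v' 0) := th_of_comp hq comp_closureVal hO't hc' hcv
  have hTh : Th q k c := by
    have h1 := (hEE (fun K _ v => Th q K (v 0)) UD_Th).mpr hTh'
    simpa using h1
  obtain ⟨u, w, hN⟩ := hTh
  exact hN.exists_comp p hqp

/-- The case of value groups which are divisible by `q`. -/
theorem definable_of_div {F : Type} [Field F] [FirstOrder.Ring.CompatibleRing F] {q : ℕ}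
    (hq : q ≠ 0) (p : ℕ) [Fact p.Prime] [CharP F p] (hqp : Nat.Coprime p q)
    {V₁ : ValuationSubring F} (hV₁ : Comp q V₁)
    (hdiv : ∀ O : ValuationSubring F, Comp q O → O ≤ V₁ → ∀ a : F, a ≠ 0 →
      ∃ g : F, O.valuation a = O.valuation g ^ q)
    (hne : ∃ c : F, ¬ IsPow q c) :
    ∃ R : ValuationSubring F, R ≤ V₁ ∧ IsDefinable (R : Set F) := by
  classical
  -- a minimal compatible valuation ring
  obtain ⟨m, hmV, hmin⟩ := zorn_superset_nonempty
    {s : Set F | ∃ O : ValuationSubring F, Comp q O ∧ O ≤ V₁ ∧ (O : Set F) = s} (by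
      rintro C hC hchain ⟨s₀, hs₀⟩
      have hCO : ∀ s ∈ C, ∃ O : ValuationSubring F, Comp q O ∧ O ≤ V₁ ∧ (O : Set F) = s := hC
      let I : ValuationSubring F :=
        { carrier := {x | ∀ s ∈ C, x ∈ s}
          mul_mem' := by
            intro x y hx hy s hs
            obtain ⟨O, _, _, rfl⟩ := hCO s hs
            exact O.mul_mem _ _ (hx _ hs) (hy _ hs)
          one_mem' := by
            intro s hs
            obtain ⟨O, _, _, rfl⟩ := hCO s hs
            exact O.one_mem
          add_mem' := by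
            intro x y hx hy s hs
            obtain ⟨O, _, _, rfl⟩ := hCO s hs
            exact O.add_mem _ _ (hx _ hs) (hy _ hs)
          zero_mem' := by
            intro s hs
            obtain ⟨O, _, _, rfl⟩ := hCO s hs
            exact O.zero_mem
          neg_mem' := by
            intro x hx s hs
            obtain ⟨O, _, _, rfl⟩ := hCO s hs
            exact O.neg_mem _ (hx _ hs)
          mem_or_inv_mem' := by
            intro x
            by_contra hcon
            simp only [Set.mem_ofPred_eq, not_or, not_forall] at hcon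
            obtain ⟨⟨s, hs, hxs⟩, ⟨t, ht, hxt⟩⟩ := hcon
            obtain ⟨O, _, _, rfl⟩ := hCO s hs
            obtain ⟨O', _, _, rfl⟩ := hCO t ht
            rcases hchain.total hs ht with h | h
            · exact hxt (h ((O.mem_or_inv_mem x).resolve_left hxs))
            · exact hxs (h ((O'.mem_or_inv_mem x).resolve_right hxt)) }
      refine ⟨I, ⟨I, ?_, ?_, rfl⟩, fun s hs x hx => hx s hs⟩
      · rw [comp_iff]
        intro x hx s hs
        obtain ⟨O, hO, _, rfl⟩ := hCO s hs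
        exact comp_iff.mp hO x hx
      · obtain ⟨O, _, hO, rfl⟩ := hCO s₀ hs₀
        exact fun x hx => hO (hx _ hs₀)) V₁ ⟨V₁, hV₁, le_rfl, rfl⟩
  obtain ⟨Of, hOf, hOfV, rfl⟩ := hmin.prop
  have hminO : ∀ O : ValuationSubring F, Comp q O → O ≤ Of → Of ≤ O := by
    intro O hO hle
    exact hmin.le_of_le ⟨O, hO, hle.trans hOfV, rfl⟩ hle
  -- a unit which is not a power
  obtain ⟨c₀, hc₀⟩ := hne
  have hc₀0 : c₀ ≠ 0 := by
    rintro rfl
    exact hc₀ ⟨0, zero_pow hq⟩
  obtain ⟨g, hg⟩ := hdiv Of hOf hOfV c₀ hc₀0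
  have hg0 : g ≠ 0 := by
    rintro rfl
    rw [map_zero, zero_pow hq, Valuation.zero_iff] at hg
    exact hc₀0 hg
  set c : F := c₀ / g ^ q with hcdef
  have hc : ¬ IsPow q c := by
    intro h
    apply hc₀
    have h1 := h.mul ⟨g, rfl⟩
    rwa [hcdef, div_mul_cancel₀ _ (pow_ne_zero _ hg0)] at h1
  have hcv : Of.valuation c = 1 := by
    rw [hcdef, map_div₀, map_pow, hg, div_self]
    exact pow_ne_zero _ ((Valuation.ne_zero_iff _).mpr hg0)
  have hc0 : c ≠ 0 := by
    intro h
    rw [h, map_zero] at hcv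
    exact zero_ne_one hcv
  set d : F := c⁻¹ with hd
  have hcd : c * d = 1 := mul_inv_cancel₀ hc0
  have hcO : c ∈ Of := (ValuationSubring.valuation_le_one_iff _ _).mp hcv.le
  have hdv : Of.valuation d = 1 := by rw [hd, map_inv₀, hcv, inv_one]
  have hdO : d ∈ Of := (ValuationSubring.valuation_le_one_iff _ _).mp hdv.le
  have hEO : ∀ x ∈ Eq' q F, x ∈ Of := comp_iff.mp hOf
  have hBO : Bset q F c d ⊆ Of.toSubring := by
    rintro x (rfl | rfl | h | h | h)
    · exact hcO
    · exact hdO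
    · exact hEO _ h
    · have h1 : x = d * (c * x) := by rw [← mul_assoc, mul_comm d c, hcd, one_mul]
      rw [h1]
      exact Of.mul_mem _ _ hdO (hEO _ h)
    · have h1 : x = c * (d * x) := by rw [← mul_assoc, hcd, one_mul]
      rw [h1]
      exact Of.mul_mem _ _ hcO (hEO _ h)
  have hgen : ∀ x ∈ Of, x ∈ Subring.closure (Bset q F c d) := by
    have h1 : Of ≤ closureVal hc hcd := hminO _ comp_closureVal (by
      intro x hx
      exact (Subring.closure_le.mpr hBO) hx)
    exact fun x hx => h1 hx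
  -- the residue field
  let κ : Of →+* IsLocalRing.ResidueField Of := IsLocalRing.residue Of
  let c' : IsLocalRing.ResidueField Of := κ ⟨c, hcO⟩
  let d' : IsLocalRing.ResidueField Of := κ ⟨d, hdO⟩
  have hcd' : c' * d' = 1 := by
    show κ ⟨c, hcO⟩ * κ ⟨d, hdO⟩ = 1
    rw [← map_mul]
    have h1 : (⟨c, hcO⟩ : Of) * ⟨d, hdO⟩ = 1 := Subtype.ext hcd
    rw [h1, map_one]
  have hκ0 : ∀ x : Of, κ x = 0 ↔ Of.valuation (x : F) < 1 := by
    intro x
    show IsLocalRing.residue Of x = 0 ↔ _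
    rw [IsLocalRing.residue_eq_zero_iff, ValuationSubring.valuation_lt_one_iff]
  have hunit : ∀ x : Of, κ x ≠ 0 → Of.valuation (x : F) = 1 := by
    intro x hx
    refine le_antisymm ((ValuationSubring.valuation_le_one_iff _ _).mpr x.2) ?_
    by_contra hlt
    exact hx ((hκ0 x).mpr (not_le.mp hlt))
  -- lifting of powers
  have hlift : ∀ x : Of, κ x ≠ 0 → IsPow q (κ x) → IsPow q (x : F) := by
    rintro x hx ⟨y, hy⟩
    obtain ⟨y, rfl⟩ := IsLocalRing.residue_surjective y
    have hy0 : κ y ≠ 0 := by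
      intro h
      have h1 : κ y ^ q = κ x := hy
      rw [h, zero_pow hq] at h1
      exact hx h1.symm
    have hyv := hunit y hy0
    have hyne : (y : F) ≠ 0 := by
      intro h
      rw [h, map_zero] at hyv
      exact zero_ne_one hyv
    have h1 : Of.valuation ((x : F) - (y : F) ^ q) < 1 := by
      have h2 := (hκ0 (x - y ^ q)).mp (by
        rw [map_sub, map_pow, sub_eq_zero]
        exact hy.symm)
      exact h2
    have h2 : IsPow q (1 + ((x : F) - (y : F) ^ q) / (y : F) ^ q) := by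
      apply hOf
      rw [map_div₀, map_pow, hyv, one_pow, div_one]
      exact h1
    have h3 : (x : F) = (1 + ((x : F) - (y : F) ^ q) / (y : F) ^ q) * (y : F) ^ q := by
      have := pow_ne_zero q hyne
      field_simp
      ring
    rw [h3]
    exact h2.mul ⟨_, rfl⟩
  have hc' : ¬ IsPow q c' := fun h => hc (hlift ⟨c, hcO⟩ (left_ne_zero_of_mul_eq_one hcd') h)
  have hElift : ∀ x : Of, κ x ∈ Eq' q (IsLocalRing.ResidueField Of) → (x : F) ∈ Eq' q F := by
    rintro x ⟨hx0, hx⟩
    have hxv := hunit x hx0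
    have hxne : (x : F) ≠ 0 := by
      intro h
      rw [h, map_zero] at hxv
      exact zero_ne_one hxv
    refine ⟨hxne, fun ⟨z, hz⟩ => hx ?_⟩
    have hxi : (x : F)⁻¹ ∈ Of := by
      rw [← ValuationSubring.valuation_le_one_iff, map_inv₀, hxv, inv_one]
    have hzO : z ∈ Of := by
      rw [← ValuationSubring.valuation_le_one_iff]
      by_contra hcon
      push Not at hcon
      have h1 := congrArg Of.valuation hz
      have h2 : Of.valuation (1 + (x : F)⁻¹) ≤ 1 :=
        (ValuationSubring.valuation_le_one_iff _ _).mpr (Of.add_mem _ _ Of.one_mem hxi)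
      rw [← h1, map_pow] at h2
      exact absurd h2 (not_le.mpr (one_lt_pow₀ hcon hq))
    have h1 : (⟨(x : F)⁻¹, hxi⟩ : Of) * x = 1 := Subtype.ext (inv_mul_cancel₀ hxne)
    have h2 : (κ x)⁻¹ = κ ⟨(x : F)⁻¹, hxi⟩ := by
      have h3 := congrArg κ h1
      rw [map_mul, map_one] at h3
      exact (eq_inv_of_mul_eq_one_left h3).symm
    refine ⟨κ ⟨z, hzO⟩, ?_⟩
    rw [h2, ← map_pow, ← map_one κ, ← map_add]
    congr 1
    exact Subtype.ext hz
  have hRLO : ∀ n, ∀ x ∈ RL (Bset q F c d) n, x ∈ Of := fun n x hx => RL_sub hBO n hx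
  have hRLlift : ∀ n, ∀ y ∈ RL (Bset q (IsLocalRing.ResidueField Of) c' d') n,
      ∃ x : Of, (x : F) ∈ RL (Bset q F c d) n ∧ κ x = y := by
    intro n
    induction n with
    | zero =>
      rintro y (rfl | rfl | rfl | (rfl | rfl | h | h | h))
      · exact ⟨0, Or.inl rfl, map_zero _⟩
      · exact ⟨1, Or.inr (Or.inl rfl), map_one _⟩
      · exact ⟨-1, Or.inr (Or.inr (Or.inl rfl)), by rw [map_neg, map_one]⟩
      · exact ⟨⟨c, hcO⟩, Or.inr (Or.inr (Or.inr (Or.inl rfl))), rfl⟩
      · exact ⟨⟨d, hdO⟩, Or.inr (Or.inr (Or.inr (Or.inr (Or.inl rfl)))), rfl⟩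
      · obtain ⟨x, rfl⟩ := IsLocalRing.residue_surjective y
        exact ⟨x, Or.inr (Or.inr (Or.inr (Or.inr (Or.inr (Or.inl (hElift x h)))))), rfl⟩
      · obtain ⟨x, rfl⟩ := IsLocalRing.residue_surjective y
        refine ⟨x, Or.inr (Or.inr (Or.inr (Or.inr (Or.inr (Or.inr (Or.inl ?_)))))), rfl⟩
        refine hElift (⟨c, hcO⟩ * x) ?_
        rw [map_mul]
        exact h
      · obtain ⟨x, rfl⟩ := IsLocalRing.residue_surjective y
        refine ⟨x, Or.inr (Or.inr (Or.inr (Or.inr (Or.inr (Or.inr (Or.inr ?_)))))), rfl⟩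
        refine hElift (⟨d, hdO⟩ * x) ?_
        rw [map_mul]
        exact h
    | succ n ih =>
      rintro y ⟨a, b, ha, hb, hy⟩
      obtain ⟨a', ha1, ha2⟩ := ih a ha
      obtain ⟨b', hb1, hb2⟩ := ih b hb
      rcases hy with hy | hy
      · exact ⟨a' + b', ⟨a', b', ha1, hb1, Or.inl rfl⟩, by rw [map_add, ha2, hb2, hy]⟩
      · exact ⟨a' * b', ⟨a', b', ha1, hb1, Or.inr rfl⟩, by rw [map_mul, ha2, hb2, hy]⟩
  have hsm : ∀ x : F, Of.valuation x < 1 → x ∈ RL (Bset q F c d) 0 := by
    intro x hx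
    have hE : ∀ x : F, Of.valuation x < 1 → x ≠ 0 → ¬ IsPow q x → x ∈ Eq' q F := by
      intro x hx hx0 hxp
      refine ⟨hx0, fun h => hxp ?_⟩
      have h1 : IsPow q (1 + x) := hOf x hx
      have h2 : x = (1 + x) / (1 + x⁻¹) := by
        have h3 : 1 + x⁻¹ ≠ 0 := by
          intro h4
          have h5 : 1 + x = 0 := by
            have h6 : (1 + x⁻¹) * x = 0 := by rw [h4, zero_mul]
            rw [add_mul, one_mul, inv_mul_cancel₀ hx0] at h6
            linear_combination h6
          have h6 : Of.valuation (1 + x) = 1 := by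
            rw [Valuation.map_add_eq_of_lt_left _ (by rwa [map_one]), map_one]
          rw [h5, map_zero] at h6
          exact zero_ne_one h6
        rw [eq_div_iff h3]
        field_simp
        ring
      rw [h2]
      exact h1.div h
    by_cases hx0 : x = 0
    · exact Or.inl hx0
    refine Or.inr (Or.inr (Or.inr (Or.inr (Or.inr ?_))))
    by_cases hxp : IsPow q x
    · right
      right
      apply hE
      · rw [map_mul, hdv, one_mul]
        exact hx
      · exact mul_ne_zero (inv_ne_zero hc0) hx0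
      · intro h
        apply hc
        have h1 : IsPow q d := h.of_mul hxp hx0
        have h2 := h1.inv
        rwa [hd, inv_inv] at h2
    · exact Or.inl (hE x hx hx0 hxp)
  by_cases hex : ∃ n, ∀ y, y ∈ RL (Bset q (IsLocalRing.ResidueField Of) c' d') n
  · obtain ⟨n, hn⟩ := hex
    refine ⟨Of, hOfV, ?_⟩
    have h1 : (Of : Set F) = RL (Bset q F c d) (n + 1) := by
      apply Set.Subset.antisymm
      · intro y hy
        obtain ⟨x, hx1, hx2⟩ := hRLlift n _ (hn (κ ⟨y, hy⟩))
        refine ⟨x, y - x, hx1, RL_mono _ (Nat.zero_le n) (hsm _ ?_), Or.inl (by ring)⟩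
        have h2 := (hκ0 (⟨y, hy⟩ - x)).mp (by rw [map_sub, hx2, sub_self])
        exact h2
      · exact fun x hx => hRLO _ x hx
    rw [h1]
    have h2 := isDefinable_of_UDS (UDS_RL (UDS_Bset (q := q)) (n + 1)) (K := F) ![c, d]
    simpa using h2
  · exfalso
    push Not at hex
    have hchk := charP_residue (W := Of) p
    obtain ⟨Ok, hOk, hOkt⟩ := exists_comp_of_levels hq p hqp hc' hcd' hex
    apply hOkt
    let O' : ValuationSubring F :=
      { carrier := {x | ∃ h : x ∈ Of, κ ⟨x, h⟩ ∈ Ok}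
        mul_mem' := by
          rintro x y ⟨hx, hx'⟩ ⟨hy, hy'⟩
          refine ⟨Of.mul_mem _ _ hx hy, ?_⟩
          have h1 : (⟨x * y, Of.mul_mem _ _ hx hy⟩ : Of) = ⟨x, hx⟩ * ⟨y, hy⟩ := rfl
          rw [h1, map_mul]
          exact Ok.mul_mem _ _ hx' hy'
        one_mem' := ⟨Of.one_mem, by
          have h1 : (⟨1, Of.one_mem⟩ : Of) = 1 := rfl
          rw [h1, map_one]
          exact Ok.one_mem⟩
        add_mem' := by
          rintro x y ⟨hx, hx'⟩ ⟨hy, hy'⟩
          refine ⟨Of.add_mem _ _ hx hy, ?_⟩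
          have h1 : (⟨x + y, Of.add_mem _ _ hx hy⟩ : Of) = ⟨x, hx⟩ + ⟨y, hy⟩ := rfl
          rw [h1, map_add]
          exact Ok.add_mem _ _ hx' hy'
        zero_mem' := ⟨Of.zero_mem, by
          have h1 : (⟨0, Of.zero_mem⟩ : Of) = 0 := rfl
          rw [h1, map_zero]
          exact Ok.zero_mem⟩
        neg_mem' := by
          rintro x ⟨hx, hx'⟩
          refine ⟨Of.neg_mem _ hx, ?_⟩
          have h1 : (⟨-x, Of.neg_mem _ hx⟩ : Of) = -⟨x, hx⟩ := rfl
          rw [h1, map_neg]
          exact Ok.neg_mem _ hx'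
        mem_or_inv_mem' := by
          intro x
          by_cases hx : x ∈ Of
          · by_cases hxi : x⁻¹ ∈ Of
            · by_cases hx0 : x = 0
              · left
                subst hx0
                refine ⟨hx, ?_⟩
                have h1 : (⟨0, hx⟩ : Of) = 0 := rfl
                rw [h1, map_zero]
                exact Ok.zero_mem
              have h1 : (⟨x⁻¹, hxi⟩ : Of) * ⟨x, hx⟩ = 1 := Subtype.ext (inv_mul_cancel₀ hx0)
              have h2 : κ ⟨x⁻¹, hxi⟩ = (κ ⟨x, hx⟩)⁻¹ := by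
                have h3 := congrArg κ h1
                rw [map_mul, map_one] at h3
                exact eq_inv_of_mul_eq_one_left h3
              rcases Ok.mem_or_inv_mem (κ ⟨x, hx⟩) with h3 | h3
              · exact Or.inl ⟨hx, h3⟩
              · exact Or.inr ⟨hxi, by rw [h2]; exact h3⟩
            · left
              refine ⟨hx, ?_⟩
              have h1 : κ ⟨x, hx⟩ = 0 := by
                rw [hκ0]
                by_cases hx0 : x = 0
                · show Of.valuation x < 1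
                  rw [hx0, map_zero]
                  exact zero_lt_one
                · exact (val_lt_one_iff_inv hx0).mpr hxi
              rw [h1]
              exact Ok.zero_mem
          · right
            have hxi : x⁻¹ ∈ Of := (Of.mem_or_inv_mem x).resolve_left hx
            have hx0 : x ≠ 0 := fun h => hx (h ▸ Of.zero_mem)
            refine ⟨hxi, ?_⟩
            have h1 : κ ⟨x⁻¹, hxi⟩ = 0 := by
              rw [hκ0]
              refine (val_lt_one_iff_inv (inv_ne_zero hx0)).mpr ?_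
              rwa [inv_inv]
            rw [h1]
            exact Ok.zero_mem }
    have hO'mem : ∀ x, x ∈ O' ↔ ∃ h : x ∈ Of, κ ⟨x, h⟩ ∈ Ok := fun x => Iff.rfl
    have hO'comp : Comp q O' := by
      intro x hx
      by_cases hx0 : x = 0
      · rw [hx0, add_zero]
        exact isPow_one
      rw [val_lt_one_iff_inv hx0, hO'mem] at hx
      have hxO' : x ∈ O' := by
        rcases O'.mem_or_inv_mem x with h | h
        · exact h
        · exact absurd h hx
      obtain ⟨hxO, hxk⟩ := (hO'mem x).mp hxO'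
      by_cases hxi : x⁻¹ ∈ Of
      · have h1 : (⟨x⁻¹, hxi⟩ : Of) * ⟨x, hxO⟩ = 1 := Subtype.ext (inv_mul_cancel₀ hx0)
        have h2 : κ ⟨x⁻¹, hxi⟩ = (κ ⟨x, hxO⟩)⁻¹ := by
          have h3 := congrArg κ h1
          rw [map_mul, map_one] at h3
          exact eq_inv_of_mul_eq_one_left h3
        have h3 : κ ⟨x, hxO⟩ ≠ 0 := by
          have h4 := congrArg κ h1
          rw [map_mul, map_one] at h4
          exact right_ne_zero_of_mul_eq_one h4
        have h4 : Ok.valuation (κ ⟨x, hxO⟩) < 1 := by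
          rw [val_lt_one_iff_inv h3]
          intro h5
          exact hx ⟨hxi, by rw [h2]; exact h5⟩
        have h5 : IsPow q (1 + κ ⟨x, hxO⟩) := hOk _ h4
        have h6 : κ (1 + ⟨x, hxO⟩) = 1 + κ ⟨x, hxO⟩ := by rw [map_add, map_one]
        have h7 : κ (1 + ⟨x, hxO⟩) ≠ 0 := by
          rw [h6]
          intro h8
          have h9 : Ok.valuation (1 + κ ⟨x, hxO⟩) = 1 := by
            rw [Valuation.map_add_eq_of_lt_left _ (by rwa [map_one]), map_one]
          rw [h8, map_zero] at h9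
          exact zero_ne_one h9
        exact hlift (1 + ⟨x, hxO⟩) h7 (by rw [h6]; exact h5)
      · apply hOf
        exact (val_lt_one_iff_inv hx0).mpr hxi
    have hle : Of ≤ O' := hminO O' hO'comp fun x hx => ((hO'mem x).mp hx).1
    ext y
    refine ⟨fun _ => ValuationSubring.mem_top y, fun _ => ?_⟩
    obtain ⟨x, rfl⟩ := IsLocalRing.residue_surjective y
    obtain ⟨h1, h2⟩ := (hO'mem _).mp (hle x.2)
    exact h2

/-- Fields of characteristic `p` with a valuation for which the group of `q`-th powers is open have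
a definable valuation ring. -/
theorem exists_definable {F : Type} [Field F] [FirstOrder.Ring.CompatibleRing F] {q : ℕ}
    (hq : 2 ≤ q) (p : ℕ) [Fact p.Prime] [CharP F p] (hqp : Nat.Coprime p q)
    {V : ValuationSubring F} {b : F} (hb0 : b ≠ 0) (hb : V.valuation b < 1)
    (h : ∀ x, V.valuation x ≤ V.valuation b → IsPow q (1 + x)) (hne : ∃ c : F, ¬ IsPow q c) :
    ∃ R U : ValuationSubring F, R ≠ ⊤ ∧ IsDefinable (R : Set F) ∧ U ≠ ⊤ ∧ R ≤ U ∧ V ≤ U := by
  have hV₁ := comp_coarse p hqp hb0 hb h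
  have hV₁t := coarse_ne_top (W := V) (hb := hb) hb0
  have hVV : V ≤ coarse V b hb := le_coarse
  by_cases hcase : ∀ O : ValuationSubring F, Comp q O → O ≤ coarse V b hb → ∀ a : F, a ≠ 0 →
      ∃ g : F, O.valuation a = O.valuation g ^ q
  · obtain ⟨R, hR1, hR2⟩ := definable_of_div (by omega) p hqp hV₁ hcase hne
    refine ⟨R, coarse V b hb, ?_, hR2, hV₁t, hR1, hVV⟩
    rintro rfl
    exact hV₁t (top_le_iff.mp hR1)
  · push Not at hcase
    obtain ⟨O, hO, hOV, a, ha0, ha⟩ := hcase
    obtain ⟨R, hR1, hR2, hR3⟩ := definable_of_value hq hO ha0 ha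
    -- `R` and `V₁` are comparable
    by_cases h1 : coarse V b hb ≤ R
    · exact ⟨R, R, hR1, hR3, hR1, le_rfl, hVV.trans h1⟩
    · refine ⟨R, coarse V b hb, hR1, hR3, hV₁t, ?_, hVV⟩
      obtain ⟨x, hxV, hxR⟩ : ∃ x ∈ coarse V b hb, x ∉ R := by
        by_contra hcon
        push Not at hcon
        exact h1 hcon
      have hx0 : x ≠ 0 := fun h => hxR (h ▸ R.zero_mem)
      intro y hy
      by_cases hy0 : y = 0
      · rw [hy0]
        exact (coarse V b hb).zero_mem
      rcases O.mem_or_inv_mem (y / x) with h2 | h2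
      · have h3 : y = (y / x) * x := by field_simp
        rw [h3]
        exact (coarse V b hb).mul_mem _ _ (hOV h2) hxV
      · exfalso
        apply hxR
        have h3 : x = (y / x)⁻¹ * y := by field_simp
        rw [h3]
        exact R.mul_mem _ _ (hR2 h2) hy

end Pool.Agent.Q175.NFC
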