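import Pool.Agent.Q175.NFC.Tow
import Pool.Agent.TH686.NF.Unram

/-!
# Norm groups which are not dense
-/

set_option autoImplicit false

namespace Pool.Agent.Q175.NFC

open Polynomial IsLocalRing Module

/-- The norm group of some finite separable extension is not dense for the valuation. -/
def NormGap {M : Type} [Field M] (W : ValuationSubring M) : Prop :=
  ∃ (L : Type) (_ : Field L) (_ : Algebra M L), FiniteDimensional M L ∧
    Algebra.IsSeparable M L ∧ ∃ c e : M, e ≠ 0 ∧
      ∀ x : L, W.valuation e ≤ W.valuation (Algebra.norm M x - c)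

section

variable {M : Type} [Field M] (W : ValuationSubring M)

/-- Norms from unramified extensions. -/
theorem res_norm (g : W[X]) (hg : g.Monic) (hirr : Irreducible (g.map (residue W)))
    (G : M[X]) (hG : G = g.map (algebraMap W M)) (z : AdjoinRoot G) (hz : z ≠ 0) :
    ∃ (c : M) (u : W), c ≠ 0 ∧ IsUnit u ∧ Algebra.norm M z = c ^ g.natDegree * u ∧
      ∃ y : AdjoinRoot (g.map (residue W)), Algebra.norm (ResidueField W) y = residue W u := by
  classical
  have hGm : G.Monic := by rw [hG]; exact hg.map _
  have hGd : G.natDegree = g.natDegree := by rw [hG]; exact hg.natDegree_map _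
  obtain ⟨Y0, rfl⟩ := AdjoinRoot.mk_surjective z
  set Y := Y0 %ₘ G with hY
  have hmk : AdjoinRoot.mk G Y0 = AdjoinRoot.mk G Y := by
    rw [AdjoinRoot.mk_eq_mk, hY, modByMonic_eq_sub_mul_div, sub_sub_cancel]
    exact dvd_mul_right _ _
  rw [hmk] at hz ⊢
  have hY0 : Y ≠ 0 := by
    intro h
    rw [h, map_zero] at hz
    exact hz rfl
  have hYd : Y.degree < G.degree := degree_modByMonic_lt _ hGm
  obtain ⟨i₀, hi₀, hmax⟩ := Y.support.exists_max_image (fun i => W.valuation (Y.coeff i))
    (nonempty_support_iff.2 hY0)
  set c := Y.coeff i₀ with hc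
  have hc0 : c ≠ 0 := mem_support_iff.1 hi₀
  have hvc : W.valuation c ≠ 0 := (Valuation.ne_zero_iff _).2 hc0
  have hle : ∀ i, W.valuation (Y.coeff i) ≤ W.valuation c := by
    intro i
    by_cases h : Y.coeff i = 0
    · rw [h, map_zero]
      exact zero_le
    · exact hmax i (mem_support_iff.2 h)
  obtain ⟨Y2, hY2⟩ : ∃ Y2 : W[X], Y2.map (algebraMap W M) = C c⁻¹ * Y := by
    have h : C c⁻¹ * Y ∈ lifts (algebraMap W M) := by
      rw [lifts_iff_coeff_lifts]
      intro i
      rw [coeff_C_mul]
      refine ⟨⟨c⁻¹ * Y.coeff i, ?_⟩, rfl⟩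
      rw [← ValuationSubring.valuation_le_one_iff]
      rw [map_mul, map_inv₀, mul_comm, ← div_eq_mul_inv]
      exact div_le_one_of_le₀ (hle i) zero_le
    exact (mem_lifts _).1 h
  have hinj : Function.Injective (algebraMap W M) := Subtype.val_injective
  have hcoeff : Y2.coeff i₀ = 1 := by
    apply hinj
    rw [← coeff_map, hY2, coeff_C_mul, map_one]
    exact inv_mul_cancel₀ hc0
  have hY2d : Y2.degree < g.degree := by
    rw [← degree_map_eq_of_injective hinj Y2, hY2, degree_C_mul (inv_ne_zero hc0)]
    refine hYd.trans_eq ?_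
    rw [hG]
    exact hg.degree_map _
  have hbar0 : Y2.map (residue W) ≠ 0 := by
    intro h
    have h1 : (Y2.map (residue W)).coeff i₀ = 0 := by rw [h, coeff_zero]
    rw [coeff_map, hcoeff, map_one] at h1
    exact one_ne_zero h1
  have hbard : (Y2.map (residue W)).degree < (g.map (residue W)).degree := by
    rw [hg.degree_map]
    exact (degree_map_le).trans_lt hY2d
  have hgbm : (g.map (residue W)).Monic := hg.map _
  have : Fact (Irreducible (g.map (residue W))) := ⟨hirr⟩
  have : Module.Finite (ResidueField W) (AdjoinRoot (g.map (residue W))) :=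
    hgbm.finite_adjoinRoot
  have hnk : Algebra.norm (ResidueField W)
      (AdjoinRoot.mk (g.map (residue W)) (Y2.map (residue W))) ≠ 0 :=
    Algebra.norm_ne_zero_iff.2 (AdjoinRoot.mk_ne_zero_of_degree_lt hgbm hbar0 hbard)
  rw [TH686.NF.norm_map (residue W) hg] at hnk
  have hunit : IsUnit (Algebra.norm W (AdjoinRoot.mk g Y2)) := by
    by_contra h
    exact hnk ((residue_eq_zero_iff _).2 ((mem_maximalIdeal _).2 h))
  refine ⟨c, Algebra.norm W (AdjoinRoot.mk g Y2), hc0, hunit, ?_,
    AdjoinRoot.mk (g.map (residue W)) (Y2.map (residue W)), TH686.NF.norm_map (residue W) hg Y2⟩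
  have hv1 : Algebra.norm M (AdjoinRoot.mk G (C c⁻¹ * Y)) =
      (Algebra.norm W (AdjoinRoot.mk g Y2) : W) := by
    subst hG
    rw [← hY2, TH686.NF.norm_map (algebraMap W M) hg]
    rfl
  have hfac : AdjoinRoot.mk G Y = algebraMap M (AdjoinRoot G) c * AdjoinRoot.mk G (C c⁻¹ * Y) := by
    rw [AdjoinRoot.algebraMap_eq, ← AdjoinRoot.mk_C, ← map_mul, ← mul_assoc, ← C_mul,
      mul_inv_cancel₀ hc0, C_1, one_mul]
  rw [hfac, map_mul, hv1, Algebra.norm_algebraMap_of_basis (AdjoinRoot.powerBasisAux' hGm),
    Fintype.card_fin, hGd]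

/-- If an element is not of the form `c ^ n * u` with `u` a unit whose residue is a norm from an
extension of degree `n` of the residue field, then norm groups are not dense. -/
theorem gap_unram (F : Type) [Field F] [Algebra (ResidueField W) F]
    [FiniteDimensional (ResidueField W) F] [Algebra.IsSeparable (ResidueField W) F] {a : M}
    (ha : a ≠ 0) (h : ∀ (c : M) (u : W) (y : F), c ≠ 0 → IsUnit u →
      a = c ^ Module.finrank (ResidueField W) F * u →
      Algebra.norm (ResidueField W) y ≠ residue W u) : NormGap W := by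
  classical
  obtain ⟨θ, hθ⟩ := Field.exists_primitive_element (ResidueField W) F
  have hint : IsIntegral (ResidueField W) θ := Algebra.IsIntegral.isIntegral θ
  set gb := minpoly (ResidueField W) θ with hgb
  have hgbm : gb.Monic := minpoly.monic hint
  have hgbi : Irreducible gb := minpoly.irreducible hint
  have hgbs : gb.Separable := Algebra.IsSeparable.isSeparable (ResidueField W) θ
  have hdeg : gb.natDegree = Module.finrank (ResidueField W) F := by
    rw [hgb, ← IntermediateField.adjoin.finrank hint, hθ, IntermediateField.finrank_top']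
  have hl : gb ∈ lifts (residue W) := by
    rw [lifts_iff_coeff_lifts]
    intro n
    exact residue_surjective _
  obtain ⟨g, hg1, hg2, hg3⟩ := lifts_and_natDegree_eq_and_monic hl hgbm
  have hirr : Irreducible (g.map (residue W)) := by rw [hg1]; exact hgbi
  have hGi : Irreducible (g.map (algebraMap W M)) := by
    have h1 : Irreducible g := Polynomial.Monic.irreducible_of_irreducible_map (residue W) g hg3 hirr
    exact hg3.irreducible_iff_irreducible_map_fraction_map.1 h1
  have hGs : (g.map (algebraMap W M)).Separable := by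
    rw [separable_iff_derivative_ne_zero hGi]
    have hs : (g.map (residue W)).Separable := by rw [hg1]; exact hgbs
    rw [separable_iff_derivative_ne_zero hirr] at hs
    intro h
    apply hs
    rw [derivative_map] at h ⊢
    have hinj : Function.Injective (algebraMap W M) := Subtype.val_injective
    rw [(Polynomial.map_eq_zero_iff hinj).1 h, Polynomial.map_zero]
  have hfac : Fact (Irreducible (g.map (algebraMap W M))) := ⟨hGi⟩
  refine ⟨AdjoinRoot (g.map (algebraMap W M)), inferInstance, inferInstance,
    (hg3.map _).finite_adjoinRoot, TH686.NF.isSeparable_adjoinRoot hGi hGs, a, a, ha, ?_⟩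
  intro z
  by_contra hcon
  push Not at hcon
  by_cases hz : z = 0
  · rw [hz] at hcon
    have hfin : FiniteDimensional M (AdjoinRoot (g.map (algebraMap W M))) :=
      (hg3.map _).finite_adjoinRoot
    rw [Algebra.norm_zero, zero_sub, Valuation.map_neg] at hcon
    exact lt_irrefl _ hcon
  obtain ⟨c, u, hc0, hu, hcu, y, hy⟩ := res_norm W g hg3 hirr _ rfl z hz
  have hap : 0 < W.valuation a := zero_lt_iff.mpr ((Valuation.ne_zero_iff _).mpr ha)
  set w : M := (Algebra.norm M z - a) / a with hw
  have hw1 : W.valuation w < 1 := by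
    rw [hw, map_div₀, div_lt_one₀ hap]
    exact hcon
  have hwW : w ∈ W := (ValuationSubring.valuation_le_one_iff _ _).mp hw1.le
  have hwm : (⟨w, hwW⟩ : W) ∈ maximalIdeal W := by
    rw [ValuationSubring.valuation_lt_one_iff]
    exact hw1
  have hN : Algebra.norm M z = a * (1 + w) := by
    rw [hw]
    field_simp
    ring
  have h1w : IsUnit (1 + ⟨w, hwW⟩ : W) := by
    by_contra h1
    have h2 := (mem_maximalIdeal (R := W) _).mpr h1
    have h3 : (1 : W) ∈ maximalIdeal W := by
      have h4 := (maximalIdeal W).sub_mem h2 hwm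
      rwa [add_sub_cancel_right] at h4
    exact (Ideal.ne_top_iff_one _).mp (maximalIdeal.isMaximal W).ne_top h3
  obtain ⟨t, ht⟩ := h1w.exists_right_inv
  have htu : IsUnit t := IsUnit.of_mul_eq_one _ (by rw [mul_comm]; exact ht)
  have hrt : residue W t = 1 := by
    have h1 := congrArg (residue W) ht
    rw [map_mul, map_add, map_one, (residue_eq_zero_iff (⟨w, hwW⟩ : W)).mpr hwm, add_zero,
      one_mul] at h1
    exact h1
  -- the isomorphism with the given extension
  let e : AdjoinRoot (g.map (residue W)) →ₐ[ResidueField W] F :=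
    AdjoinRoot.liftAlgHom _ (Algebra.ofId _ _) θ (by
      rw [hg1]
      exact minpoly.aeval (ResidueField W) θ)
  have hfb : Fact (Irreducible (g.map (residue W))) := ⟨hirr⟩
  have hbij : Function.Bijective e := by
    refine ⟨e.toRingHom.injective, ?_⟩
    rw [← AlgHom.range_eq_top]
    have h1 : (Algebra.adjoin (ResidueField W) {θ}) ≤ e.range := by
      rw [Algebra.adjoin_le_iff, Set.singleton_subset_iff]
      exact ⟨AdjoinRoot.root _, AdjoinRoot.liftAlgHom_root _ _ _ _⟩
    have h2 : Algebra.adjoin (ResidueField W) {θ} = ⊤ := by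
      rw [← IntermediateField.adjoin_simple_toSubalgebra_of_isAlgebraic (Algebra.IsAlgebraic.isAlgebraic θ), hθ]
      rfl
    rw [h2] at h1
    exact top_le_iff.mp h1
  let e' : AdjoinRoot (g.map (residue W)) ≃ₐ[ResidueField W] F := AlgEquiv.ofBijective e hbij
  refine h c (u * t) (e' y) hc0 (hu.mul htu) ?_ ?_
  · have ht' : (1 + w) * (t : M) = 1 := congrArg Subtype.val ht
    have h1 : a = Algebra.norm M z * t := by
      rw [hN, mul_assoc, ht', mul_one]
    have h2 : ((u * t : W) : M) = (u : M) * t := rfl
    rw [h1, hcu, ← hdeg, hg2, h2]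
    ring
  · rw [Algebra.norm_eq_of_algEquiv, hy, map_mul, hrt, mul_one]

/-- Value groups which are not `n`-divisible. -/
theorem gap_value (F : Type) [Field F] [Algebra (ResidueField W) F]
    [FiniteDimensional (ResidueField W) F] [Algebra.IsSeparable (ResidueField W) F] {a : M}
    (h : ∀ c : M, W.valuation c ^ Module.finrank (ResidueField W) F ≠ W.valuation a) :
    NormGap W := by
  have ha : a ≠ 0 := by
    rintro rfl
    apply h 0
    rw [map_zero, zero_pow]
    exact Module.finrank_pos.ne'
  refine gap_unram W F ha ?_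
  intro c u y hc hu hau
  exfalso
  apply h c
  rw [hau, map_mul, map_pow, (ValuationSubring.valuation_eq_one_iff W u).mp hu, mul_one]

/-- Units whose residue is not a norm. -/
theorem gap_residue (F : Type) [Field F] [Algebra (ResidueField W) F]
    [FiniteDimensional (ResidueField W) F] [Algebra.IsSeparable (ResidueField W) F]
    {r : ResidueField W} (hr : r ≠ 0) (h : ∀ y : F, Algebra.norm (ResidueField W) y ≠ r) :
    NormGap W := by
  obtain ⟨a, rfl⟩ := residue_surjective r
  have hau : IsUnit a := by
    by_contra h1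
    exact hr ((residue_eq_zero_iff _).2 ((mem_maximalIdeal _).2 h1))
  have ha0 : (a : M) ≠ 0 := by
    intro h1
    have h2 : a = 0 := Subtype.ext h1
    rw [h2, map_zero] at hr
    exact hr rfl
  refine gap_unram W F ha0 ?_
  intro c u y hc hu hcu hy
  have hn : 0 < Module.finrank (ResidueField W) F := Module.finrank_pos
  have hcv : W.valuation c = 1 := by
    have h1 := congrArg W.valuation hcu
    rw [map_mul, map_pow, (ValuationSubring.valuation_eq_one_iff W u).mp hu, mul_one,
      (ValuationSubring.valuation_eq_one_iff W a).mp hau] at h1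
    rcases lt_trichotomy (W.valuation c) 1 with h2 | h2 | h2
    · exact absurd h1.symm (pow_lt_one₀ zero_le h2 hn.ne').ne
    · exact h2
    · exact absurd h1 (one_lt_pow₀ h2 hn.ne').ne
  have hcW : c ∈ W := (ValuationSubring.valuation_le_one_iff _ _).mp hcv.le
  have h1 : a = (⟨c, hcW⟩ : W) ^ Module.finrank (ResidueField W) F * u := Subtype.ext hcu
  apply h (algebraMap _ _ (residue W ⟨c, hcW⟩) * y)
  rw [map_mul, Algebra.norm_algebraMap, hy, h1, map_mul, map_pow]

end

end Pool.Agent.Q175.NFC
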