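import Pool.Agent.Q175.NFC.Conj

/-!
# Henselian valuation rings, and roots
-/

set_option autoImplicit false

open Polynomial

namespace Pool.Agent.Q175.NFC

open Pool.Agent.W882.Nip3 Pool.Agent.Q175.NF

/-- Extension of valuation rings. -/
theorem exists_ext {F E : Type} [Field F] [Field E] [Algebra F E] (W : ValuationSubring F) :
    ∃ W' : ValuationSubring E, W'.comap (algebraMap F E) = W := by
  let A : Subring E := W.toSubring.map (algebraMap F E)
  let φ : W →+* A := ((algebraMap F E).restrict W.toSubring A) fun x hx => ⟨x, hx, rfl⟩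
  have hφs : Function.Surjective φ := by
    rintro ⟨_, x, hx, rfl⟩
    exact ⟨⟨x, hx⟩, rfl⟩
  have hφi : Function.Injective φ := by
    intro x y h
    have h1 : algebraMap F E x = algebraMap F E y := congrArg (fun z : A => (z : E)) h
    exact Subtype.ext ((algebraMap F E).injective h1)
  let I : Ideal A := (IsLocalRing.maximalIdeal W).map φ
  have hI : I ≠ ⊤ := by
    intro h
    have h1 : (1 : A) ∈ I := by rw [h]; trivial
    obtain ⟨x, hx, hx1⟩ := (Ideal.mem_map_iff_of_surjective φ hφs).mp h1
    have h2 : x = 1 := hφi (by rw [hx1, map_one])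
    rw [h2] at hx
    exact (Ideal.ne_top_iff_one _).mp (IsLocalRing.maximalIdeal.isMaximal W).ne_top hx
  obtain ⟨B, hB1, hB2⟩ := Ideal.image_subset_nonunits_valuationSubring I hI
  refine ⟨B, ?_⟩
  ext x
  rw [ValuationSubring.mem_comap]
  constructor
  · intro hx
    by_contra hxW
    have hx0 : x ≠ 0 := fun h => hxW (h ▸ W.zero_mem)
    have h1 : x⁻¹ ∈ W := (W.mem_or_inv_mem x).resolve_left hxW
    have h2 : (⟨x⁻¹, h1⟩ : W) ∈ IsLocalRing.maximalIdeal W := by
      rw [ValuationSubring.valuation_lt_one_iff]
      rw [val_lt_one_iff_inv (inv_ne_zero hx0), inv_inv]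
      exact hxW
    have h3 : algebraMap F E x⁻¹ ∈ B.nonunits := hB2 ⟨φ ⟨x⁻¹, h1⟩, Ideal.mem_map_of_mem φ h2, rfl⟩
    rw [ValuationSubring.mem_nonunits_iff, val_lt_one_iff_inv (by
      rw [Ne, map_eq_zero_iff _ (algebraMap F E).injective]
      exact inv_ne_zero hx0), map_inv₀, inv_inv] at h3
    exact h3 hx
  · intro hx
    exact hB1 ⟨x, hx, rfl⟩

theorem mem_of_monic_root {E : Type} [Field E] (A : ValuationSubring E) {f : A[X]} (hf : f.Monic)
    {x : E} (hx : aeval x f = 0) : x ∈ A := by
  obtain ⟨y, hy⟩ := IsIntegrallyClosed.isIntegral_iff.mp (⟨f, hf, hx⟩ : IsIntegral A x)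
  rw [← hy]
  exact y.2

/-- Simple roots are unique in their residue class. -/
theorem simple_root_unique {E : Type} [Field E] (A : ValuationSubring E) {f : A[X]} {a x y : A}
    (hx : f.eval x = 0) (hy : f.eval y = 0) (hxa : x - a ∈ IsLocalRing.maximalIdeal A)
    (hya : y - a ∈ IsLocalRing.maximalIdeal A) (ha : IsUnit (f.derivative.eval a)) : x = y := by
  obtain ⟨k, hk⟩ := binomExpansion f x (y - x)
  rw [add_sub_cancel, hx, hy, zero_add, pow_two] at hk
  have h1 : (f.derivative.eval x + k * (y - x)) * (y - x) = 0 := by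
    rw [hk]
    ring
  have hyx : y - x ∈ IsLocalRing.maximalIdeal A := by
    have h2 : y - x = (y - a) - (x - a) := by ring
    rw [h2]
    exact Ideal.sub_mem _ hya hxa
  have h3 : f.derivative.eval x - f.derivative.eval a ∈ IsLocalRing.maximalIdeal A := by
    obtain ⟨c, hc⟩ := sub_dvd_eval_sub x a f.derivative
    rw [hc]
    exact Ideal.mul_mem_right _ _ hxa
  have h4 : IsUnit (f.derivative.eval x + k * (y - x)) := by
    by_contra hcon
    have h5 : f.derivative.eval x + k * (y - x) ∈ IsLocalRing.maximalIdeal A :=
      (IsLocalRing.mem_maximalIdeal _).mpr hcon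
    have h6 : f.derivative.eval a ∈ IsLocalRing.maximalIdeal A := by
      have h7 : f.derivative.eval a = (f.derivative.eval x + k * (y - x)) - k * (y - x) -
        (f.derivative.eval x - f.derivative.eval a) := by ring
      rw [h7]
      exact Ideal.sub_mem _ (Ideal.sub_mem _ h5 (Ideal.mul_mem_left _ _ hyx)) h3
    exact (IsLocalRing.mem_maximalIdeal _).mp h6 ha
  have h5 : y - x = 0 := (h4.mul_right_eq_zero).mp h1
  exact (sub_eq_zero.mp h5).symm

/-- A valuation ring with only one extension to the separable closure is henselian. -/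
theorem henselian_of_stable {K : Type} [Field K] {Om : Type} [Field Om] [Algebra K Om]
    [IsGalois K Om] [IsSepClosed Om] {V : ValuationSubring K} {W : ValuationSubring Om}
    (hW : W.comap (algebraMap K Om) = V) (hst : ∀ (σ : Om ≃ₐ[K] Om) x, σ x ∈ W ↔ x ∈ W) :
    HenselianLocalRing V where
  is_henselian := by
    intro f hf a hfa hfa'
    -- the algebraic closure
    obtain ⟨W', hW'⟩ := exists_ext (E := AlgebraicClosure Om) W
    let φ : V →+* W := ((algebraMap K Om).restrict V W) fun x hx => by
      rw [← hW] at hx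
      exact hx
    let ψ : W →+* W' := ((algebraMap Om (AlgebraicClosure Om)).restrict W W') fun x hx => by
      rw [← hW'] at hx
      exact hx
    have hφm : ∀ x : V, x ∈ IsLocalRing.maximalIdeal V → φ x ∈ IsLocalRing.maximalIdeal W := by
      intro x hx
      rw [ValuationSubring.valuation_lt_one_iff] at hx ⊢
      exact (ext_lt_one hW _).mpr hx
    have hψm : ∀ x : W, ψ x ∈ IsLocalRing.maximalIdeal W' ↔ x ∈ IsLocalRing.maximalIdeal W := by
      intro x
      rw [ValuationSubring.valuation_lt_one_iff, ValuationSubring.valuation_lt_one_iff]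
      exact ext_lt_one hW' _
    let f1 : W[X] := f.map φ
    let f2 : W'[X] := f1.map ψ
    have hf2 : f2.Monic := (hf.map φ).map ψ
    have hf2a : f2.eval (ψ (φ a)) ∈ IsLocalRing.maximalIdeal W' := by
      simp only [f2, f1]
      rw [eval_map, eval₂_at_apply, eval_map, eval₂_at_apply, hψm]
      exact hφm _ hfa
    -- a root in the algebraic closure
    obtain ⟨α, hα, hαa⟩ : ∃ α : W', f2.eval α = 0 ∧
        α - ψ (φ a) ∈ IsLocalRing.maximalIdeal W' := by
      let g : (AlgebraicClosure Om)[X] := f2.map (algebraMap W' (AlgebraicClosure Om))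
      have hg : g.Monic := hf2.map _
      have hsplit : g.Splits := IsAlgClosed.splits g
      have hprod : g.eval (algebraMap W' (AlgebraicClosure Om) (ψ (φ a))) =
          (g.roots.map fun r => algebraMap W' (AlgebraicClosure Om) (ψ (φ a)) - r).prod := by
        conv_lhs => rw [hsplit.eq_prod_roots_of_monic hg]
        rw [eval_multiset_prod, Multiset.map_map]
        congr 1
        refine Multiset.map_congr rfl fun r _ => ?_
        simp
      have hlt : W'.valuation (g.eval (algebraMap W' (AlgebraicClosure Om) (ψ (φ a)))) < 1 := by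
        have h1 : g.eval (algebraMap W' (AlgebraicClosure Om) (ψ (φ a))) =
            ((f2.eval (ψ (φ a)) : W') : AlgebraicClosure Om) := by
          simp only [g]
          rw [eval_map, eval₂_at_apply]
          rfl
        rw [h1]
        exact (ValuationSubring.valuation_lt_one_iff _ _).mp hf2a
      have hex : ∃ r ∈ g.roots,
          W'.valuation (algebraMap W' (AlgebraicClosure Om) (ψ (φ a)) - r) < 1 := by
        by_contra hcon
        push Not at hcon
        rw [hprod, map_multiset_prod, Multiset.map_map] at hlt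
        refine absurd hlt (not_lt.mpr ?_)
        refine Multiset.one_le_prod_of_one_le ?_
        intro y hy
        obtain ⟨r, hr, rfl⟩ := Multiset.mem_map.mp hy
        exact hcon r hr
      obtain ⟨r, hr, hr1⟩ := hex
      have hr2 : aeval r f2 = 0 := by
        have h1 := (mem_roots hg.ne_zero).mp hr
        rw [IsRoot.def, eval_map] at h1
        exact h1
      have hrW : r ∈ W' := mem_of_monic_root W' hf2 hr2
      refine ⟨⟨r, hrW⟩, ?_, ?_⟩
      · apply Subtype.ext
        have h1 : ((f2.eval (⟨r, hrW⟩ : W') : W') : AlgebraicClosure Om) = aeval r f2 := by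
          rw [aeval_def]
          exact (eval₂_at_apply (algebraMap W' (AlgebraicClosure Om)) (⟨r, hrW⟩ : W')).symm
        rw [h1, hr2]
        rfl
      · rw [← neg_sub, Ideal.neg_mem_iff, ValuationSubring.valuation_lt_one_iff]
        exact hr1
    have hfu : IsUnit (f2.derivative.eval (ψ (φ a))) := by
      simp only [f2, f1]
      rw [derivative_map, derivative_map, eval_map, eval₂_at_apply, eval_map, eval₂_at_apply]
      exact (hfa'.map φ).map ψ
    -- the root is separable
    have hsep : f2.derivative.eval α ≠ 0 := by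
      intro h
      obtain ⟨c, hc⟩ := sub_dvd_eval_sub α (ψ (φ a)) f2.derivative
      have h1 : f2.derivative.eval (ψ (φ a)) ∈ IsLocalRing.maximalIdeal W' := by
        have h2 : f2.derivative.eval (ψ (φ a)) = -((α - ψ (φ a)) * c) := by
          rw [← hc, h]
          ring
        rw [h2]
        exact neg_mem (Ideal.mul_mem_right _ _ hαa)
      exact (IsLocalRing.mem_maximalIdeal _).mp h1 hfu
    let fO : Om[X] := f1.map (algebraMap W Om)
    have hmapf : f2.map (algebraMap W' (AlgebraicClosure Om)) =
        fO.map (algebraMap Om (AlgebraicClosure Om)) := by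
      have hc : (algebraMap W' (AlgebraicClosure Om)).comp ψ =
          (algebraMap Om (AlgebraicClosure Om)).comp (algebraMap W Om) := RingHom.ext fun x => rfl
      have h1 : (f1.map ψ).map (algebraMap W' (AlgebraicClosure Om)) =
          (f1.map (algebraMap W Om)).map (algebraMap Om (AlgebraicClosure Om)) := by
        rw [Polynomial.map_map ψ, hc, ← Polynomial.map_map]
      exact h1
    have hfO : aeval (α : AlgebraicClosure Om) fO = 0 := by
      rw [aeval_def, ← eval_map, ← hmapf, eval_map]
      have h1 := congrArg (fun z : W' => (z : AlgebraicClosure Om)) hα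
      have h2 : ((f2.eval α : W') : AlgebraicClosure Om) =
          eval₂ (algebraMap W' (AlgebraicClosure Om)) (α : AlgebraicClosure Om) f2 :=
        (eval₂_at_apply (algebraMap W' (AlgebraicClosure Om)) α).symm
      rw [← h2]
      exact h1
    have hfO' : aeval (α : AlgebraicClosure Om) fO.derivative ≠ 0 := by
      rw [aeval_def, ← eval_map, ← derivative_map, ← hmapf, derivative_map, eval_map]
      have h2 : ((f2.derivative.eval α : W') : AlgebraicClosure Om) =
          eval₂ (algebraMap W' (AlgebraicClosure Om)) (α : AlgebraicClosure Om) f2.derivative :=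
        (eval₂_at_apply (algebraMap W' (AlgebraicClosure Om)) α).symm
      rw [← h2]
      exact fun h => hsep (Subtype.ext h)
    have hint : IsIntegral Om (α : AlgebraicClosure Om) := Algebra.IsIntegral.isIntegral _
    have hαsep : IsSeparable Om (α : AlgebraicClosure Om) := by
      rw [IsSeparable, separable_iff_derivative_ne_zero (minpoly.irreducible hint)]
      intro h0
      obtain ⟨h, hh⟩ := minpoly.dvd Om _ hfO
      apply hfO'
      rw [hh, derivative_mul, h0, zero_mul, zero_add, map_mul, minpoly.aeval, zero_mul]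
    obtain ⟨β, hβ⟩ : ∃ β : Om, algebraMap Om (AlgebraicClosure Om) β = α :=
      minpoly.mem_range_of_degree_eq_one Om _
        (IsSepClosed.degree_eq_one_of_irreducible Om (minpoly.irreducible hint) hαsep)
    have hβW : β ∈ W := by
      rw [← hW', ValuationSubring.mem_comap, hβ]
      exact α.2
    have hψβ : ψ ⟨β, hβW⟩ = α := Subtype.ext hβ
    have hψi : Function.Injective ψ := by
      intro x y h
      have h1 : algebraMap Om (AlgebraicClosure Om) x = algebraMap Om (AlgebraicClosure Om) y :=
        congrArg (fun z : W' => (z : AlgebraicClosure Om)) h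
      exact Subtype.ext ((algebraMap Om (AlgebraicClosure Om)).injective h1)
    have hφi : Function.Injective φ := by
      intro x y h
      have h1 : algebraMap K Om x = algebraMap K Om y := congrArg (fun z : W => (z : Om)) h
      exact Subtype.ext ((algebraMap K Om).injective h1)
    have hβ1 : f1.eval ⟨β, hβW⟩ = 0 := by
      apply hψi
      rw [map_zero, ← hα, ← hψβ]
      have h1 : eval (ψ ⟨β, hβW⟩) (f1.map ψ) = ψ (eval ⟨β, hβW⟩ f1) := by
        rw [eval_map, eval₂_at_apply]
      exact h1.symm
    have hβ2 : (⟨β, hβW⟩ : W) - φ a ∈ IsLocalRing.maximalIdeal W := by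
      rw [← hψm, map_sub, hψβ]
      exact hαa
    have hfu1 : IsUnit (f1.derivative.eval (φ a)) := by
      simp only [f1]
      rw [derivative_map, eval_map, eval₂_at_apply]
      exact hfa'.map φ
    -- the conjugates of the root
    let g : V →+* Om := (algebraMap K Om).comp V.subtype
    have hev : ∀ x : W, ((f1.eval x : W) : Om) = eval₂ g (x : Om) f := by
      intro x
      simp only [f1]
      rw [eval_map]
      exact hom_eval₂ f φ W.subtype x
    have hfix : ∀ σ : Om ≃ₐ[K] Om, σ β = β := by
      intro σ
      have hσW : σ β ∈ W := (hst σ β).mpr hβW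
      have h1 : f1.eval ⟨σ β, hσW⟩ = 0 := by
        apply Subtype.ext
        rw [hev]
        have h2 := hev ⟨β, hβW⟩
        rw [hβ1] at h2
        have h3 := congrArg σ h2
        have h4 : σ (eval₂ g β f) = eval₂ ((σ : Om →+* Om).comp g) (σ β) f :=
          hom_eval₂ f g (σ : Om →+* Om) β
        have h5 : (σ : Om →+* Om).comp g = g := by
          ext x
          exact σ.commutes x
        rw [h5] at h4
        rw [h4] at h3
        rw [← h3]
        have h6 : (((0 : W) : W) : Om) = 0 := rfl
        rw [h6, map_zero]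
      have h2 : (⟨σ β, hσW⟩ : W) - φ a ∈ IsLocalRing.maximalIdeal W := by
        rw [ValuationSubring.valuation_lt_one_iff] at hβ2 ⊢
        have h3 : (((⟨σ β, hσW⟩ : W) - φ a : W) : Om) = σ (((⟨β, hβW⟩ : W) - φ a : W) : Om) := by
          show σ β - algebraMap K Om a = σ (β - algebraMap K Om a)
          rw [map_sub, AlgEquiv.commutes]
        rw [h3]
        by_cases h0 : (((⟨β, hβW⟩ : W) - φ a : W) : Om) = 0
        · rw [h0, map_zero, map_zero]
          exact zero_lt_one
        · have h6 : σ (((⟨β, hβW⟩ : W) - φ a : W) : Om) ≠ 0 := by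
            rwa [Ne, map_eq_zero_iff _ σ.injective]
          rw [val_lt_one_iff_inv h6, ← map_inv₀, hst]
          exact (val_lt_one_iff_inv h0).mp hβ2
      have h3 := simple_root_unique W h1 hβ1 h2 hβ2 hfu1
      exact congrArg (fun z : W => (z : Om)) h3
    obtain ⟨c, hc⟩ : β ∈ Set.range (algebraMap K Om) :=
      (InfiniteGalois.mem_range_algebraMap_iff_fixed β).mpr hfix
    have hcV : c ∈ V := by
      rw [← hW, ValuationSubring.mem_comap, hc]
      exact hβW
    have hφc : φ ⟨c, hcV⟩ = ⟨β, hβW⟩ := Subtype.ext hc
    refine ⟨⟨c, hcV⟩, ?_, ?_⟩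
    · rw [IsRoot.def]
      apply hφi
      rw [map_zero, ← hβ1, ← hφc]
      simp only [f1]
      rw [eval_map, eval₂_at_apply]
    · rw [← hφc, ← map_sub, ValuationSubring.valuation_lt_one_iff] at hβ2
      rw [ValuationSubring.valuation_lt_one_iff]
      exact (ext_lt_one hW _).mp hβ2

end Pool.Agent.Q175.NFC
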