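import Pool.Agent.Q175.NF.VTop

/-!
# Definability with parameters, and finite extensions
-/

set_option autoImplicit false

open FirstOrder FirstOrder.Language FirstOrder.Ring

namespace Pool.Agent.Q175.NFC

open Pool.Agent.W882.Nip3 Pool.Agent.Q175.NF

section

variable {K : Type} [Field K] [CompatibleRing K] {γ δ : Type}

/-- Terms with parameters. -/
def PT (f : (γ → K) → K) : Prop :=
  ∃ t : Language.ring.Term (γ ⊕ K), ∀ v : γ → K, t.realize (Sum.elim v id) = f v

/-- Relations which are definable with parameters. -/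
def PD (R : (γ → K) → Prop) : Prop :=
  ∃ φ : Language.ring.Formula (γ ⊕ K), ∀ v : γ → K, φ.Realize (Sum.elim v id) ↔ R v

theorem PT.var (a : γ) : PT (fun v : γ → K => v a) := ⟨Term.var (Sum.inl a), fun _ => rfl⟩

theorem PT.const (c : K) : PT (fun _ : γ → K => c) := ⟨Term.var (Sum.inr c), fun _ => rfl⟩

theorem PT.add {f g : (γ → K) → K} (hf : PT f) (hg : PT g) : PT (fun v => f v + g v) := by
  obtain ⟨t, ht⟩ := hf
  obtain ⟨s, hs⟩ := hg
  exact ⟨t + s, fun v => by rw [realize_add, ht, hs]⟩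

theorem PT.mul {f g : (γ → K) → K} (hf : PT f) (hg : PT g) : PT (fun v => f v * g v) := by
  obtain ⟨t, ht⟩ := hf
  obtain ⟨s, hs⟩ := hg
  exact ⟨t * s, fun v => by rw [realize_mul, ht, hs]⟩

theorem PT.neg {f : (γ → K) → K} (hf : PT f) : PT (fun v => - f v) := by
  obtain ⟨t, ht⟩ := hf
  exact ⟨-t, fun v => by rw [realize_neg, ht]⟩

theorem PT.sub {f g : (γ → K) → K} (hf : PT f) (hg : PT g) : PT (fun v => f v - g v) := by
  simp only [sub_eq_add_neg]
  exact hf.add hg.neg

theorem PT.pow {f : (γ → K) → K} (hf : PT f) (n : ℕ) : PT (fun v => f v ^ n) := by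
  induction n with
  | zero =>
    simp only [pow_zero]
    exact PT.const 1
  | succ n ih =>
    simp only [pow_succ]
    exact ih.mul hf

theorem PT.sum {ι : Type} (s : Finset ι) {f : ι → (γ → K) → K} (hf : ∀ i, PT (f i)) :
    PT (fun v => ∑ i ∈ s, f i v) := by
  classical
  induction s using Finset.induction_on with
  | empty =>
    simp only [Finset.sum_empty]
    exact PT.const 0
  | insert i s hi ih =>
    simp only [Finset.sum_insert hi]
    exact (hf i).add ih

theorem PT.prod {ι : Type} (s : Finset ι) {f : ι → (γ → K) → K} (hf : ∀ i, PT (f i)) :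
    PT (fun v => ∏ i ∈ s, f i v) := by
  classical
  induction s using Finset.induction_on with
  | empty =>
    simp only [Finset.prod_empty]
    exact PT.const 1
  | insert i s hi ih =>
    simp only [Finset.prod_insert hi]
    exact (hf i).mul ih

theorem PT.comp {f : (γ → K) → K} (h : PT f) (g : γ → δ) :
    PT (fun v : δ → K => f (fun a => v (g a))) := by
  obtain ⟨t, ht⟩ := h
  refine ⟨t.relabel (Sum.map g id), fun v => ?_⟩
  have h1 : (Sum.elim v id ∘ Sum.map g id : γ ⊕ K → K) = Sum.elim (fun a => v (g a)) id := by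
    funext x
    rcases x with a | c <;> rfl
  rw [Term.realize_relabel, h1]
  exact ht _

theorem PD.eq {f g : (γ → K) → K} (hf : PT f) (hg : PT g) : PD (fun v => f v = g v) := by
  obtain ⟨t, ht⟩ := hf
  obtain ⟨s, hs⟩ := hg
  exact ⟨t.equal s, fun v => by rw [Formula.realize_equal, ht, hs]⟩

theorem PD.not {R : (γ → K) → Prop} (h : PD R) : PD (fun v => ¬ R v) := by
  obtain ⟨φ, hφ⟩ := h
  exact ⟨φ.not, fun v => by rw [Formula.realize_not, hφ]⟩

theorem PD.and {R S : (γ → K) → Prop} (h : PD R) (h' : PD S) : PD (fun v => R v ∧ S v) := by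
  obtain ⟨φ, hφ⟩ := h
  obtain ⟨ψ, hψ⟩ := h'
  exact ⟨φ ⊓ ψ, fun v => by rw [Formula.realize_inf, hφ, hψ]⟩

theorem PD.or {R S : (γ → K) → Prop} (h : PD R) (h' : PD S) : PD (fun v => R v ∨ S v) := by
  obtain ⟨φ, hφ⟩ := h
  obtain ⟨ψ, hψ⟩ := h'
  exact ⟨φ ⊔ ψ, fun v => by rw [Formula.realize_sup, hφ, hψ]⟩

theorem PD.imp {R S : (γ → K) → Prop} (h : PD R) (h' : PD S) : PD (fun v => R v → S v) := by
  obtain ⟨φ, hφ⟩ := h
  obtain ⟨ψ, hψ⟩ := h'
  exact ⟨φ.imp ψ, fun v => by rw [Formula.realize_imp, hφ, hψ]⟩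

theorem PD.congr {R S : (γ → K) → Prop} (h : PD R) (hRS : ∀ v, R v ↔ S v) : PD S := by
  obtain ⟨φ, hφ⟩ := h
  exact ⟨φ, fun v => (hφ v).trans (hRS v)⟩

theorem PD.all_fin {ι : Type} [Finite ι] {R : ι → (γ → K) → Prop} (h : ∀ i, PD (R i)) :
    PD (fun v => ∀ i, R i v) := by
  choose φ hφ using h
  exact ⟨Formula.iInf φ, fun v => by
    rw [Formula.realize_iInf]
    exact forall_congr' fun i => hφ i v⟩

theorem PD.subst {R : (γ → K) → Prop} (h : PD R) {g : γ → (δ → K) → K} (hg : ∀ a, PT (g a)) :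
    PD (fun v => R (fun a => g a v)) := by
  obtain ⟨φ, hφ⟩ := h
  choose t ht using hg
  refine ⟨BoundedFormula.subst φ (Sum.elim t fun c => Term.var (Sum.inr c)), fun v => ?_⟩
  have h1 : (BoundedFormula.subst φ (Sum.elim t fun c => Term.var (Sum.inr c))).Realize
      (Sum.elim v id) default ↔ BoundedFormula.Realize φ
        (fun a => ((Sum.elim t fun c => Term.var (Sum.inr c)) a).realize (Sum.elim v id))
        default :=
    BoundedFormula.realize_subst
  have h2 : (fun a => ((Sum.elim t fun c => Term.var (Sum.inr c)) a :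
      Language.ring.Term (δ ⊕ K)).realize (Sum.elim v id)) = Sum.elim (fun a => g a v) id := by
    funext a
    rcases a with a | c
    · exact ht a v
    · rfl
  rw [h2] at h1
  exact h1.trans (hφ _)

theorem PD.ex {β : Type} [Finite β] {S : (γ → K) → (β → K) → Prop}
    (h : PD (fun w : γ ⊕ β → K => S (fun a => w (Sum.inl a)) (fun b => w (Sum.inr b)))) :
    PD (fun v => ∃ x : β → K, S v x) := by
  obtain ⟨φ, hφ⟩ := h
  let e : (γ ⊕ β) ⊕ K → (γ ⊕ K) ⊕ β :=
    Sum.elim (Sum.elim (fun a => Sum.inl (Sum.inl a)) Sum.inr) (fun c => Sum.inl (Sum.inr c))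
  refine ⟨(φ.relabel e).iExs β, fun v => ?_⟩
  rw [Formula.realize_iExs]
  refine exists_congr fun x => ?_
  have h1 : (Sum.elim (Sum.elim v id) x ∘ e : (γ ⊕ β) ⊕ K → K) = Sum.elim (Sum.elim v x) id := by
    funext a
    rcases a with (a | b) | c <;> rfl
  have h2 := hφ (Sum.elim v x)
  rw [← h1] at h2
  rw [← Formula.realize_relabel] at h2
  exact h2

theorem PD.all {β : Type} [Finite β] {S : (γ → K) → (β → K) → Prop}
    (h : PD (fun w : γ ⊕ β → K => S (fun a => w (Sum.inl a)) (fun b => w (Sum.inr b)))) :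
    PD (fun v => ∀ x : β → K, S v x) := by
  have h1 : PD (fun v => ∃ x : β → K, ¬ S v x) := PD.ex h.not
  exact h1.not.congr fun v => by push Not; rfl

theorem PD.ex1 {S : (γ → K) → K → Prop}
    (h : PD (fun w : γ ⊕ Unit → K => S (fun a => w (Sum.inl a)) (w (Sum.inr ())))) :
    PD (fun v => ∃ x : K, S v x) := by
  have h1 : PD (fun v => ∃ x : Unit → K, S v (x ())) := PD.ex h
  refine h1.congr fun v => ?_
  exact ⟨fun ⟨x, hx⟩ => ⟨_, hx⟩, fun ⟨x, hx⟩ => ⟨fun _ => x, hx⟩⟩

theorem PD.all1 {S : (γ → K) → K → Prop}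
    (h : PD (fun w : γ ⊕ Unit → K => S (fun a => w (Sum.inl a)) (w (Sum.inr ())))) :
    PD (fun v => ∀ x : K, S v x) := by
  have h1 : PD (fun v => ∃ x : K, ¬ S v x) := PD.ex1 h.not
  exact h1.not.congr fun v => by push Not; rfl

/-- Only finitely many parameters are used. -/
theorem PD.exists_formula {R : (γ → K) → Prop} (h : PD R) :
    ∃ (p : ℕ) (φ : Language.ring.Formula (γ ⊕ Fin p)) (c : Fin p → K),
      ∀ v : γ → K, φ.Realize (Sum.elim v c) ↔ R v := by
  classical
  obtain ⟨φ, hφ⟩ := h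
  let s : Finset (γ ⊕ K) := BoundedFormula.freeVarFinset φ
  obtain ⟨p, ⟨e⟩⟩ := Finite.exists_equiv_fin s
  let f : s → γ ⊕ Fin p := fun x => Sum.elim (fun a => Sum.inl a) (fun _ => Sum.inr (e x)) x.1
  let c : Fin p → K := fun j => Sum.elim (fun _ => 0) id (e.symm j).1
  refine ⟨p, BoundedFormula.restrictFreeVar φ f, c, fun v => ?_⟩
  rw [← hφ]
  refine BoundedFormula.realize_restrictFreeVar (Sum.elim v id) ?_
  intro a
  rcases ha : a.1 with x | y
  · have h1 : f a = Sum.inl x := by simp only [f, ha, Sum.elim_inl]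
    rw [h1]
    rfl
  · have h1 : f a = Sum.inr (e a) := by simp only [f, ha, Sum.elim_inr]
    rw [h1]
    show c (e a) = _
    simp only [c, Equiv.symm_apply_apply, ha, Sum.elim_inr]

theorem PD.of_formula {p : ℕ} (φ : Language.ring.Formula (γ ⊕ Fin p)) (c : Fin p → K) :
    PD (fun v => φ.Realize (Sum.elim v c)) := by
  refine ⟨φ.relabel (Sum.map id c), fun v => ?_⟩
  rw [Formula.realize_relabel]
  have h1 : (Sum.elim v id ∘ Sum.map id c : γ ⊕ Fin p → K) = Sum.elim v c := by
    funext a
    rcases a with a | b <;> rfl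
  rw [h1]

theorem isDefinable_iff {S : Set K} : IsDefinable S ↔ PD (fun v : Fin 1 → K => v 0 ∈ S) := by
  constructor
  · rintro ⟨p, φ, c, h⟩
    refine (PD.of_formula φ c).congr fun v => ?_
    rw [h (v 0)]
    have h1 : (fun _ : Fin 1 => v 0) = v := funext fun i => by rw [Subsingleton.elim i 0]
    rw [h1]
  · intro h
    obtain ⟨p, φ, c, h⟩ := h.exists_formula
    refine ⟨p, φ, c, fun x => ?_⟩
    exact (h fun _ => x).symm

theorem PD.mem {S : Set K} (hS : IsDefinable S) {f : (γ → K) → K} (hf : PT f) :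
    PD (fun v => f v ∈ S) :=
  (isDefinable_iff.mp hS).subst (g := fun _ => f) fun _ => hf

theorem isDefinable_of_PD {S : Set K} {α : Type} {R : (α → K) → Prop} (h : PD R)
    (g : α → K → K) (hg : ∀ a, PT (fun v : Fin 1 → K => g a (v 0)))
    (hS : ∀ x, x ∈ S ↔ R (fun a => g a x)) : IsDefinable S := by
  rw [isDefinable_iff]
  exact (h.subst hg).congr fun v => (hS _).symm

/-- `NIP` for definable relations. -/
theorem nip_PD (hK : NIPField K) {α β : Type} [Finite α] [Finite β] {R : (α ⊕ β → K) → Prop}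
    (hR : PD R) : ∃ n : ℕ, ∀ (a : Fin n → α → K) (b : Finset (Fin n) → β → K),
      ∃ (i : Fin n) (J : Finset (Fin n)), ¬ (R (Sum.elim (a i) (b J)) ↔ i ∈ J) := by
  obtain ⟨p, φ, c, h⟩ := hR.exists_formula
  obtain ⟨m, ⟨e1⟩⟩ := Finite.exists_equiv_fin α
  obtain ⟨k, ⟨e2⟩⟩ := Finite.exists_equiv_fin (β ⊕ Fin p)
  let g : (α ⊕ β) ⊕ Fin p → Fin m ⊕ Fin k := Sum.elim (Sum.elim (fun a => Sum.inl (e1 a))
    (fun b => Sum.inr (e2 (Sum.inl b)))) (fun l => Sum.inr (e2 (Sum.inr l)))
  obtain ⟨n, hn⟩ := hK m k (φ.relabel g)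
  refine ⟨n, fun a b => ?_⟩
  obtain ⟨i, J, hiJ⟩ := hn (fun i => a i ∘ e1.symm) (fun J => Sum.elim (b J) c ∘ e2.symm)
  refine ⟨i, J, fun hcon => hiJ ?_⟩
  rw [Formula.realize_relabel, ← hcon, ← h]
  have h1 : (Sum.elim (a i ∘ e1.symm) (Sum.elim (b J) c ∘ e2.symm) ∘ g : (α ⊕ β) ⊕ Fin p → K) =
      Sum.elim (Sum.elim (a i) (b J)) c := by
    funext x
    rcases x with (x | x) | x <;> simp [g]
  rw [h1]

/-- `NIP_n` for definable relations. -/
theorem nipn_PD {n : ℕ} (hK : NIPnField n K) {α β : Type} [Finite α] [Finite β]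
    {R : (α ⊕ (Fin n × β) → K) → Prop} (hR : PD R) :
    ¬ ∀ m : ℕ, ∃ b : Fin n → Fin m → β → K, ∀ S : Set (Fin n → Fin m),
      ∃ a : α → K, ∀ i : Fin n → Fin m,
        (R (Sum.elim a (fun jl : Fin n × β => b jl.1 (i jl.1) jl.2)) ↔ i ∈ S) := by
  intro hcon
  obtain ⟨p, φ, c, h⟩ := hR.exists_formula
  obtain ⟨q, ⟨e1⟩⟩ := Finite.exists_equiv_fin (α ⊕ Fin p)
  obtain ⟨k, ⟨e2⟩⟩ := Finite.exists_equiv_fin β
  let g : (α ⊕ (Fin n × β)) ⊕ Fin p → Fin q ⊕ (Fin n × Fin k) :=
    Sum.elim (Sum.elim (fun a => Sum.inl (e1 (Sum.inl a)))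
      (fun b => Sum.inr (b.1, e2 b.2))) (fun l => Sum.inl (e1 (Sum.inr l)))
  refine hK q k (φ.relabel g) fun m => ?_
  obtain ⟨b, hb⟩ := hcon m
  refine ⟨fun i j l => b i j (e2.symm l), fun S => ?_⟩
  obtain ⟨a, ha⟩ := hb S
  refine ⟨Sum.elim a c ∘ e1.symm, fun i => ?_⟩
  rw [← ha, Formula.realize_relabel, ← h]
  have h1 : (Sum.elim (Sum.elim a c ∘ e1.symm)
      (fun jl : Fin n × Fin k => b jl.1 (i jl.1) (e2.symm jl.2)) ∘ g :
      (α ⊕ (Fin n × β)) ⊕ Fin p → K) =
      Sum.elim (Sum.elim a (fun jl : Fin n × β => b jl.1 (i jl.1) jl.2)) c := by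
    funext x
    rcases x with (x | x) | x <;> simp [g]
  rw [h1]

/-- `NTP2` for definable relations. -/
theorem ntp2_PD (hK : NTP2Field K) {α β : Type} [Finite α] [Finite β] {R : (α ⊕ β → K) → Prop}
    (hR : PD R) : ∃ m : ℕ, ∀ a : Fin m → Fin m → β → K,
      (∀ i j j', j ≠ j' → ¬ ∃ x : α → K, R (Sum.elim x (a i j)) ∧ R (Sum.elim x (a i j'))) →
      ∃ η : Fin m → Fin m, ¬ ∃ x : α → K, ∀ i, R (Sum.elim x (a i (η i))) := by
  obtain ⟨p, φ, c, h⟩ := hR.exists_formula
  obtain ⟨q, ⟨e1⟩⟩ := Finite.exists_equiv_fin α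
  obtain ⟨k, ⟨e2⟩⟩ := Finite.exists_equiv_fin (β ⊕ Fin p)
  let g : (α ⊕ β) ⊕ Fin p → Fin q ⊕ Fin k := Sum.elim (Sum.elim (fun a => Sum.inl (e1 a))
    (fun b => Sum.inr (e2 (Sum.inl b)))) (fun l => Sum.inr (e2 (Sum.inr l)))
  obtain ⟨m, hm⟩ := hK q k (φ.relabel g)
  have key : ∀ (x : Fin q → K) (b : β → K),
      (φ.relabel g).Realize (Sum.elim x (Sum.elim b c ∘ e2.symm)) ↔
        R (Sum.elim (x ∘ e1) b) := by
    intro x b
    rw [Formula.realize_relabel, ← h]
    have h1 : (Sum.elim x (Sum.elim b c ∘ e2.symm) ∘ g : (α ⊕ β) ⊕ Fin p → K) =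
        Sum.elim (Sum.elim (x ∘ e1) b) c := by
      funext y
      rcases y with (y | y) | y <;> simp [g]
    rw [h1]
  refine ⟨m, fun a ha => ?_⟩
  obtain ⟨η, hη⟩ := hm (fun i j => Sum.elim (a i j) c ∘ e2.symm) (by
    rintro i j j' hj ⟨x, hx1, hx2⟩
    exact ha i j j' hj ⟨x ∘ e1, (key _ _).mp hx1, (key _ _).mp hx2⟩)
  refine ⟨η, fun ⟨x, hx⟩ => hη ⟨x ∘ e1.symm, fun i => ?_⟩⟩
  rw [key]
  have h1 : (x ∘ e1.symm) ∘ e1 = x := by
    funext y
    simp
  rw [h1]
  exact hx i

end

section

variable {K : Type} [Field K] [CompatibleRing K] {M : Type} [Field M]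
  [Algebra K M] {d : ℕ} (B : Module.Basis (Fin d) K M) {γ δ : Type}

/-- Functions with values in the extension whose coordinates are given by terms. -/
def PM (F : (γ → K) → M) : Prop := ∀ j, PT (fun v => B.repr (F v) j)

variable {B}

theorem PM.const (c : M) : PM B (fun _ : γ → K => c) := fun j => PT.const (B.repr c j)

theorem PM.add {F G : (γ → K) → M} (hF : PM B F) (hG : PM B G) : PM B (fun v => F v + G v) := by
  intro j
  simp only [map_add, Finsupp.add_apply]
  exact (hF j).add (hG j)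

theorem PM.neg {F : (γ → K) → M} (hF : PM B F) : PM B (fun v => - F v) := by
  intro j
  simp only [map_neg, Finsupp.neg_apply]
  exact (hF j).neg

theorem PM.sum {ι : Type} (s : Finset ι) {F : ι → (γ → K) → M} (hF : ∀ i, PM B (F i)) :
    PM B (fun v => ∑ i ∈ s, F i v) := by
  intro j
  simp only [map_sum, Finsupp.finsetSum_apply]
  exact PT.sum _ fun i => hF i j

theorem PM.smul {f : (γ → K) → K} {F : (γ → K) → M} (hf : PT f) (hF : PM B F) :
    PM B (fun v => f v • F v) := by
  intro j
  simp only [map_smul, Finsupp.smul_apply, smul_eq_mul]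
  exact hf.mul (hF j)

theorem PM.mul {F G : (γ → K) → M} (hF : PM B F) (hG : PM B G) : PM B (fun v => F v * G v) := by
  have h1 : (fun v => F v * G v) =
      fun v => ∑ i, ∑ j, (B.repr (F v) i * B.repr (G v) j) • (B i * B j) := by
    funext v
    conv_lhs => rw [← B.sum_repr (F v), ← B.sum_repr (G v)]
    rw [Finset.sum_mul]
    refine Finset.sum_congr rfl fun i _ => ?_
    rw [Finset.mul_sum]
    refine Finset.sum_congr rfl fun j _ => ?_
    rw [smul_mul_smul_comm]
  rw [h1]
  exact PM.sum _ fun i => PM.sum _ fun j => PM.smul ((hF i).mul (hG j)) (PM.const _)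

theorem PM.algebraMap {f : (γ → K) → K} (hf : PT f) : PM B (fun v => algebraMap K M (f v)) := by
  simp only [Algebra.algebraMap_eq_smul_one]
  exact PM.smul hf (PM.const 1)

theorem PM.comp {F : (γ → K) → M} (h : PM B F) (g : γ → δ) :
    PM B (fun v : δ → K => F (fun a => v (g a))) := fun j => (h j).comp g

theorem PM.eq {F G : (γ → K) → M} (hF : PM B F) (hG : PM B G) : PD (fun v => F v = G v) := by
  refine (PD.all_fin fun j => PD.eq (hF j) (hG j)).congr fun v => ?_
  exact ⟨fun h => B.repr.injective (Finsupp.ext h), fun h j => by rw [h]⟩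

variable [CompatibleRing M]

theorem PM.term {α : Type} {x : α → (γ → K) → M} (hx : ∀ a, PM B (x a))
    (t : Language.ring.Term α) : PM B (fun v => t.realize (fun a => x a v)) := by
  induction t with
  | var a => exact hx a
  | func f ts ih =>
    cases f with
    | add =>
      have h1 : (fun v => (Term.func (L := Language.ring) ringFunc.add ts).realize
          (fun a => x a v)) = fun v => (ts 0).realize (fun a => x a v) +
            (ts 1).realize (fun a => x a v) := by
        funext v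
        exact CompatibleRing.funMap_add _
      rw [h1]
      exact (ih 0).add (ih 1)
    | mul =>
      have h1 : (fun v => (Term.func (L := Language.ring) ringFunc.mul ts).realize
          (fun a => x a v)) = fun v => (ts 0).realize (fun a => x a v) *
            (ts 1).realize (fun a => x a v) := by
        funext v
        exact CompatibleRing.funMap_mul _
      rw [h1]
      exact (ih 0).mul (ih 1)
    | neg =>
      have h1 : (fun v => (Term.func (L := Language.ring) ringFunc.neg ts).realize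
          (fun a => x a v)) = fun v => - (ts 0).realize (fun a => x a v) := by
        funext v
        exact CompatibleRing.funMap_neg _
      rw [h1]
      exact (ih 0).neg
    | zero =>
      have h1 : (fun v => (Term.func (L := Language.ring) ringFunc.zero ts).realize
          (fun a => x a v)) = fun v => (0 : M) := by
        funext v
        exact CompatibleRing.funMap_zero _
      rw [h1]
      exact PM.const 0
    | one =>
      have h1 : (fun v => (Term.func (L := Language.ring) ringFunc.one ts).realize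
          (fun a => x a v)) = fun v => (1 : M) := by
        funext v
        exact CompatibleRing.funMap_one _
      rw [h1]
      exact PM.const 1

theorem PM.formula {α : Type} {n : ℕ} (φ : Language.ring.BoundedFormula α n) :
    ∀ {γ : Type} {x : α → (γ → K) → M} {y : Fin n → (γ → K) → M}, (∀ a, PM B (x a)) →
      (∀ i, PM B (y i)) → PD (fun v => φ.Realize (fun a => x a v) (fun i => y i v)) := by
  induction φ with
  | falsum =>
    intro γ x y _ _
    exact ⟨⊥, fun v => Iff.rfl⟩
  | equal t s =>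
    intro γ x y hx hy
    have h1 : ∀ t : Language.ring.Term (α ⊕ Fin _),
        PM B (fun v => t.realize (fun a => Sum.elim x y a v)) := fun t => PM.term (by
      rintro (a | i)
      exacts [hx a, hy i]) t
    refine ((h1 t).eq (h1 s)).congr fun v => ?_
    have h2 : (fun a => Sum.elim x y a v) = Sum.elim (fun a => x a v) (fun i => y i v) := by
      funext a
      rcases a with a | i <;> rfl
    rw [h2]
    rfl
  | rel R ts => exact R.elim
  | imp φ ψ ih1 ih2 =>
    intro γ x y hx hy
    exact (ih1 hx hy).imp (ih2 hx hy)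
  | all φ ih =>
    intro γ x y hx hy
    have h1 : PD (fun w : γ ⊕ Fin d → K => φ.Realize
        (fun a => x a (fun g => w (Sum.inl g)))
        (fun i => (Fin.snoc (α := fun _ => (γ ⊕ Fin d → K) → M)
          (fun i w => y i (fun g => w (Sum.inl g)))
          (fun w => ∑ j, w (Sum.inr j) • B j) i) w)) := by
      refine ih (fun a => (hx a).comp Sum.inl) fun i => ?_
      refine Fin.lastCases ?_ (fun i => ?_) i
      · simp only [Fin.snoc_last]
        exact PM.sum _ fun j => PM.smul (PT.var _) (PM.const _)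
      · simp only [Fin.snoc_castSucc]
        exact (hy i).comp Sum.inl
    have h2 : PD (fun v : γ → K => ∀ z : Fin d → K, φ.Realize (fun a => x a v)
        (Fin.snoc (fun i => y i v) (∑ j, z j • B j))) := by
      refine PD.all (h1.congr fun w => ?_)
      have h3 : (fun i => (Fin.snoc (α := fun _ => (γ ⊕ Fin d → K) → M)
          (fun i w => y i (fun g => w (Sum.inl g)))
          (fun w => ∑ j, w (Sum.inr j) • B j) i) w) =
          Fin.snoc (fun i => y i (fun g => w (Sum.inl g))) (∑ j, w (Sum.inr j) • B j) := by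
        funext i
        refine Fin.lastCases ?_ (fun i => ?_) i
        · simp only [Fin.snoc_last]
        · simp only [Fin.snoc_castSucc]
      rw [h3]
    refine h2.congr fun v => ?_
    rw [BoundedFormula.realize_all]
    constructor
    · intro h m
      have h3 := h (fun j => B.repr m j)
      rwa [B.sum_repr] at h3
    · intro h z
      exact h _

theorem PM.fml {α : Type} (φ : Language.ring.Formula α) {x : α → (γ → K) → M}
    (hx : ∀ a, PM B (x a)) : PD (fun v => φ.Realize (fun a => x a v)) := by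
  refine (PM.formula (B := B) φ hx (y := fun i => i.elim0) fun i => i.elim0).congr fun v => ?_
  have h1 : (fun i : Fin 0 => (i.elim0 : (γ → K) → M) v) = default := funext fun i => i.elim0
  rw [h1]
  rfl

/-- A definable subset of a finite extension. -/
theorem PM.mem {S : Set M} (hS : IsDefinable S) {F : (γ → K) → M} (hF : PM B F) :
    PD (fun v => F v ∈ S) := by
  obtain ⟨p, φ, c, h⟩ := hS
  have h1 : PD (fun v => φ.Realize (fun a => Sum.elim (fun _ : Fin 1 => F)
      (fun i (_ : γ → K) => c i) a v)) := PM.fml φ (by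
    rintro (a | i)
    exacts [hF, PM.const _])
  refine h1.congr fun v => ?_
  rw [h]
  have h2 : (fun a => Sum.elim (fun _ : Fin 1 => F) (fun i (_ : γ → K) => c i) a v) =
      Sum.elim (fun _ => F v) c := by
    funext a
    rcases a with a | i <;> rfl
  rw [h2]

end

section

variable {K : Type} [Field K] [CompatibleRing K] (M : Type) [Field M] [CompatibleRing M]
  [Algebra K M] [FiniteDimensional K M]

variable {M} in
/-- The trace on the base field of a definable subset of a finite extension. -/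
theorem isDefinable_comap {S : Set M} (hS : IsDefinable S) :
    IsDefinable {x : K | algebraMap K M x ∈ S} := by
  rw [isDefinable_iff]
  exact PM.mem (B := Module.finBasis K M) hS (PM.algebraMap (PT.var 0))

theorem nip_ext (hK : NIPField K) : NIPField M := by
  intro m k φ
  let B := Module.finBasis K M
  have h1 : PD (fun w : (Fin m × Fin (Module.finrank K M)) ⊕
      (Fin k × Fin (Module.finrank K M)) → K => φ.Realize (fun a =>
        Sum.elim (fun (i : Fin m) (w : (Fin m × Fin (Module.finrank K M)) ⊕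
          (Fin k × Fin (Module.finrank K M)) → K) => ∑ j, w (Sum.inl (i, j)) • B j)
          (fun (i : Fin k) w => ∑ j, w (Sum.inr (i, j)) • B j) a w)) := PM.fml (B := B) φ (by
    rintro (i | i)
    · exact PM.sum _ fun j => PM.smul (PT.var _) (PM.const _)
    · exact PM.sum _ fun j => PM.smul (PT.var _) (PM.const _))
  obtain ⟨n, hn⟩ := nip_PD hK h1
  refine ⟨n, fun a b => ?_⟩
  obtain ⟨i, J, hiJ⟩ := hn (fun i t => B.repr (a i t.1) t.2) (fun J t => B.repr (b J t.1) t.2)
  refine ⟨i, J, fun hcon => hiJ ?_⟩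
  rw [← hcon]
  have h2 : (fun x => Sum.elim (fun (i : Fin m) (w : (Fin m × Fin (Module.finrank K M)) ⊕
          (Fin k × Fin (Module.finrank K M)) → K) => ∑ j, w (Sum.inl (i, j)) • B j)
          (fun (i : Fin k) w => ∑ j, w (Sum.inr (i, j)) • B j) x
          (Sum.elim (fun t => B.repr (a i t.1) t.2) (fun t => B.repr (b J t.1) t.2))) =
      Sum.elim (a i) (b J) := by
    funext x
    rcases x with x | x
    · exact B.sum_repr (a i x)
    · exact B.sum_repr (b J x)
  rw [h2]

theorem nipn_ext {n : ℕ} (hK : NIPnField n K) : NIPnField n M := by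
  intro p q φ
  let B := Module.finBasis K M
  have h1 : PD (fun w : (Fin p × Fin (Module.finrank K M)) ⊕
      (Fin n × (Fin q × Fin (Module.finrank K M))) → K => φ.Realize (fun a =>
        Sum.elim (fun (i : Fin p) (w : (Fin p × Fin (Module.finrank K M)) ⊕
          (Fin n × (Fin q × Fin (Module.finrank K M))) → K) => ∑ j, w (Sum.inl (i, j)) • B j)
          (fun (i : Fin n × Fin q) w => ∑ j, w (Sum.inr (i.1, (i.2, j))) • B j) a w)) :=
    PM.fml (B := B) φ (by
      rintro (i | i)
      · exact PM.sum _ fun j => PM.smul (PT.var _) (PM.const _)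
      · exact PM.sum _ fun j => PM.smul (PT.var _) (PM.const _))
  refine fun hcon => nipn_PD hK h1 fun m => ?_
  obtain ⟨b, hb⟩ := hcon m
  refine ⟨fun i j t => B.repr (b i j t.1) t.2, fun S => ?_⟩
  obtain ⟨a, ha⟩ := hb S
  refine ⟨fun t => B.repr (a t.1) t.2, fun i => ?_⟩
  rw [← ha]
  have h2 : (fun x => Sum.elim (fun (i : Fin p) (w : (Fin p × Fin (Module.finrank K M)) ⊕
          (Fin n × (Fin q × Fin (Module.finrank K M))) → K) => ∑ j, w (Sum.inl (i, j)) • B j)
          (fun (i : Fin n × Fin q) w => ∑ j, w (Sum.inr (i.1, (i.2, j))) • B j) x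
          (Sum.elim (fun t => B.repr (a t.1) t.2) (fun jl : Fin n × (Fin q ×
            Fin (Module.finrank K M)) => B.repr (b jl.1 (i jl.1) jl.2.1) jl.2.2))) =
      Sum.elim a (fun jl : Fin n × Fin q => b jl.1 (i jl.1) jl.2) := by
    funext x
    rcases x with x | x
    · exact B.sum_repr (a x)
    · exact B.sum_repr (b x.1 (i x.1) x.2)
  rw [h2]

theorem ntp2_ext (hK : NTP2Field K) : NTP2Field M := by
  intro p q φ
  let B := Module.finBasis K M
  have h1 : PD (fun w : (Fin p × Fin (Module.finrank K M)) ⊕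
      (Fin q × Fin (Module.finrank K M)) → K => φ.Realize (fun a =>
        Sum.elim (fun (i : Fin p) (w : (Fin p × Fin (Module.finrank K M)) ⊕
          (Fin q × Fin (Module.finrank K M)) → K) => ∑ j, w (Sum.inl (i, j)) • B j)
          (fun (i : Fin q) w => ∑ j, w (Sum.inr (i, j)) • B j) a w)) := PM.fml (B := B) φ (by
    rintro (i | i)
    · exact PM.sum _ fun j => PM.smul (PT.var _) (PM.const _)
    · exact PM.sum _ fun j => PM.smul (PT.var _) (PM.const _))
  have key : ∀ (x : Fin p × Fin (Module.finrank K M) → K) (b : Fin q → M),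
      (fun y => Sum.elim (fun (i : Fin p) (w : (Fin p × Fin (Module.finrank K M)) ⊕
          (Fin q × Fin (Module.finrank K M)) → K) => ∑ j, w (Sum.inl (i, j)) • B j)
          (fun (i : Fin q) w => ∑ j, w (Sum.inr (i, j)) • B j) y
          (Sum.elim x (fun t => B.repr (b t.1) t.2))) =
        Sum.elim (fun i => ∑ j, x (i, j) • B j) b := by
    intro x b
    funext y
    rcases y with y | y
    · rfl
    · exact B.sum_repr (b y)
  obtain ⟨m, hm⟩ := ntp2_PD hK h1
  refine ⟨m, fun a ha => ?_⟩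
  obtain ⟨η, hη⟩ := hm (fun i j t => B.repr (a i j t.1) t.2) (by
    rintro i j j' hj ⟨x, hx1, hx2⟩
    rw [key] at hx1 hx2
    exact ha i j j' hj ⟨_, hx1, hx2⟩)
  refine ⟨η, fun ⟨x, hx⟩ => hη ⟨fun t => B.repr (x t.1) t.2, fun i => ?_⟩⟩
  rw [key]
  have h2 : (fun i => ∑ j, B.repr (x i) j • B j) = x := funext fun i => B.sum_repr _
  rw [h2]
  exact hx i

theorem tame_ext (hK : Tame K) : Tame M := by
  rcases hK with h | ⟨n, h⟩ | h
  · exact Or.inl (nip_ext M h)
  · exact Or.inr (Or.inl ⟨n, nipn_ext M h⟩)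
  · exact Or.inr (Or.inr (ntp2_ext M h))

end

end Pool.Agent.Q175.NFC
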