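import Pool.Agent.Q175.NFC.AS

/-!
# Artin-Schreier equations and conjugate valuations
-/

set_option autoImplicit false

open Polynomial

namespace Pool.Agent.Q175.NFC

open Pool.Agent.W882.Nip3 Pool.Agent.Q175.NF

section

variable {L : Type} [Field L] {Γ : Type} [LinearOrderedCommGroupWithZero Γ] (v : Valuation L Γ)
  (p : ℕ) [Fact p.Prime] [CharP L p]

omit [CharP L p] in
theorem mem_of_as {x : L} (h : v (x ^ p - x) ≤ 1) : v x ≤ 1 := by
  have hp : p.Prime := Fact.out
  by_contra hcon
  push Not at hcon
  have h1 : v x < v (x ^ p) := by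
    rw [map_pow]
    exact lt_self_pow₀ hcon hp.one_lt
  rw [Valuation.map_sub_eq_of_lt_left _ h1, map_pow] at h
  exact absurd h (not_le.mpr (one_lt_pow₀ hcon hp.ne_zero))

omit [CharP L p] in
theorem val_as {x : L} (h : v x < 1) : v (x ^ p - x) = v x := by
  have hp : p.Prime := Fact.out
  by_cases h0 : x = 0
  · rw [h0, zero_pow hp.ne_zero, sub_zero]
  have h1 : v (x ^ p) < v x := by
    rw [map_pow]
    exact pow_lt_self_of_lt_one₀ (zero_lt_iff.mpr ((Valuation.ne_zero_iff _).mpr h0)) h
      hp.one_lt
  rw [Valuation.map_sub_eq_of_lt_right _ h1]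

include p in
theorem val_int {n : ℤ} (h : (n : L) ≠ 0) : v n = 1 := by
  have hp : p.Prime := Fact.out
  have h1 := congrArg v (int_pow (K := L) p n)
  rw [map_pow] at h1
  have h0 : 0 < v (n : L) := zero_lt_iff.mpr ((Valuation.ne_zero_iff _).mpr h)
  rcases lt_trichotomy (v (n : L)) 1 with h2 | h2 | h2
  · exact absurd h1 (pow_lt_self_of_lt_one₀ h0 h2 hp.one_lt).ne
  · exact h2
  · exact absurd h1 (lt_self_pow₀ h2 hp.one_lt).ne'

include p in
theorem int_eq {n m : ℤ} (h : v ((n : L) - m) < 1) : (n : L) = m := by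
  by_contra hcon
  have h1 : ((n - m : ℤ) : L) ≠ 0 := by
    rw [Int.cast_sub]
    exact sub_ne_zero.mpr hcon
  have h2 := val_int v p h1
  rw [Int.cast_sub] at h2
  exact absurd h2 h.ne

end

section

variable {L : Type} [Field L] {W : ValuationSubring L} (p : ℕ) [Fact p.Prime] [CharP L p]

include p in
theorem charP_residue : CharP (IsLocalRing.ResidueField W) p := by
  have hp : p.Prime := Fact.out
  rw [CharP.charP_iff_prime_eq_zero hp]
  have h1 : ((p : ℕ) : W) = 0 := by
    apply Subtype.ext
    have h2 := CharP.cast_eq_zero L p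
    simp
  have h2 := congrArg (IsLocalRing.residue W) h1
  rwa [map_natCast, map_zero] at h2

theorem exists_int_near {β : W.ValueGroup} (hβ : β < 1) {u : L}
    (h : W.valuation (u ^ p - u) ≤ β) : ∃ n : ℤ, W.valuation (u - n) ≤ β := by
  have hu := mem_of_as W.valuation p (h.trans hβ.le)
  have huW : u ∈ W := (ValuationSubring.valuation_le_one_iff _ _).mp hu
  have hch := charP_residue (W := W) p
  let u' : W := ⟨u, huW⟩
  have h1 : IsLocalRing.residue W u' ^ p = IsLocalRing.residue W u' := by
    rw [← map_pow, ← sub_eq_zero, ← map_sub, IsLocalRing.residue_eq_zero_iff,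
      ValuationSubring.valuation_lt_one_iff]
    exact h.trans_lt hβ
  obtain ⟨n, hn⟩ := exists_int_of_pow_eq p h1
  refine ⟨n, ?_⟩
  have h2 : W.valuation (u - n) < 1 := by
    have h3 : IsLocalRing.residue W (u' - (n : W)) = 0 := by
      rw [map_sub, map_intCast, hn, sub_self]
    rw [IsLocalRing.residue_eq_zero_iff, ValuationSubring.valuation_lt_one_iff] at h3
    simpa using h3
  have h3 : (u - n) ^ p - (u - n) = u ^ p - u := by
    rw [sub_pow_char, int_pow]
    ring
  rw [← val_as W.valuation p h2, h3]
  exact h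

omit [CharP L p] in
/-- The residue fields of an Artin-Schreier closed field are infinite. -/
theorem infinite_residue (hAS : ∀ y : L, ∃ x : L, x ^ p - x = y) :
    Infinite (IsLocalRing.ResidueField W) := by
  have hp : p.Prime := Fact.out
  by_contra hcon
  have hfin : Finite (IsLocalRing.ResidueField W) := not_infinite_iff_finite.mp hcon
  let f : IsLocalRing.ResidueField W → IsLocalRing.ResidueField W := fun x => x ^ p - x
  have h1 : ¬ Function.Injective f := by
    intro h
    have h2 : f 0 = f 1 := by
      simp only [f]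
      rw [zero_pow hp.ne_zero, one_pow, sub_zero, sub_self]
    exact zero_ne_one (h h2)
  rw [Finite.injective_iff_surjective] at h1
  apply h1
  intro c
  obtain ⟨c, rfl⟩ := IsLocalRing.residue_surjective c
  obtain ⟨x, hx⟩ := hAS c
  have hxW : x ∈ W := by
    rw [← ValuationSubring.valuation_le_one_iff]
    apply mem_of_as W.valuation p
    rw [hx]
    exact (ValuationSubring.valuation_le_one_iff _ _).mpr c.2
  refine ⟨IsLocalRing.residue W ⟨x, hxW⟩, ?_⟩
  show IsLocalRing.residue W ⟨x, hxW⟩ ^ p - IsLocalRing.residue W ⟨x, hxW⟩ = _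
  rw [← map_pow, ← map_sub]
  congr 1
  exact Subtype.ext hx

end

/-- A bound for the coefficients of a product of linear polynomials. -/
theorem coeff_prod_bound {L : Type} [Field L] {Γ : Type} [LinearOrderedCommGroupWithZero Γ]
    (v : Valuation L Γ) {β : Γ} (hβ : β ≤ 1) {ι : Type} (s : Finset ι) {a : ι → L}
    (ha : ∀ i, v (a i) ≤ β) :
    ∀ k, k < s.card → v ((∏ i ∈ s, (X - C (a i))).coeff k) ≤ β := by
  classical
  induction s using Finset.induction_on with
  | empty =>
    intro k hk
    simp at hk
  | insert j s hj ih =>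
    intro k hk
    rw [Finset.prod_insert hj, sub_mul, coeff_sub, coeff_C_mul]
    rw [Finset.card_insert_of_notMem hj] at hk
    set g := ∏ i ∈ s, (X - C (a i)) with hg
    have hmon : g.Monic := monic_prod_of_monic _ _ fun i _ => monic_X_sub_C _
    have hdeg : g.natDegree = s.card := by
      rw [hg, natDegree_prod_of_monic _ _ fun i _ => monic_X_sub_C _]
      simp
    have hone : ∀ k, v (g.coeff k) ≤ 1 := by
      intro k
      rcases lt_trichotomy k s.card with h | h | h
      · exact (ih k h).trans hβ
      · rw [h, ← hdeg, hmon.coeff_natDegree, map_one]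
      · rw [coeff_eq_zero_of_natDegree_lt (by rw [hdeg]; exact h), map_zero]
        exact zero_le_one
    have h2 : v (a j * g.coeff k) ≤ β := by
      rw [map_mul]
      calc v (a j) * v (g.coeff k) ≤ β * 1 := mul_le_mul' (ha j) (hone k)
        _ = β := mul_one β
    refine (v.map_sub _ _).trans (max_le ?_ h2)
    rcases k with _ | k
    · rw [mul_coeff_zero, coeff_X_zero, zero_mul, map_zero]
      exact zero_le
    · rw [coeff_X_mul]
      exact ih k (by omega)

theorem val_le_iff {K : Type} [Field K] {V : ValuationSubring K} {x y : K} (hy : y ≠ 0) :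
    V.valuation x ≤ V.valuation y ↔ x / y ∈ V := by
  rw [← ValuationSubring.valuation_le_one_iff, map_div₀,
    div_le_one₀ (zero_lt_iff.mpr ((Valuation.ne_zero_iff _).mpr hy))]

section

variable {K : Type} [Field K] {L : Type} [Field L] [Algebra K L] {V : ValuationSubring K}
  {W : ValuationSubring L}

theorem ext_le_iff (hW : W.comap (algebraMap K L) = V) (x y : K) :
    W.valuation (algebraMap K L x) ≤ W.valuation (algebraMap K L y) ↔
      V.valuation x ≤ V.valuation y := by
  by_cases hy : y = 0
  · rw [hy, map_zero, map_zero, map_zero, le_zero_iff, le_zero_iff, Valuation.zero_iff,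
      Valuation.zero_iff, map_eq_zero_iff _ (algebraMap K L).injective]
  · rw [val_le_iff hy, val_le_iff fun h => hy ((map_eq_zero_iff _ (algebraMap K L).injective).mp h),
      ← map_div₀, ← hW, ValuationSubring.mem_comap]

theorem ext_lt_iff (hW : W.comap (algebraMap K L) = V) (x y : K) :
    W.valuation (algebraMap K L x) < W.valuation (algebraMap K L y) ↔
      V.valuation x < V.valuation y := by
  rw [← not_le, ← not_le, ext_le_iff hW]

theorem ext_lt_one (hW : W.comap (algebraMap K L) = V) (x : K) :
    W.valuation (algebraMap K L x) < 1 ↔ V.valuation x < 1 := by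
  have h := ext_lt_iff hW x 1
  rwa [map_one, map_one, map_one] at h

theorem ext_le_one (hW : W.comap (algebraMap K L) = V) (x : K) :
    W.valuation (algebraMap K L x) ≤ 1 ↔ V.valuation x ≤ 1 := by
  have h := ext_le_iff hW x 1
  rwa [map_one, map_one, map_one] at h

end

section

variable {K : Type} [Field K] {L : Type} [Field L] [Algebra K L] [FiniteDimensional K L]

/-- The elements with small characteristic polynomial. -/
def Dset (S : Set K) (L : Type) [Field L] [Algebra K L] : Set L :=
  {x | ∃ c : Fin (Module.finrank K L) → K, (∀ i, c i ∈ S) ∧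
    x ^ Module.finrank K L + ∑ i, algebraMap K L (c i) * x ^ (i : ℕ) = 0}

theorem mem_Dset [IsGalois K L] {V : ValuationSubring K} {W : ValuationSubring L}
    (hW : W.comap (algebraMap K L) = V) {S : Set K} {b : K} (hb1 : V.valuation b < 1)
    (hS2 : ∀ x, V.valuation x ≤ V.valuation b → x ∈ S) {x : L}
    (hx : ∀ σ : L ≃ₐ[K] L, W.valuation (σ x) ≤ W.valuation (algebraMap K L b)) :
    x ∈ Dset S L := by
  classical
  set F : L[X] := ∏ σ : L ≃ₐ[K] L, (X - C (σ x)) with hF
  have hcard : Fintype.card (L ≃ₐ[K] L) = Module.finrank K L := by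
    rw [← Nat.card_eq_fintype_card]
    exact IsGalois.card_aut_eq_finrank K L
  have hmon : F.Monic := monic_prod_of_monic _ _ fun i _ => monic_X_sub_C _
  have hdeg : F.natDegree = Module.finrank K L := by
    rw [hF, natDegree_prod_of_monic _ _ fun i _ => monic_X_sub_C _]
    simp [hcard]
  have hfix : ∀ τ : L ≃ₐ[K] L, F.map (τ : L →+* L) = F := by
    intro τ
    rw [hF, Polynomial.map_prod]
    refine Fintype.prod_equiv (Equiv.mulLeft τ) _ _ fun σ => ?_
    rw [Polynomial.map_sub, map_X, map_C]
    rfl
  have hcoef : ∀ k, ∃ c : K, algebraMap K L c = F.coeff k := by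
    intro k
    have h1 : F.coeff k ∈ Set.range (algebraMap K L) := by
      rw [IsGalois.mem_range_algebraMap_iff_fixed]
      intro τ
      have h2 := congrArg (fun G : L[X] => G.coeff k) (hfix τ)
      simp only [coeff_map] at h2
      exact h2
    exact h1
  choose c hc using hcoef
  refine ⟨fun i => c i, fun i => hS2 _ ?_, ?_⟩
  · rw [← ext_le_iff hW, hc]
    refine coeff_prod_bound W.valuation ?_ Finset.univ hx i ?_
    · exact ((ext_lt_one hW b).mpr hb1).le
    · rw [Finset.card_univ, hcard]
      exact i.2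
  · have h1 : F.eval x = 0 := by
      rw [hF, eval_prod]
      refine Finset.prod_eq_zero (Finset.mem_univ 1) ?_
      simp
    rw [eval_eq_sum_range, hdeg, Finset.sum_range_succ, ← hdeg, hmon.coeff_natDegree, one_mul,
      hdeg, add_comm] at h1
    rw [← h1, Finset.sum_range]
    congr 1
    exact Finset.sum_congr rfl fun i _ => by rw [hc]

omit [FiniteDimensional K L] in
theorem val_of_mem_Dset {V : ValuationSubring K} {W : ValuationSubring L}
    (hW : W.comap (algebraMap K L) = V) {S : Set K} (hS1 : ∀ x ∈ S, V.valuation x < 1) {x : L}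
    (hx : x ∈ Dset S L) : W.valuation x < 1 := by
  obtain ⟨c, hc, h⟩ := hx
  by_contra hcon
  push Not at hcon
  have hxn : 0 < W.valuation (x ^ Module.finrank K L) := by
    rw [map_pow]
    exact pow_pos (zero_lt_one.trans_le hcon) _
  have h1 : W.valuation (∑ i, algebraMap K L (c i) * x ^ (i : ℕ)) <
      W.valuation (x ^ Module.finrank K L) := by
    refine Valuation.map_sum_lt _ hxn.ne' fun i _ => ?_
    rw [map_mul, map_pow, map_pow]
    have h2 : W.valuation (algebraMap K L (c i)) < 1 := (ext_lt_one hW _).mpr (hS1 _ (hc i))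
    have h3 : W.valuation x ^ (i : ℕ) ≤ W.valuation x ^ Module.finrank K L :=
      pow_le_pow_right₀ hcon i.2.le
    have h4 : 0 < W.valuation x ^ (i : ℕ) := pow_pos (zero_lt_one.trans_le hcon) _
    exact (mul_lt_of_lt_one_left h4 h2).trans_le h3
  have h5 : W.valuation (x ^ Module.finrank K L) =
      W.valuation (∑ i, algebraMap K L (c i) * x ^ (i : ℕ)) := by
    rw [eq_neg_of_add_eq_zero_left h, Valuation.map_neg]
  exact absurd h5 h1.ne'

end

theorem PM.pow {K : Type} [Field K] [FirstOrder.Ring.CompatibleRing K] {M : Type} [Field M]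
    [Algebra K M] {d : ℕ} {B : Module.Basis (Fin d) K M} {γ : Type} {F : (γ → K) → M}
    (hF : PM B F) (n : ℕ) : PM B (fun v => F v ^ n) := by
  induction n with
  | zero =>
    simp only [pow_zero]
    exact PM.const 1
  | succ n ih =>
    simp only [pow_succ]
    exact ih.mul hF

theorem PM.sub {K : Type} [Field K] [FirstOrder.Ring.CompatibleRing K] {M : Type} [Field M]
    [Algebra K M] {d : ℕ} {B : Module.Basis (Fin d) K M} {γ : Type} {F G : (γ → K) → M}
    (hF : PM B F) (hG : PM B G) : PM B (fun v => F v - G v) := by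
  simp only [sub_eq_add_neg]
  exact hF.add hG.neg

theorem PD_Dset {K : Type} [Field K] [FirstOrder.Ring.CompatibleRing K] {M : Type} [Field M]
    [Algebra K M] {d : ℕ} {B : Module.Basis (Fin d) K M} {γ : Type} {F : (γ → K) → M}
    (hF : PM B F) {S : Set K} (hS : IsDefinable S) : PD (fun v => F v ∈ Dset S M) := by
  apply PD.ex
  refine PD.and (PD.all_fin fun i => PD.mem hS (PT.var (Sum.inr i))) ?_
  refine PM.eq (B := B) (((hF.comp Sum.inl).pow _).add (PM.sum _ fun i =>
    (PM.algebraMap (PT.var (Sum.inr i))).mul ((hF.comp Sum.inl).pow _))) (PM.const 0)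

/-- Residues of an element at the conjugates of a valuation, which belong to the prime field up to
a small error, are equal. -/
theorem lemJ_fin {K : Type} [Field K] [FirstOrder.Ring.CompatibleRing K] (hK : NIPField K)
    [Infinite K] (p : ℕ) [Fact p.Prime] [CharP K p] {L : Type} [Field L] [Algebra K L]
    [FiniteDimensional K L] [IsGalois K L] {V : ValuationSubring K} {W : ValuationSubring L}
    (hW : W.comap (algebraMap K L) = V) {S : Set K} (hS : IsDefinable S)
    (hS1 : ∀ x ∈ S, V.valuation x < 1) {b : K}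
    (hS2 : ∀ x, V.valuation x ≤ V.valuation b → x ∈ S) {e : L} {c : (L ≃ₐ[K] L) → ℤ}
    (he : ∀ σ, W.valuation (σ e - (c σ : L)) ≤ W.valuation (algebraMap K L b))
    (σ : L ≃ₐ[K] L) : ((c σ : ℤ) : L) = (c 1 : ℤ) := by
  classical
  have hcharL : CharP L p := charP_of_injective_algebraMap (algebraMap K L).injective p
  let iL : FirstOrder.Ring.CompatibleRing L := FirstOrder.Ring.compatibleRingOfRing L
  have hinfL : Infinite L := Infinite.of_injective _ (algebraMap K L).injective
  have hASL : ∀ y : L, ∃ x : L, x ^ p - x = y := as_closed (nip_ext L hK) p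
  have hASK : ∀ y : K, ∃ x : K, x ^ p - x = y := as_closed hK p
  have hres : Infinite (IsLocalRing.ResidueField V) := infinite_residue p hASK
  have hb1 : V.valuation b < 1 := hS1 b (hS2 b le_rfl)
  set β := W.valuation (algebraMap K L b) with hβ
  have hβ1 : β < 1 := (ext_lt_one hW b).mpr hb1
  have hsm : ∀ (r : V) (x : L), r • x = algebraMap K L r * x := fun r x => by
    rw [← Algebra.smul_def]
    rfl
  have hV1 : ∀ r : V, W.valuation (algebraMap K L r) ≤ 1 := fun r =>
    (ext_le_one hW _).mpr ((ValuationSubring.valuation_le_one_iff _ _).mpr r.2)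
  let J : Submodule V L :=
    { carrier := {x | ∀ σ : L ≃ₐ[K] L, W.valuation (σ x) ≤ β}
      add_mem' := fun {x y} hx hy σ => by
        rw [map_add]
        exact (W.valuation.map_add _ _).trans (max_le (hx σ) (hy σ))
      zero_mem' := fun σ => by
        rw [map_zero, map_zero]
        exact zero_le
      smul_mem' := fun r x hx σ => by
        rw [hsm, map_mul, AlgEquiv.commutes, map_mul]
        exact (mul_le_of_le_one_left' (hV1 r)).trans (hx σ) }
  have hJmem : ∀ x : L, x ∈ J ↔ ∀ σ : L ≃ₐ[K] L, W.valuation (σ x) ≤ β := fun x => Iff.rfl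
  -- the Artin-Schreier map
  let f : L →+ L := (frobenius L p).toAddMonoidHom - AddMonoidHom.id L
  have hf : ∀ x, f x = x ^ p - x := fun x => rfl
  have hJf : ∀ z, z ∈ J → z ^ p - z ∈ J := by
    intro z hz σ
    rw [map_sub, map_pow, val_as W.valuation p ((hz σ).trans_lt hβ1)]
    exact hz σ
  have hfJ : ∀ z, (∀ σ : L ≃ₐ[K] L, W.valuation (σ z) < 1) → z ^ p - z ∈ J → z ∈ J := by
    intro z hz h σ
    have h1 := h σ
    rw [map_sub, map_pow, val_as W.valuation p (hz σ)] at h1
    exact h1
  let g : J →+ L := f.comp J.toAddSubgroup.subtype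
  let H : AddSubgroup J := g.range.comap J.toAddSubgroup.subtype
  have hH : ∀ y : J, y ∈ H ↔ ∃ z ∈ J, z ^ p - z = (y : L) := by
    intro y
    constructor
    · rintro ⟨z, hz⟩
      exact ⟨z, z.2, hz⟩
    · rintro ⟨z, hz, h⟩
      exact ⟨⟨z, hz⟩, h⟩
  -- finite index
  have hcs : ∀ y : J, ∃ (z : L) (t : (L ≃ₐ[K] L) → ℤ), z ^ p - z = y ∧
      ∀ σ, W.valuation (σ z - (t σ : L)) ≤ β := by
    intro y
    obtain ⟨z, hz⟩ := hASL y
    have h1 : ∀ σ : L ≃ₐ[K] L, ∃ n : ℤ, W.valuation (σ z - (n : L)) ≤ β := by
      intro σ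
      apply exists_int_near p hβ1
      rw [← map_pow, ← map_sub, hz]
      exact y.2 σ
    choose t ht using h1
    exact ⟨z, t, hz, ht⟩
  choose z t hz ht using hcs
  have hHi : H.index ≠ 0 := by
    have hfin : Finite (J ⧸ H) := by
      refine Finite.of_injective
        (fun (q : J ⧸ H) (σ : L ≃ₐ[K] L) => ((t (Quotient.out q) σ : ℤ) : ZMod p)) ?_
      intro q q' hqq
      have h1 : ∀ σ, ((t (Quotient.out q) σ : ℤ) : L) = (t (Quotient.out q') σ : ℤ) := by
        intro σ
        have h2 := congrFun hqq σ
        simp only at h2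
        have h3 := congrArg (ZMod.castHom (dvd_refl p) L) h2
        simpa using h3
      have h2 : -(Quotient.out q) + Quotient.out q' ∈ H := by
        rw [hH]
        refine ⟨z (Quotient.out q') - z (Quotient.out q), fun σ => ?_, ?_⟩
        · have h3 : σ (z (Quotient.out q') - z (Quotient.out q)) =
              (σ (z (Quotient.out q')) - (t (Quotient.out q') σ : L)) -
                (σ (z (Quotient.out q)) - (t (Quotient.out q) σ : L)) := by
            rw [map_sub, h1 σ]
            ring
          rw [h3]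
          exact (W.valuation.map_sub _ _).trans (max_le (ht _ σ) (ht _ σ))
        · rw [sub_pow_char]
          have h3 := hz (Quotient.out q)
          have h4 := hz (Quotient.out q')
          push_cast
          rw [← h3, ← h4]
          ring
      have h3 : (QuotientAddGroup.mk (Quotient.out q) : J ⧸ H) =
          QuotientAddGroup.mk (Quotient.out q') := QuotientAddGroup.eq.mpr h2
      rw [QuotientAddGroup.out_eq', QuotientAddGroup.out_eq'] at h3
      exact h3
    exact AddSubgroup.index_ne_zero_of_finite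
  -- the chain condition
  let B := Module.finBasis K L
  have hR : PD (fun w : Unit ⊕ Fin (Module.finrank K L) → K =>
      ∃ u : Fin (Module.finrank K L) → K, (∑ j, u j • B j) ∈ Dset S L ∧
        (∑ j, u j • B j) ^ p - (∑ j, u j • B j) = algebraMap K L (w (Sum.inl ())) *
          ∑ j, w (Sum.inr j) • B j) := by
    apply PD.ex
    have h1 : PM B (fun w : (Unit ⊕ Fin (Module.finrank K L)) ⊕ Fin (Module.finrank K L) → K =>
        ∑ j, w (Sum.inr j) • B j) := PM.sum _ fun j => PM.smul (PT.var _) (PM.const _)
    refine PD.and (PD_Dset h1 hS) (PM.eq (B := B) ((h1.pow p).sub h1) ?_)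
    exact (PM.algebraMap (PT.var _)).mul (PM.sum _ fun j => PM.smul (PT.var _) (PM.const _))
  have hBS : ∃ n : ℕ, ∀ r : Fin n → V, ∃ j, ∀ g : J, (∀ i, i ≠ j → r i • g ∈ H) →
      r j • g ∈ H := by
    refine baldwin_saxl hK hR (G := J) (I := V) (fun x j => B.repr (x : L) j) (fun r _ => (r : K))
      (fun r => H.comap (DistribSMul.toAddMonoidHom J r)) ?_
    intro r x
    have h1 : (∑ j, B.repr (x : L) j • B j) = x := B.sum_repr _
    have h2 : x ∈ H.comap (DistribSMul.toAddMonoidHom J r) ↔ ∃ z ∈ J, z ^ p - z =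
        algebraMap K L r * x := by
      rw [AddSubgroup.mem_comap, hH, ← hsm]
      rfl
    rw [h2]
    simp only [Sum.elim_inl, Sum.elim_inr]
    rw [h1]
    constructor
    · rintro ⟨u, hu1, hu2⟩
      refine ⟨_, hfJ _ (fun σ => ?_) ?_, hu2⟩
      · have h3 : σ (∑ j, u j • B j) ∈ Dset S L := by
          obtain ⟨c, hc1, hc2⟩ := hu1
          refine ⟨c, hc1, ?_⟩
          have h4 := congrArg σ hc2
          simpa only [map_add, map_pow, map_sum, map_mul, AlgEquiv.commutes, map_zero] using h4
        exact val_of_mem_Dset hW hS1 h3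
      · rw [hu2, ← hsm]
        exact J.smul_mem r x.2
    · rintro ⟨z, hz, h⟩
      refine ⟨fun j => B.repr z j, ?_, ?_⟩
      · rw [B.sum_repr]
        exact mem_Dset hW hb1 hS2 hz
      · rw [B.sum_repr]
        exact h
  have htop := eq_top_of_module hres H hHi hBS
  -- conclusion
  have hy : e ^ p - e ∈ J := by
    intro σ
    have h1 : σ (e ^ p - e) = (σ e - (c σ : L)) ^ p - (σ e - (c σ : L)) := by
      rw [map_sub, map_pow, sub_pow_char, int_pow]
      ring
    rw [h1, val_as W.valuation p ((he σ).trans_lt hβ1)]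
    exact he σ
  have h1 : (⟨e ^ p - e, hy⟩ : J) ∈ H := by
    rw [htop]
    trivial
  rw [hH] at h1
  obtain ⟨z, hzJ, hz⟩ := h1
  obtain ⟨n, hn⟩ := exists_int_of_pow_eq p (x := e - z) (by
    rw [sub_pow_char]
    have h2 : z ^ p - z = e ^ p - e := hz
    linear_combination -h2)
  have h2 : ∀ σ : L ≃ₐ[K] L, ((n : ℤ) : L) = (c σ : ℤ) := by
    intro σ
    apply int_eq W.valuation p
    have h3 : ((n : ℤ) : L) - (c σ : ℤ) = (σ e - (c σ : L)) - σ z := by
      have h4 := congrArg σ hn
      rw [map_intCast, map_sub] at h4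
      rw [h4]
      ring
    rw [h3]
    exact (W.valuation.map_sub _ _).trans_lt (max_lt ((he σ).trans_lt hβ1) ((hzJ σ).trans_lt hβ1))
  rw [← h2 σ, ← h2 1]

end Pool.Agent.Q175.NFC
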