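import Pool.Agent.Q175.NFC.Gap
import Mathlib.FieldTheory.KummerExtension

/-!
# Norm groups of tamely ramified extensions of prime degree
-/

set_option autoImplicit false

namespace Pool.Agent.Q175.NFC

open Polynomial IsLocalRing Module

section

variable {M : Type} [Field M] (W : ValuationSubring M) {q : ℕ} (hq : q.Prime) {a : M}
  (h1 : ∀ g : M, W.valuation g ^ q ≠ W.valuation a)

include hq h1

theorem ram_distinct {x y : M} (hx : x ≠ 0) (hy : y ≠ 0) {i j : ℕ} (hij : i < j) (hj : j < q) :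
    W.valuation (x ^ q * a ^ i) ≠ W.valuation (y ^ q * a ^ j) := by
  intro h
  have ha0 : a ≠ 0 := by
    rintro rfl
    apply h1 0
    rw [map_zero, zero_pow hq.ne_zero]
  have hcop : Nat.Coprime (j - i) q := by
    apply Nat.Coprime.symm
    rw [Nat.Prime.coprime_iff_not_dvd hq]
    intro hd
    have := Nat.le_of_dvd (by omega) hd
    omega
  obtain ⟨m, hm⟩ : ∃ m : ℕ, (j - i) * m ≡ 1 [MOD q] := by
    have h2 := Nat.exists_mul_mod_eq_one_of_coprime hcop hq.one_lt
    obtain ⟨m, _, hm⟩ := h2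
    exact ⟨m, by rw [Nat.ModEq, hm, Nat.mod_eq_of_lt hq.one_lt]⟩
  obtain ⟨l, hl⟩ : ∃ l : ℕ, (j - i) * m = 1 + l * q := by
    have h3 : 1 ≤ (j - i) * m := by
      by_contra hcon
      have h4 : (j - i) * m = 0 := by omega
      rw [h4, Nat.ModEq, Nat.zero_mod, Nat.mod_eq_of_lt hq.one_lt] at hm
      exact zero_ne_one hm
    obtain ⟨l, hl⟩ := (Nat.modEq_iff_dvd' h3).mp hm.symm
    exact ⟨l, by rw [mul_comm l q]; omega⟩
  have h2 : W.valuation (a ^ (j - i)) = W.valuation ((x / y) ^ q) := by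
    have h3 : W.valuation (y ^ q * a ^ i) ≠ 0 :=
      (Valuation.ne_zero_iff _).mpr (mul_ne_zero (pow_ne_zero _ hy) (pow_ne_zero _ ha0))
    apply mul_left_cancel₀ h3
    rw [← map_mul, ← map_mul]
    have h4 : y ^ q * a ^ i * a ^ (j - i) = y ^ q * a ^ j := by
      rw [mul_assoc, ← pow_add]
      congr 2
      omega
    have h5 : y ^ q * a ^ i * (x / y) ^ q = x ^ q * a ^ i := by
      rw [div_pow]
      field_simp
    rw [h4, h5]
    exact h.symm
  apply h1 ((x / y) ^ m / a ^ l)
  rw [← map_pow]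
  have h6 : ((x / y) ^ m / a ^ l) ^ q = ((x / y) ^ q) ^ m / a ^ (l * q) := by
    rw [div_pow, ← pow_mul, ← pow_mul, ← pow_mul, mul_comm m q]
  have h7 : a = (a ^ (j - i)) ^ m / a ^ (l * q) := by
    rw [← pow_mul, hl, pow_add, pow_one, mul_div_cancel_right₀ _ (pow_ne_zero _ ha0)]
  rw [h6, map_div₀, map_pow, ← h2, ← map_pow, ← map_div₀, ← h7]

theorem ram_norm [Fact (Irreducible (X ^ q - C a))] (hqM : (q : M) ≠ 0)
    (z : AdjoinRoot (X ^ q - C a)) (hz : z ≠ 0) :
    ∃ (x : M) (i : ℕ), W.valuation (Algebra.norm M z) = W.valuation (x ^ q * a ^ i) := by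
  classical
  have ha0 : a ≠ 0 := by
    rintro rfl
    apply h1 0
    rw [map_zero, zero_pow hq.ne_zero]
  have hGm : (X ^ q - C a : M[X]).Monic := monic_X_pow_sub_C a hq.ne_zero
  have hGd : (X ^ q - C a : M[X]).natDegree = q := natDegree_X_pow_sub_C
  have hGi : Irreducible (X ^ q - C a : M[X]) := Fact.out
  have hGs : (X ^ q - C a : M[X]).Separable := separable_X_pow_sub_C a hqM ha0
  have hfin : FiniteDimensional M (AdjoinRoot (X ^ q - C a)) := hGm.finite_adjoinRoot
  have hsep : Algebra.IsSeparable M (AdjoinRoot (X ^ q - C a)) :=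
    TH686.NF.isSeparable_adjoinRoot hGi hGs
  obtain ⟨Y0, hY0⟩ := AdjoinRoot.mk_surjective z
  set Y := Y0 %ₘ (X ^ q - C a) with hY
  have hmk : z = AdjoinRoot.mk (X ^ q - C a) Y := by
    rw [← hY0, AdjoinRoot.mk_eq_mk, hY, modByMonic_eq_sub_mul_div, sub_sub_cancel]
    exact dvd_mul_right _ _
  have hYne : Y ≠ 0 := by
    intro h
    rw [h, map_zero] at hmk
    exact hz hmk
  have hYd : ∀ i ∈ Y.support, i < q := by
    intro i hi
    have h2 : Y.degree < (X ^ q - C a : M[X]).degree := degree_modByMonic_lt _ hGm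
    rw [degree_X_pow_sub_C hq.pos] at h2
    have h3 := le_degree_of_mem_supp i hi
    exact_mod_cast lt_of_le_of_lt h3 h2
  set t : ℕ → M := fun i => Y.coeff i ^ q * a ^ i with ht
  obtain ⟨i₀, hi₀, hmax⟩ := Y.support.exists_max_image (fun i => W.valuation (t i))
    (nonempty_support_iff.2 hYne)
  have hlt : ∀ i ∈ Y.support \ {i₀}, W.valuation (t i) < W.valuation (t i₀) := by
    intro i hi
    rw [Finset.mem_sdiff, Finset.mem_singleton] at hi
    refine lt_of_le_of_ne (hmax i hi.1) ?_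
    have hci : Y.coeff i ≠ 0 := mem_support_iff.mp hi.1
    have hci₀ : Y.coeff i₀ ≠ 0 := mem_support_iff.mp hi₀
    rcases lt_or_gt_of_ne hi.2 with h2 | h2
    · exact ram_distinct W hq h1 hci hci₀ h2 (hYd _ hi₀)
    · exact (ram_distinct W hq h1 hci₀ hci h2 (hYd _ hi.1)).symm
  refine ⟨Y.coeff i₀, i₀, ?_⟩
  obtain ⟨WE, hWE⟩ := exists_ext (E := AlgebraicClosure M) W
  have hconj : ∀ σ : AdjoinRoot (X ^ q - C a) →ₐ[M] AlgebraicClosure M,
      WE.valuation (σ z) ^ q = WE.valuation (algebraMap M (AlgebraicClosure M) (t i₀)) := by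
    intro σ
    set β := σ (AdjoinRoot.root (X ^ q - C a)) with hβ
    have hβq : β ^ q = algebraMap M (AlgebraicClosure M) a := by
      rw [hβ, ← map_pow, ← AlgHom.commutes σ a]
      congr 1
      have h2 := AdjoinRoot.eval₂_root (X ^ q - C a)
      rw [eval₂_sub, eval₂_X_pow, eval₂_C, sub_eq_zero] at h2
      exact h2
    have hσz : σ z = ∑ i ∈ Y.support, algebraMap M (AlgebraicClosure M) (Y.coeff i) * β ^ i := by
      have h2 : z = aeval (AdjoinRoot.root (X ^ q - C a)) Y := by
        rw [AdjoinRoot.aeval_eq]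
        exact hmk
      rw [h2, ← aeval_algHom_apply, aeval_def, eval₂_eq_sum, Polynomial.sum_def]
    have hterm : ∀ i, WE.valuation (algebraMap M (AlgebraicClosure M) (Y.coeff i) * β ^ i) ^ q =
        WE.valuation (algebraMap M (AlgebraicClosure M) (t i)) := by
      intro i
      rw [← map_pow, mul_pow, ← pow_mul, mul_comm i q, pow_mul, hβq, ht, ← map_pow, ← map_pow,
        ← map_mul]
    have h2 : WE.valuation (σ z) =
        WE.valuation (algebraMap M (AlgebraicClosure M) (Y.coeff i₀) * β ^ i₀) := by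
      rw [hσz]
      refine Valuation.map_sum_eq_of_lt _ hi₀ ?_
      intro i hi
      refine lt_of_pow_lt_pow_left₀ q zero_le ?_
      rw [hterm, hterm, ext_lt_iff hWE]
      exact hlt i hi
    rw [h2, hterm]
  have hnorm := Algebra.norm_eq_prod_embeddings M (AlgebraicClosure M) z
  have hcard : Fintype.card (AdjoinRoot (X ^ q - C a) →ₐ[M] AlgebraicClosure M) = q := by
    rw [AlgHom.card]
    exact (AdjoinRoot.powerBasis hGm.ne_zero).finrank.trans hGd
  have h2 : WE.valuation (algebraMap M (AlgebraicClosure M) (Algebra.norm M z)) ^ q =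
      WE.valuation (algebraMap M (AlgebraicClosure M) (t i₀)) ^ q := by
    rw [hnorm, map_prod, ← Finset.prod_pow, Finset.prod_congr rfl fun σ _ => hconj σ,
      Finset.prod_const, Finset.card_univ, hcard]
  have h3 := (pow_left_inj₀ zero_le zero_le hq.ne_zero).mp h2
  exact le_antisymm ((ext_le_iff hWE _ _).mp h3.le) ((ext_le_iff hWE _ _).mp h3.ge)

/-- Value groups with two elements which are independent modulo `q`. -/
theorem gap_ram (hqM : (q : M) ≠ 0) {b : M}
    (h2 : ∀ (g : M) (i : ℕ), W.valuation (g ^ q * a ^ i) ≠ W.valuation b) : NormGap W := by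
  have ha0 : a ≠ 0 := by
    rintro rfl
    apply h1 0
    rw [map_zero, zero_pow hq.ne_zero]
  have hb0 : b ≠ 0 := by
    rintro rfl
    apply h2 0 0
    rw [zero_pow hq.ne_zero, zero_mul]
  have hGi : Irreducible (X ^ q - C a : M[X]) := by
    apply X_pow_sub_C_irreducible_of_prime hq
    intro x hx
    exact h1 x (by rw [← map_pow, hx])
  have hGm : (X ^ q - C a : M[X]).Monic := monic_X_pow_sub_C a hq.ne_zero
  have hGs : (X ^ q - C a : M[X]).Separable := separable_X_pow_sub_C a hqM ha0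
  have hfac : Fact (Irreducible (X ^ q - C a : M[X])) := ⟨hGi⟩
  refine ⟨AdjoinRoot (X ^ q - C a), inferInstance, inferInstance, hGm.finite_adjoinRoot,
    TH686.NF.isSeparable_adjoinRoot hGi hGs, b, b, hb0, ?_⟩
  intro z
  by_contra hcon
  push Not at hcon
  have hfin : FiniteDimensional M (AdjoinRoot (X ^ q - C a)) := hGm.finite_adjoinRoot
  by_cases hz : z = 0
  · rw [hz, Algebra.norm_zero, zero_sub, Valuation.map_neg] at hcon
    exact lt_irrefl _ hcon
  have h3 : W.valuation (Algebra.norm M z) = W.valuation b := by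
    have h4 : Algebra.norm M z = (Algebra.norm M z - b) + b := by ring
    rw [h4, Valuation.map_add_eq_of_lt_right _ hcon]
  obtain ⟨x, i, hxi⟩ := ram_norm W hq h1 hqM z hz
  exact h2 x i (by rw [← hxi, h3])

end

end Pool.Agent.Q175.NFC
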