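import Pool.Agent.Q175.NFC.Hens

/-!
# Roots of elements near the unit element
-/

set_option autoImplicit false

open Polynomial

namespace Pool.Agent.Q175.NFC

open Pool.Agent.W882.Nip3 Pool.Agent.Q175.NF

theorem idem_cases {E : Type} [Field E] {Γ : Type} [LinearOrderedCommGroupWithZero Γ]
    (v : Valuation E Γ) (p : ℕ) [Fact p.Prime] [CharP E p] {q : ℕ} (hq : (q : E) ≠ 0) {β : Γ}
    {a : E} (ha : v (a ^ q - 1) ≤ β) :
    (v (a - 1) < 1 ∧ v (∑ i ∈ Finset.range q, a ^ i) = 1 ∧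
      v ((q : E)⁻¹ * ∑ i ∈ Finset.range q, a ^ i - 1) ≤ β) ∨
    (1 ≤ v (a - 1) ∧ v ((q : E)⁻¹ * ∑ i ∈ Finset.range q, a ^ i) ≤ β) := by
  have hvq : v (q : E) = 1 := by
    have h := val_int v p (n := (q : ℤ)) (by simpa using hq)
    simpa using h
  have hmul : (a - 1) * ∑ i ∈ Finset.range q, a ^ i = a ^ q - 1 := mul_geom_sum _ _
  rcases lt_or_ge (v (a - 1)) 1 with h | h
  · left
    have ha1 : v a ≤ 1 := by
      have h1 : a = (a - 1) + 1 := by ring
      rw [h1]
      exact (v.map_add _ _).trans (max_le h.le (by rw [map_one]))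
    have hi : ∀ i : ℕ, v (a ^ i - 1) ≤ v (a - 1) := by
      intro i
      rw [← mul_geom_sum, map_mul]
      refine mul_le_of_le_one_right' ?_
      refine Valuation.map_sum_le _ fun j _ => ?_
      rw [map_pow]
      exact pow_le_one' ha1 j
    have h1 : v (∑ i ∈ Finset.range q, a ^ i - q) ≤ v (a - 1) := by
      have h2 : ∑ i ∈ Finset.range q, a ^ i - q = ∑ i ∈ Finset.range q, (a ^ i - 1) := by
        rw [Finset.sum_sub_distrib]
        simp
      rw [h2]
      exact Valuation.map_sum_le _ fun j _ => hi j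
    have h2 : v (∑ i ∈ Finset.range q, a ^ i) = 1 := by
      have h3 : ∑ i ∈ Finset.range q, a ^ i = (∑ i ∈ Finset.range q, a ^ i - q) + q := by ring
      rw [h3, Valuation.map_add_eq_of_lt_right _ (by rw [hvq]; exact h1.trans_lt h), hvq]
    refine ⟨h, h2, ?_⟩
    have h3 : (q : E)⁻¹ * ∑ i ∈ Finset.range q, a ^ i - 1 =
        (q : E)⁻¹ * (∑ i ∈ Finset.range q, a ^ i - q) := by
      field_simp
    have h4 : v (a - 1) ≤ β := by
      rw [← hmul, map_mul, h2, mul_one] at ha
      exact ha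
    rw [h3, map_mul, map_inv₀, hvq, inv_one, one_mul]
    exact h1.trans h4
  · right
    refine ⟨h, ?_⟩
    rw [map_mul, map_inv₀, hvq, inv_one, one_mul]
    rw [← hmul, map_mul] at ha
    exact (le_mul_of_one_le_left' h).trans ha

section

variable {K : Type} [Field K] [FirstOrder.Ring.CompatibleRing K] (hK : NIPField K)
    [Infinite K] (p : ℕ) [Fact p.Prime] [CharP K p] {Om : Type} [Field Om] [Algebra K Om]
    [IsGalois K Om] {V : ValuationSubring K} {W : ValuationSubring Om}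
    (hW : W.comap (algebraMap K Om) = V) {S : Set K} (hS : IsDefinable S)
    (hS1 : ∀ x ∈ S, V.valuation x < 1) {b : K}
    (hS2 : ∀ x, V.valuation x ≤ V.valuation b → x ∈ S) (hb0 : b ≠ 0)

include hK p hW hS hS1 hS2 hb0 in
theorem root_fixed {q : ℕ} (hq : q.Prime) (hqp : (q : Om) ≠ 0) {ζ : Om}
    (hζ : IsPrimitiveRoot ζ q) {α : Om}
    (hα : W.valuation (α ^ q - 1) ≤ W.valuation (algebraMap K Om (b ^ 2)))
    (σ₀ : Om ≃ₐ[K] Om) (h1 : σ₀ ζ = ζ) (h2 : σ₀ (α ^ q) = α ^ q) : σ₀ α = α := by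
  classical
  have hcharO : CharP Om p := charP_of_injective_algebraMap (algebraMap K Om).injective p
  have hb1 : V.valuation b < 1 := hS1 b (hS2 b le_rfl)
  set β := W.valuation (algebraMap K Om b) with hβ
  have hβ1 : β < 1 := (ext_lt_one hW b).mpr hb1
  have hα1 : W.valuation (α ^ q - 1) < 1 := by
    refine hα.trans_lt ?_
    rw [map_pow, map_pow]
    exact pow_lt_one₀ zero_le hβ1 two_ne_zero
  have hall : ∀ σ : Om ≃ₐ[K] Om, W.valuation (σ (α ^ q - 1)) ≤ β := fun σ =>
    conj_small hK p hW hS hS1 hS2 hb0 hα σ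
  -- the nearest root of unity
  obtain ⟨μ, hμ, hμ1⟩ : ∃ μ : Om, μ ^ q = 1 ∧ W.valuation (α - μ) < 1 := by
    have h3 : α ^ q - 1 = ∏ μ ∈ nthRootsFinset q (1 : Om), (α - μ) := by
      have h4 := congrArg (eval α) (X_pow_sub_one_eq_prod hq.pos hζ)
      rw [eval_prod] at h4
      simpa using h4
    by_contra hcon
    push Not at hcon
    rw [h3, map_prod] at hα1
    refine absurd hα1 (not_lt.mpr (Finset.one_le_prod' fun μ hμ => hcon μ ?_))
    exact (mem_nthRootsFinset hq.pos (1 : Om)).mp hμ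
  have hμ0 : μ ≠ 0 := by
    rintro rfl
    rw [zero_pow hq.ne_zero] at hμ
    exact zero_ne_one hμ
  have hvμ : W.valuation μ = 1 := by
    have h3 := congrArg W.valuation hμ
    rw [map_pow, map_one] at h3
    exact (pow_eq_one_iff.mp h3).resolve_right hq.ne_zero
  set a : Om := α / μ with ha
  have haq : a ^ q = α ^ q := by rw [ha, div_pow, hμ, div_one]
  have ha1 : W.valuation (a - 1) < 1 := by
    have h3 : a - 1 = (α - μ) / μ := by
      rw [ha]
      field_simp
    rw [h3, map_div₀, hvμ, div_one]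
    exact hμ1
  have hva : W.valuation a = 1 := by
    have h3 : a = (a - 1) + 1 := by ring
    rw [h3, Valuation.map_add_eq_of_lt_right _ (by rw [map_one]; exact ha1), map_one]
  have ha0 : a ≠ 0 := by
    intro h
    rw [h, map_zero] at hva
    exact zero_ne_one hva
  let c : (Om ≃ₐ[K] Om) → ℤ := fun σ => if W.valuation (σ a - 1) < 1 then 1 else 0
  have hc := lemJ hK p hW hS hS1 hS2 (e := (q : Om)⁻¹ * ∑ i ∈ Finset.range q, a ^ i) (c := c) (by
    intro σ
    have h3 : σ ((q : Om)⁻¹ * ∑ i ∈ Finset.range q, a ^ i) =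
        (q : Om)⁻¹ * ∑ i ∈ Finset.range q, σ a ^ i := by
      rw [map_mul, map_inv₀, map_natCast, map_sum]
      simp only [map_pow]
    have h4 : W.valuation (σ a ^ q - 1) ≤ β := by
      have h5 : σ a ^ q - 1 = σ (α ^ q - 1) := by rw [← haq, map_sub, map_pow, map_one]
      rw [h5]
      exact hall σ
    rw [h3]
    rcases idem_cases W.valuation p hqp h4 with ⟨h5, _, h6⟩ | ⟨h5, h6⟩
    · have h7 : ((c σ : ℤ) : Om) = 1 := by simp only [c, h5, if_true, Int.cast_one]
      rw [h7]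
      exact h6
    · have h7 : ((c σ : ℤ) : Om) = 0 := by simp only [c, not_lt.mpr h5, if_false, Int.cast_zero]
      rw [h7, sub_zero]
      exact h6) σ₀
  have hc1 : ((c 1 : ℤ) : Om) = 1 := by
    have h3 : W.valuation ((1 : Om ≃ₐ[K] Om) a - 1) < 1 := ha1
    simp only [c, h3, if_true, Int.cast_one]
  have hσa : W.valuation (σ₀ a - 1) < 1 := by
    by_contra h
    have h3 : ((c σ₀ : ℤ) : Om) = 0 := by simp only [c, h, if_false, Int.cast_zero]
    rw [hc1, h3] at hc
    exact zero_ne_one hc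
  -- the quotient is a root of unity near the unit element
  set ξ : Om := σ₀ a / a with hξ
  have hξq : ξ ^ q = 1 := by
    rw [hξ, div_pow, ← map_pow, haq, h2, ← haq, div_self (pow_ne_zero _ ha0)]
  have hξ1 : W.valuation (ξ - 1) < 1 := by
    have h3 : ξ - 1 = ((σ₀ a - 1) - (a - 1)) / a := by
      rw [hξ]
      field_simp
      ring
    rw [h3, map_div₀, hva, div_one]
    exact (W.valuation.map_sub _ _).trans_lt (max_lt hσa ha1)
  have hξe : ξ = 1 := by
    rcases idem_cases W.valuation p hqp (a := ξ) (β := 0) (by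
      rw [hξq, sub_self, map_zero]) with ⟨_, h3, _⟩ | ⟨h3, _⟩
    · have h4 : (ξ - 1) * ∑ i ∈ Finset.range q, ξ ^ i = ξ ^ q - 1 := mul_geom_sum _ _
      rw [hξq, sub_self] at h4
      rcases mul_eq_zero.mp h4 with h5 | h5
      · exact sub_eq_zero.mp h5
      · rw [h5, map_zero] at h3
        exact absurd h3 zero_ne_one
    · exact absurd hξ1 (not_lt.mpr h3)
  have hσa' : σ₀ a = a := by
    rw [hξ, div_eq_one_iff_eq ha0] at hξe
    exact hξe
  have : NeZero q := ⟨hq.ne_zero⟩
  obtain ⟨i, _, hi⟩ := hζ.eq_pow_of_pow_eq_one hμ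
  have hσμ : σ₀ μ = μ := by rw [← hi, map_pow, h1]
  have hαa : α = a * μ := by
    rw [ha, div_mul_cancel₀ _ hμ0]
  rw [hαa, map_mul, hσa', hσμ]

include hK p hW hS hS1 hS2 hb0 in
/-- Elements near the unit element are `q`-th powers in intermediate fields with roots of unity. -/
theorem exists_root [IsSepClosed Om] (M : IntermediateField K Om) {q : ℕ} (hq : q.Prime)
    (hqp : (q : Om) ≠ 0) {ζ : Om} (hζ : IsPrimitiveRoot ζ q) (hζM : ζ ∈ M) {x : Om} (hxM : x ∈ M)
    (hx : W.valuation x ≤ W.valuation (algebraMap K Om (b ^ 2))) : ∃ y ∈ M, y ^ q = 1 + x := by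
  have : NeZero (q : Om) := ⟨hqp⟩
  obtain ⟨α, hα⟩ := IsSepClosed.exists_pow_nat_eq (1 + x) q
  refine ⟨α, ?_, hα⟩
  rw [← InfiniteGalois.fixedField_fixingSubgroup M]
  rw [IntermediateField.mem_fixedField_iff]
  intro σ hσ
  have hfix : ∀ y ∈ M, σ y = y := fun y hy => (mem_fixingSubgroup_iff _).mp hσ y hy
  refine root_fixed hK p hW hS hS1 hS2 hb0 hq hqp hζ ?_ σ (hfix ζ hζM) ?_
  · rw [hα, add_sub_cancel_left]
    exact hx
  · rw [hα]
    exact hfix _ (M.add_mem M.one_mem hxM)

omit [IsGalois K Om] in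
include hK p hS hS1 hS2 in
/-- The coarsening is henselian. -/
theorem coarse_henselian (hb0 : b ≠ 0) (hb1 : V.valuation b < 1) :
    HenselianLocalRing (coarse V b hb1) := by
  obtain ⟨W, hW⟩ := exists_ext (E := SeparableClosure K) V
  refine henselian_of_stable (Om := SeparableClosure K) (comap_coarse hW hb1) ?_
  intro σ x
  exact conj_stable hK p hW hS hS1 hS2 hb0 hb1 σ x

end

end Pool.Agent.Q175.NFC
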