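import Pool.Agent.Q175.NFC.AS
import Pool.Agent.Q175.NFC.Interp
import Mathlib.FieldTheory.KummerExtension
import Mathlib.FieldTheory.Galois.GaloisClosure
import Mathlib.FieldTheory.IsSepClosed
import Mathlib.RingTheory.RootsOfUnity.AlgebraicallyClosed

/-!
# Finite extensions of `NIP` fields of characteristic `p` which are not closed under `q`-th roots
-/

set_option autoImplicit false

namespace Pool.Agent.Q175.NFC

open Pool.Agent.W882.Nip3 Pool.Agent.Q175.NF
open IntermediateField Module

/-- Artin-Schreier closed fields have no cyclic extension of degree `p`. -/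
theorem not_cyclic_of_as {M N : Type} [Field M] [Field N] [Algebra M N] (p : ℕ) [Fact p.Prime]
    [CharP M p] (hAS : ∀ y : M, ∃ x : M, x ^ p - x = y) (σ : N ≃ₐ[M] N) (hσ : orderOf σ = p)
    (hfix : ∀ x : N, σ x = x → ∃ y : M, algebraMap M N y = x) : False := by
  have hchN : CharP N p := charP_of_injective_algebraMap (algebraMap M N).injective p
  have hp : p.Prime := Fact.out
  have hσp : σ ^ p = 1 := by rw [← hσ]; exact pow_orderOf_eq_one σ
  -- the trace does not vanish
  obtain ⟨t₀, ht₀⟩ : ∃ t₀ : N, ∑ i ∈ Finset.range p, (σ ^ i) t₀ ≠ 0 := by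
    by_contra hcon
    push Not at hcon
    let f : Fin p → (N →* N) := fun i => ((σ ^ (i : ℕ) : N ≃ₐ[M] N) : N →* N)
    have hf : Function.Injective f := by
      intro i j hij
      have h1 : σ ^ (i : ℕ) = σ ^ (j : ℕ) := by
        ext x
        exact DFunLike.congr_fun hij x
      apply Fin.ext
      refine pow_injOn_Iio_orderOf ?_ ?_ h1
      · rw [hσ]; exact i.2
      · rw [hσ]; exact j.2
    have h1 := (linearIndependent_monoidHom N N).comp f hf
    have h2 := Fintype.linearIndependent_iff.mp h1 (fun _ => 1) (by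
      funext x
      simp only [Function.comp_apply, one_smul, Finset.sum_apply, Pi.zero_apply]
      rw [← hcon x, Finset.sum_range]
      rfl) ⟨0, hp.pos⟩
    exact one_ne_zero h2
  set s : N := ∑ i ∈ Finset.range p, (σ ^ i) t₀ with hs
  have hshift : ∀ t : N, ∑ i ∈ Finset.range p, (σ ^ (i + 1)) t = ∑ i ∈ Finset.range p, (σ ^ i) t := by
    intro t
    have h1 := Finset.sum_range_succ (fun i => (σ ^ i) t) p
    have h2 := Finset.sum_range_succ' (fun i => (σ ^ i) t) p
    rw [h1] at h2
    simp only [hσp, pow_zero, AlgEquiv.one_apply] at h2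
    exact (add_right_cancel h2).symm
  have happ : ∀ (i : ℕ) (t : N), σ ((σ ^ i) t) = (σ ^ (i + 1)) t := by
    intro i t
    rw [pow_succ', AlgEquiv.mul_apply]
  have hsσ : σ s = s := by
    rw [hs, map_sum]
    simp only [happ]
    exact hshift t₀
  set t : N := t₀ / s with ht
  have hts : ∑ i ∈ Finset.range p, (σ ^ i) t = 1 := by
    have h1 : ∀ i, (σ ^ i) t = (σ ^ i) t₀ / s := by
      intro i
      rw [ht, map_div₀]
      congr 1
      induction i with
      | zero => rfl
      | succ n ih => rw [← happ, ih, hsσ]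
    simp only [h1]
    rw [← Finset.sum_div, ← hs, div_self ht₀]
  set x : N := - ∑ i ∈ Finset.range p, (i : N) * (σ ^ i) t with hx
  have hσx : σ x = x + 1 := by
    have h1 := Finset.sum_range_succ (fun i => (i : N) * (σ ^ i) t) p
    have h2 := Finset.sum_range_succ' (fun i => (i : N) * (σ ^ i) t) p
    rw [h1] at h2
    simp only [CharP.cast_eq_zero, zero_mul, add_zero, Nat.cast_zero] at h2
    have h3 : σ x = - ∑ i ∈ Finset.range p, (i : N) * (σ ^ (i + 1)) t := by
      rw [hx, map_neg, map_sum]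
      simp only [map_mul, map_natCast, happ]
    have h4 : ∑ i ∈ Finset.range p, ((i + 1 : ℕ) : N) * (σ ^ (i + 1)) t =
        ∑ i ∈ Finset.range p, (i : N) * (σ ^ (i + 1)) t + 1 := by
      rw [← hts, ← hshift t, ← Finset.sum_add_distrib]
      refine Finset.sum_congr rfl fun i _ => ?_
      push_cast
      ring
    rw [h3, hx, h2, h4]
    ring
  have h5 : σ (x ^ p - x) = x ^ p - x := by
    rw [map_sub, map_pow, hσx, add_pow_char, one_pow]
    ring
  obtain ⟨y, hy⟩ := hfix _ h5
  obtain ⟨z, hz⟩ := hAS y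
  have h6 : (x - algebraMap M N z) ^ p = x - algebraMap M N z := by
    rw [sub_pow_char, ← map_pow]
    have h7 : algebraMap M N (z ^ p) = algebraMap M N y + algebraMap M N z := by
      rw [← map_add]
      congr 1
      rw [← hz]
      ring
    rw [h7, hy]
    ring
  obtain ⟨n, hn⟩ := exists_int_of_pow_eq p h6
  have h8 : σ (x - algebraMap M N z) = x - algebraMap M N z := by
    rw [← hn, map_intCast]
  rw [map_sub, AlgEquiv.commutes, hσx] at h8
  have h9 : (1 : N) = 0 := by linear_combination h8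
  exact one_ne_zero h9

/-- Finite Galois extensions of infinite `NIP` fields of characteristic `p` have degree prime to
`p` (Kaplan, Scanlon, Wagner). -/
theorem not_dvd_card {K : Type} [Field K] [FirstOrder.Ring.CompatibleRing K] (hK : NIPField K)
    [Infinite K] (p : ℕ) [Fact p.Prime] [CharP K p] {L : Type} [Field L] [Algebra K L]
    [FiniteDimensional K L] : ¬ p ∣ Nat.card (L ≃ₐ[K] L) := by
  intro h
  obtain ⟨σ, hσ⟩ := exists_prime_orderOf_dvd_card' p h
  let M : IntermediateField K L := fixedField (Subgroup.zpowers σ)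
  let iM : FirstOrder.Ring.CompatibleRing M := FirstOrder.Ring.compatibleRingOfRing M
  have hM : NIPField M := nip_ext M hK
  have hinf : Infinite M := Infinite.of_injective (algebraMap K M) (algebraMap K M).injective
  have hch : CharP M p := charP_of_injective_algebraMap (algebraMap K M).injective p
  have hσM : σ ∈ fixingSubgroup M := by
    rw [fixingSubgroup_fixedField]
    exact Subgroup.mem_zpowers σ
  let τ : L ≃ₐ[M] L := fixingSubgroupEquiv M ⟨σ, hσM⟩
  have hτ : orderOf τ = p := by
    rw [MulEquiv.orderOf_eq, Subgroup.orderOf_mk, hσ]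
  refine not_cyclic_of_as p (as_closed hM p) τ hτ ?_
  intro x hx
  have hx' : σ x = x := hx
  refine ⟨⟨x, ?_⟩, rfl⟩
  rw [mem_fixedField_iff]
  intro f hf
  have h1 : Subgroup.zpowers σ ≤ MulAction.stabilizer (L ≃ₐ[K] L) x := by
    rw [Subgroup.zpowers_le, MulAction.mem_stabilizer_iff]
    exact hx'
  exact MulAction.mem_stabilizer_iff.mp (h1 hf)

/-- In an extension with a primitive `q`-th root of unity whose Galois group has order divisible by
`q` there is an intermediate field which is not closed under `q`-th roots. -/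
theorem exists_sub_fin {K L : Type} [Field K] [Field L] [Algebra K L] [FiniteDimensional K L]
    [IsGalois K L] {q : ℕ} (hq : q.Prime) (hdvd : q ∣ Module.finrank K L) {ζ : L}
    (hζ : IsPrimitiveRoot ζ q) :
    ∃ M : IntermediateField K L, ζ ∈ M ∧ ∃ c ∈ M, ∀ y ∈ M, y ^ q ≠ c := by
  have : Fact q.Prime := ⟨hq⟩
  -- the degree of the cyclotomic extension
  have h1 : ¬ q ∣ Module.finrank K K⟮ζ⟯ := by
    intro h
    have hint : IsIntegral K ζ := Algebra.IsIntegral.isIntegral ζ
    have h2 : Module.finrank K K⟮ζ⟯ = (minpoly K ζ).natDegree := adjoin.finrank hint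
    have h3 : minpoly K ζ ∣ Polynomial.cyclotomic q K := by
      apply minpoly.dvd
      have h4 := hζ.isRoot_cyclotomic hq.pos
      rw [Polynomial.IsRoot, ← Polynomial.map_cyclotomic q (algebraMap K L),
        Polynomial.eval_map_algebraMap] at h4
      exact h4
    have h4 := Polynomial.natDegree_le_of_dvd h3 (Polynomial.cyclotomic_ne_zero q K)
    rw [Polynomial.natDegree_cyclotomic, Nat.totient_prime hq] at h4
    have h5 := Nat.le_of_dvd (by rw [h2]; exact minpoly.natDegree_pos hint) h
    have h6 := hq.two_le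
    omega
  have h2 : q ∣ Nat.card (fixingSubgroup K⟮ζ⟯) := by
    rw [IsGalois.card_fixingSubgroup_eq_finrank]
    have h3 : Module.finrank K K⟮ζ⟯ * Module.finrank K⟮ζ⟯ L = Module.finrank K L :=
      Module.finrank_mul_finrank K K⟮ζ⟯ L
    rw [← h3] at hdvd
    exact (hq.dvd_mul.mp hdvd).resolve_left h1
  obtain ⟨σ, hσ⟩ := exists_prime_orderOf_dvd_card' q h2
  let M : IntermediateField K L := fixedField (Subgroup.zpowers (σ : L ≃ₐ[K] L))
  have hM1 : K⟮ζ⟯ ≤ M := by
    rw [IntermediateField.le_iff_le, Subgroup.zpowers_le]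
    exact σ.2
  have hζM : ζ ∈ M := hM1 (mem_adjoin_simple_self K ζ)
  have hcard : Nat.card (Subgroup.zpowers (σ : L ≃ₐ[K] L)) = q := by
    rw [Nat.card_zpowers, Subgroup.orderOf_coe, hσ]
  have hfr : Module.finrank M L = q := by
    rw [finrank_fixedField_eq_card, hcard]
  have hcyc : IsCyclic (L ≃ₐ[M] L) :=
    isCyclic_of_surjective (subgroupEquivAlgEquiv (Subgroup.zpowers (σ : L ≃ₐ[K] L)))
      (subgroupEquivAlgEquiv (Subgroup.zpowers (σ : L ≃ₐ[K] L))).surjective
  have hζ' : IsPrimitiveRoot (⟨ζ, hζM⟩ : M) q :=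
    IsPrimitiveRoot.of_map_of_injective (f := algebraMap M L) hζ (algebraMap M L).injective
  obtain ⟨α, ⟨c, hc⟩, hα⟩ := exists_root_adjoin_eq_top_of_isCyclic M L (by
    rw [hfr]
    exact ⟨_, (mem_primitiveRoots hq.pos).mpr hζ'⟩)
  rw [hfr] at hc
  refine ⟨M, hζM, c, c.2, ?_⟩
  intro y hy hyc
  have hcL : α ^ q = y ^ q := by
    rw [hyc]
    exact hc.symm
  have hαM : α ∈ M := by
    by_cases hy0 : y = 0
    · rw [hy0, zero_pow hq.ne_zero] at hcL
      rw [pow_eq_zero_iff hq.ne_zero] at hcL
      rw [hcL]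
      exact M.zero_mem
    have h3 : (α / y) ^ q = 1 := by
      rw [div_pow, hcL, div_self (pow_ne_zero _ hy0)]
    obtain ⟨i, _, hi⟩ := hζ.eq_pow_of_pow_eq_one h3
    have h4 : α = ζ ^ i * y := by
      rw [hi, div_mul_cancel₀ _ hy0]
    rw [h4]
    exact M.mul_mem (pow_mem hζM i) hy
  have h5 : (⊤ : IntermediateField M L) = ⊥ := by
    rw [← hα, adjoin_simple_eq_bot_iff, IntermediateField.mem_bot]
    exact ⟨⟨α, hαM⟩, rfl⟩
  have h6 : Module.finrank M L = 1 := by
    rw [← IntermediateField.finrank_top', h5, IntermediateField.finrank_bot]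
  rw [hfr] at h6
  exact hq.one_lt.ne' h6

/-- `NIP` fields of characteristic `p` which are not separably closed have a finite extension which
contains a primitive `q`-th root of unity and is not closed under `q`-th roots, `q` prime. -/
theorem exists_sub {K : Type} [Field K] [FirstOrder.Ring.CompatibleRing K] (hK : NIPField K)
    [Infinite K] (p : ℕ) [Fact p.Prime] [CharP K p] {Om : Type} [Field Om] [Algebra K Om]
    [IsGalois K Om] [IsSepClosed Om] {x : Om} (hx : x ∉ Set.range (algebraMap K Om)) :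
    ∃ (q : ℕ) (M : IntermediateField K Om) (ζ : Om), q.Prime ∧ q ≠ p ∧ FiniteDimensional K M ∧
      IsPrimitiveRoot ζ q ∧ ζ ∈ M ∧ ∃ c ∈ M, ∀ y ∈ M, y ^ q ≠ c := by
  have hchOm : CharP Om p := charP_of_injective_algebraMap (algebraMap K Om).injective p
  let L₁ : FiniteGaloisIntermediateField K Om := FiniteGaloisIntermediateField.adjoin K {x}
  have hxL : x ∈ L₁.toIntermediateField :=
    FiniteGaloisIntermediateField.subset_adjoin K {x} (Set.mem_singleton x)
  have hne : Module.finrank K L₁ ≠ 1 := by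
    intro h
    have h1 : L₁.toIntermediateField = ⊥ := IntermediateField.finrank_eq_one_iff.mp h
    rw [h1, IntermediateField.mem_bot] at hxL
    exact hx hxL
  obtain ⟨q, hq, hqd⟩ := Nat.exists_prime_and_dvd hne
  have hqp : q ≠ p := by
    rintro rfl
    apply not_dvd_card hK q (L := L₁)
    rw [IsGalois.card_aut_eq_finrank]
    exact hqd
  have hqOm : (q : Om) ≠ 0 := by
    intro h
    rw [CharP.cast_eq_zero_iff Om p] at h
    exact hqp ((Nat.prime_dvd_prime_iff_eq Fact.out hq).mp h).symm
  have hNe : NeZero (q : Om) := ⟨hqOm⟩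
  have hNe' : NeZero q := ⟨hq.ne_zero⟩
  obtain ⟨ζ, hζ⟩ := HasEnoughRootsOfUnity.exists_primitiveRoot Om q
  let L : FiniteGaloisIntermediateField K Om := L₁ ⊔ FiniteGaloisIntermediateField.adjoin K {ζ}
  have hL₁L : L₁.toIntermediateField ≤ L.toIntermediateField :=
    le_sup_left (a := L₁) (b := FiniteGaloisIntermediateField.adjoin K {ζ})
  have hζL : ζ ∈ L.toIntermediateField :=
    (le_sup_right (a := L₁) (b := FiniteGaloisIntermediateField.adjoin K {ζ}))
      (FiniteGaloisIntermediateField.subset_adjoin K {ζ} (Set.mem_singleton ζ))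
  have hdvd : q ∣ Module.finrank K L :=
    hqd.trans (IntermediateField.finrank_dvd_of_le_right hL₁L)
  have hζ' : IsPrimitiveRoot (⟨ζ, hζL⟩ : L) q :=
    IsPrimitiveRoot.of_map_of_injective (f := algebraMap L Om) hζ (algebraMap L Om).injective
  obtain ⟨M, hM1, c, hc, hM2⟩ := exists_sub_fin hq hdvd hζ'
  refine ⟨q, lift M, ζ, hq, hqp, ?_, hζ, ?_, c, ?_, ?_⟩
  · exact Module.Finite.equiv (IntermediateField.liftAlgEquiv M).toLinearEquiv
  · exact (mem_lift (⟨ζ, hζL⟩ : L)).mpr hM1
  · exact (mem_lift c).mpr hc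
  · intro y hy hyc
    obtain ⟨y', hy', rfl⟩ := hy
    exact hM2 y' hy' (Subtype.ext hyc)

end Pool.Agent.Q175.NFC
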