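import Pool.Agent.Q175.NFC.Root
import Pool.Agent.Q175.NFC.Sub
import Pool.Agent.Q175.NFC.Enc3
import Pool.Agent.Q175.NF.VTop

/-!
# Definable henselian valuation rings from norm groups, in characteristic `p`
-/

set_option autoImplicit false

namespace Pool.Agent.Q175.NFC

open Pool.Agent.W882.Nip3 Pool.Agent.Q175.NF
open Module

section

variable {K : Type} [Field K] {E : Type} [Field E] [Algebra K E] [Algebra.IsAlgebraic K E]
  (A : ValuationSubring E)

/-- The value group of an algebraic extension is torsion over the value group of the base. -/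
theorem exists_pow_val {y : E} (hy : y ≠ 0) :
    ∃ m : ℕ, 0 < m ∧ ∃ g : K, g ≠ 0 ∧ A.valuation (y ^ m) = A.valuation (algebraMap K E g) := by
  classical
  set f := minpoly K y with hf
  have hf0 : f ≠ 0 := minpoly.ne_zero (Algebra.IsIntegral.isIntegral y)
  let s := f.support
  have hs : s.Nonempty := Polynomial.support_nonempty.mpr hf0
  let u : ℕ → E := fun i => algebraMap K E (f.coeff i) * y ^ i
  have hu0 : ∀ i ∈ s, u i ≠ 0 := by
    intro i hi
    refine mul_ne_zero ?_ (pow_ne_zero _ hy)
    intro h
    exact (Polynomial.mem_support_iff.mp hi) ((map_eq_zero_iff _ (algebraMap K E).injective).mp h)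
  have hsum : ∑ i ∈ s, u i = 0 := by
    have h1 := minpoly.aeval K y
    rw [Polynomial.aeval_eq_sum_range, ← hf] at h1
    have h2 : ∑ i ∈ s, u i = ∑ i ∈ Finset.range (f.natDegree + 1), f.coeff i • y ^ i := by
      rw [← Polynomial.sum_over_range f (f := fun i a => a • y ^ i) (fun n => zero_smul _ _)]
      rw [Polynomial.sum_def]
      exact Finset.sum_congr rfl fun i _ => (Algebra.smul_def _ _).symm
    rw [h2, h1]
  obtain ⟨i, hi, hmax⟩ := Finset.exists_max_image s (fun i => A.valuation (u i)) hs
  obtain ⟨j, hj, hji, hij⟩ : ∃ j ∈ s, j ≠ i ∧ A.valuation (u i) = A.valuation (u j) := by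
    by_contra hcon
    push Not at hcon
    have h1 : ∀ j ∈ s \ {i}, A.valuation (u j) < A.valuation (u i) := by
      intro j hj
      rw [Finset.mem_sdiff, Finset.mem_singleton] at hj
      exact lt_of_le_of_ne (hmax j hj.1) (hcon j hj.1 hj.2).symm
    have h2 := Valuation.map_sum_eq_of_lt A.valuation hi h1
    rw [hsum, map_zero] at h2
    exact (Valuation.ne_zero_iff _).mpr (hu0 i hi) h2.symm
  have key : ∀ i j : ℕ, i ∈ s → j ∈ s → i < j → A.valuation (u i) = A.valuation (u j) →
      ∃ m : ℕ, 0 < m ∧ ∃ g : K, g ≠ 0 ∧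
        A.valuation (y ^ m) = A.valuation (algebraMap K E g) := by
    intro i j hi hj hlt h
    have hci : f.coeff i ≠ 0 := Polynomial.mem_support_iff.mp hi
    have hcj : f.coeff j ≠ 0 := Polynomial.mem_support_iff.mp hj
    refine ⟨j - i, by omega, f.coeff i / f.coeff j, div_ne_zero hci hcj, ?_⟩
    have hcj' : algebraMap K E (f.coeff j) ≠ 0 := fun h =>
      hcj ((map_eq_zero_iff _ (algebraMap K E).injective).mp h)
    have h1 : u j = u i * (algebraMap K E (f.coeff j / f.coeff i) * y ^ (j - i)) := by
      have hci' : algebraMap K E (f.coeff i) ≠ 0 := fun h =>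
        hci ((map_eq_zero_iff _ (algebraMap K E).injective).mp h)
      have h2 : y ^ j = y ^ i * y ^ (j - i) := by rw [← pow_add]; congr 1; omega
      show algebraMap K E (f.coeff j) * y ^ j = algebraMap K E (f.coeff i) * y ^ i *
        (algebraMap K E (f.coeff j / f.coeff i) * y ^ (j - i))
      rw [h2, map_div₀]
      field_simp
    have hi0 : A.valuation (u i) ≠ 0 := (Valuation.ne_zero_iff _).mpr (hu0 i hi)
    have h3 : A.valuation (algebraMap K E (f.coeff j / f.coeff i) * y ^ (j - i)) = 1 := by
      have h4 : A.valuation (u i) * A.valuation (algebraMap K E (f.coeff j / f.coeff i) *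
          y ^ (j - i)) = A.valuation (u i) := by
        rw [← Valuation.map_mul, ← h1]
        exact h.symm
      exact (mul_eq_left₀ hi0).mp h4
    have h5 : y ^ (j - i) = algebraMap K E (f.coeff i / f.coeff j) *
        (algebraMap K E (f.coeff j / f.coeff i) * y ^ (j - i)) := by
      have hci' : algebraMap K E (f.coeff i) ≠ 0 := fun h =>
        hci ((map_eq_zero_iff _ (algebraMap K E).injective).mp h)
      rw [map_div₀, map_div₀]
      field_simp
    rw [h5, map_mul, h3, mul_one]
  rcases lt_or_gt_of_ne hji with h | h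
  · exact key j i hj hi h hij.symm
  · exact key i j hi hj h hij

theorem exists_base_le {y : E} (hy : y ≠ 0) :
    ∃ b : K, b ≠ 0 ∧ A.valuation (algebraMap K E b) ≤ A.valuation y := by
  rcases le_or_gt 1 (A.valuation y) with h | h
  · exact ⟨1, one_ne_zero, by rwa [map_one, map_one]⟩
  · obtain ⟨m, hm, g, hg, h1⟩ := exists_pow_val (K := K) A hy
    refine ⟨g, hg, ?_⟩
    rw [← h1, map_pow]
    obtain ⟨n, rfl⟩ : ∃ n, m = n + 1 := ⟨m - 1, by omega⟩
    rw [pow_succ]
    exact mul_le_of_le_one_left' (pow_le_one₀ zero_le h.le)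

theorem eq_top_of_comap (h : A.comap (algebraMap K E) = ⊤) : A = ⊤ := by
  have h1 : ∀ y : E, y ≠ 0 → 1 ≤ A.valuation y := by
    intro y hy
    obtain ⟨b, hb, hby⟩ := exists_base_le (K := K) A hy
    refine le_trans ?_ hby
    have h2 : algebraMap K E b⁻¹ ∈ A := by
      have h3 : b⁻¹ ∈ A.comap (algebraMap K E) := by rw [h]; exact ValuationSubring.mem_top _
      exact h3
    rw [← ValuationSubring.valuation_le_one_iff, map_inv₀, map_inv₀] at h2
    have h4 : 0 < A.valuation (algebraMap K E b) := zero_lt_iff.mpr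
      ((Valuation.ne_zero_iff _).mpr fun h => hb
        ((map_eq_zero_iff _ (algebraMap K E).injective).mp h))
    exact (inv_le_one₀ h4).mp h2
  ext y
  refine ⟨fun _ => ValuationSubring.mem_top y, fun _ => ?_⟩
  by_cases hy : y = 0
  · rw [hy]; exact A.zero_mem
  have h2 := h1 y⁻¹ (inv_ne_zero hy)
  rw [map_inv₀, one_le_inv₀ (zero_lt_iff.mpr ((Valuation.ne_zero_iff _).mpr hy))] at h2
  exact (ValuationSubring.valuation_le_one_iff _ _).mp h2

end

/-- Fields with a nontrivial valuation ring are infinite. -/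
theorem infinite_of_ne_top {K : Type} [Field K] {V : ValuationSubring K} (hV : V ≠ ⊤) :
    Infinite K := by
  obtain ⟨x, hx⟩ : ∃ x, x ∉ V := by
    by_contra hcon
    push Not at hcon
    exact hV (by
      ext x
      exact ⟨fun _ => ValuationSubring.mem_top x, fun _ => hcon x⟩)
  have h1 : 1 < V.valuation x := one_lt_val_iff.mpr hx
  have h2 : StrictMono fun n : ℕ => V.valuation x ^ n := pow_right_strictMono₀ h1
  refine Infinite.of_injective (fun n : ℕ => x ^ n) fun n m hnm => ?_
  apply h2.injective
  show V.valuation x ^ n = V.valuation x ^ m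
  rw [← map_pow, ← map_pow]
  exact congrArg _ hnm

/-- The norm group obstruction excludes separably closed fields. -/
theorem exists_not_mem {K : Type} [Field K] {M : Type} [Field M] [Algebra K M]
    [Algebra.IsAlgebraic K M] {W : ValuationSubring M} (L : Type) [Field L] [Algebra M L]
    [FiniteDimensional M L] [Algebra.IsSeparable M L] {c e : M} (he : e ≠ 0)
    (h : ∀ x : L, W.valuation e ≤ W.valuation (Algebra.norm M x - c)) {Om : Type} [Field Om]
    [Algebra K Om] [IsSepClosed Om] : ∃ x : Om, x ∉ Set.range (algebraMap K Om) := by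
  by_contra hcon
  push Not at hcon
  have hKs : IsSepClosed K := by
    apply IsSepClosed.of_exists_root
    intro f hf1 hf2 hf3
    obtain ⟨z, hz⟩ := IsSepClosed.exists_aeval_eq_zero Om f hf2.degree_pos.ne' hf3
    obtain ⟨y, hy⟩ := hcon z
    refine ⟨y, ?_⟩
    rw [← hy, Polynomial.aeval_algebraMap_apply] at hz
    exact (map_eq_zero_iff _ (algebraMap K Om).injective).mp hz
  have hMs : IsSepClosed M := Algebra.IsAlgebraic.isSepClosed (F := K)
  have h2 : Function.Surjective (algebraMap M L) := IsSepClosed.algebraMap_surjective M L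
  have h3 : Module.finrank M L = 1 := by
    have h4 : (⊥ : Subalgebra M L) = ⊤ := by
      refine eq_top_iff.mpr fun y _ => ?_
      obtain ⟨x, hx⟩ := h2 y
      exact ⟨x, hx⟩
    exact Subalgebra.bot_eq_top_iff_finrank_eq_one.mp h4
  have h4 := h (algebraMap M L c)
  rw [Algebra.norm_algebraMap, h3, pow_one, sub_self, map_zero] at h4
  exact (Valuation.ne_zero_iff _).mpr he (le_antisymm h4 zero_le)

/-- The definable `V`-topology on the base field. -/
theorem vtop_tower {K : Type} [Field K] [FirstOrder.Ring.CompatibleRing K] (hK : Tame K)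
    {V : ValuationSubring K} (hV : V ≠ ⊤) {M : Type} [Field M] [Algebra K M]
    [FiniteDimensional K M] {W : ValuationSubring M} (hW : W.comap (algebraMap K M) = V)
    (L : Type) [Field L] [Algebra M L] [FiniteDimensional M L] [Algebra.IsSeparable M L]
    {c e : M} (he : e ≠ 0) (h : ∀ x : L, W.valuation e ≤ W.valuation (Algebra.norm M x - c)) :
    ∃ S : Set K, IsDefinable S ∧ (∀ x ∈ S, x ∈ V) ∧
      ∃ b, b ≠ 0 ∧ ∀ x, V.valuation x ≤ V.valuation b → x ∈ S := by
  let iM : FirstOrder.Ring.CompatibleRing M := FirstOrder.Ring.compatibleRingOfRing M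
  have hWt : W ≠ ⊤ := by
    rintro rfl
    apply hV
    rw [← hW]
    ext x
    exact ⟨fun _ => ValuationSubring.mem_top x, fun _ => ValuationSubring.mem_top _⟩
  obtain ⟨S, hS, hSW, b, hb, hbS⟩ := vtop (tame_ext M hK) hWt L he h
  refine ⟨{x | algebraMap K M x ∈ S}, isDefinable_comap hS, ?_, ?_⟩
  · intro x hx
    rw [← hW]
    exact hSW _ hx
  · obtain ⟨b', hb', hbb⟩ := exists_base_le (K := K) W hb
    refine ⟨b', hb', fun x hx => ?_⟩
    apply hbS
    exact ((ext_le_iff hW x b').mpr hx).trans hbb

end Pool.Agent.Q175.NFC
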