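import Pool.Agent.Q175.NFC.Fin

/-!
# Dependence of valuation rings with a definable topology, in characteristic `p`
-/

set_option autoImplicit false

namespace Pool.Agent.Q175.NFC

open Pool.Agent.W882.Nip3 Pool.Agent.Q175.NF
open Module

section

variable {F : Type} [Field F] {A B : ValuationSubring F}

/-- Independent valuation rings induce different topologies. -/
theorem exists_indep (hB : B ≠ ⊤) (hind : ∀ C : ValuationSubring F, A ≤ C → B ≤ C → C = ⊤)
    {α β : F} (hα : α ≠ 0) (hβ : β ≠ 0) :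
    ∃ t, A.valuation t ≤ A.valuation α ∧ B.valuation β ≤ B.valuation t := by
  by_contra hcon
  push Not at hcon
  have hN : ∀ z ∈ A, α / β * z ∈ B := by
    intro z hz
    have h1 := hcon (α * z) (by
      rw [map_mul]
      exact mul_le_of_le_one_right' ((ValuationSubring.valuation_le_one_iff _ _).mpr hz))
    rw [← ValuationSubring.valuation_le_one_iff]
    have h2 : α / β * z = α * z / β := by ring
    rw [h2, map_div₀]
    exact (div_le_one₀ (zero_lt_iff.mpr ((Valuation.ne_zero_iff _).mpr hβ))).mpr h1.le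
  let S : Subring F :=
    { carrier := {x | ∀ z, (∀ a ∈ A, z * a ∈ B) → ∀ a ∈ A, (x * z) * a ∈ B}
      mul_mem' := by
        intro x y hx hy z hz a ha
        have h1 := hx (y * z) (fun a ha => hy z hz a ha) a ha
        rwa [← mul_assoc] at h1
      one_mem' := by
        intro z hz a ha
        rw [one_mul]
        exact hz a ha
      add_mem' := by
        intro x y hx hy z hz a ha
        rw [add_mul, add_mul]
        exact B.add_mem _ _ (hx z hz a ha) (hy z hz a ha)
      zero_mem' := by
        intro z hz a ha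
        rw [zero_mul, zero_mul]
        exact B.zero_mem
      neg_mem' := by
        intro x hx z hz a ha
        rw [neg_mul, neg_mul]
        exact B.neg_mem _ (hx z hz a ha) }
  have hAS : A.toSubring ≤ S := by
    intro x hx z hz a ha
    have h1 := hz (x * a) (A.mul_mem _ _ hx ha)
    rwa [← mul_assoc, mul_comm z x] at h1
  have hBS : B.toSubring ≤ S := by
    intro x hx z hz a ha
    rw [mul_assoc]
    exact B.mul_mem _ _ hx (hz a ha)
  have h1 := hind (ValuationSubring.ofLE A S hAS) hAS hBS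
  apply hB
  ext x
  refine ⟨fun _ => ValuationSubring.mem_top x, fun _ => ?_⟩
  have h2 : x / (α / β) ∈ ValuationSubring.ofLE A S hAS := by
    rw [h1]
    exact ValuationSubring.mem_top _
  have h3 := h2 (α / β) hN 1 A.one_mem
  rwa [mul_one, div_mul_cancel₀ _ (div_ne_zero hα hβ)] at h3

/-- An open subgroup for two independent valuation rings is everything. -/
theorem isPow_of_indep {q : ℕ} (hB : B ≠ ⊤)
    (hind : ∀ C : ValuationSubring F, A ≤ C → B ≤ C → C = ⊤) {a b : F} (ha : a ≠ 0) (hb : b ≠ 0)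
    (ha1 : A.valuation a < 1) (hb1 : B.valuation b < 1)
    (hA : ∀ x, A.valuation x ≤ A.valuation a → IsPow q (1 + x))
    (hBp : ∀ x, B.valuation x ≤ B.valuation b → IsPow q (1 + x)) {c : F} (hc : c ≠ 0) :
    IsPow q c := by
  by_cases hc1 : c = 1
  · rw [hc1]
    exact isPow_one
  have hc2 : c - 1 ≠ 0 := sub_ne_zero.mpr hc1
  obtain ⟨α, hα, hα1, hα2⟩ : ∃ α, α ≠ 0 ∧ A.valuation α ≤ A.valuation a ∧
      A.valuation (α * (c - 1)) ≤ A.valuation a := by
    rcases le_or_gt (A.valuation (c - 1)) 1 with h | h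
    · refine ⟨a, ha, le_rfl, ?_⟩
      rw [map_mul]
      exact mul_le_of_le_one_right' h
    · refine ⟨a / (c - 1), div_ne_zero ha hc2, ?_, ?_⟩
      · rw [map_div₀, div_le_iff₀ (zero_lt_one.trans h)]
        exact le_mul_of_one_le_right' h.le
      · rw [div_mul_cancel₀ _ hc2]
  obtain ⟨β, hβ, hβ1, hβ2⟩ : ∃ β, β ≠ 0 ∧ 1 < B.valuation β ∧
      B.valuation ((1 - c) / β / c) ≤ B.valuation b := by
    have hbi : 1 < B.valuation b⁻¹ := by
      rw [map_inv₀]
      exact (one_lt_inv₀ (zero_lt_iff.mpr ((Valuation.ne_zero_iff _).mpr hb))).mpr hb1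
    have hc3 : 1 - c ≠ 0 := by
      intro h
      exact hc1 (sub_eq_zero.mp h).symm
    rcases le_or_gt (B.valuation ((1 - c) / c)) 1 with h | h
    · refine ⟨b⁻¹, inv_ne_zero hb, hbi, ?_⟩
      have h2 : (1 - c) / b⁻¹ / c = b * ((1 - c) / c) := by
        field_simp
      rw [h2, map_mul]
      exact mul_le_of_le_one_right' h
    · refine ⟨b⁻¹ * ((1 - c) / c), mul_ne_zero (inv_ne_zero hb) (div_ne_zero hc3 hc), ?_, ?_⟩
      · rw [map_mul]
        exact one_lt_mul_of_lt_of_le hbi h.le
      · have h2 : (1 - c) / (b⁻¹ * ((1 - c) / c)) / c = b := by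
          field_simp
        rw [h2]
  obtain ⟨t, ht1, ht2⟩ := exists_indep hB hind hα hβ
  have htA : A.valuation t < 1 := (ht1.trans hα1).trans_lt ha1
  have htB : 1 < B.valuation t := hβ1.trans_le ht2
  have h1tA : A.valuation (1 + t) = 1 := by
    rw [Valuation.map_add_eq_of_lt_left _ (by rwa [map_one]), map_one]
  have h1tB : B.valuation (1 + t) = B.valuation t :=
    Valuation.map_add_eq_of_lt_right _ (by rwa [map_one])
  have h1t : 1 + t ≠ 0 := by
    intro h
    rw [h, map_zero] at h1tA
    exact zero_ne_one h1tA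
  set y : F := 1 + t / (1 + t) * (c - 1) with hy
  have hyA : IsPow q y := by
    apply hA
    rw [map_mul, map_div₀, h1tA, div_one, ← map_mul]
    refine le_trans ?_ hα2
    rw [map_mul, map_mul]
    exact mul_le_mul_left ht1 _
  have hyB : IsPow q (1 + (1 - c) / (1 + t) / c) := by
    apply hBp
    refine le_trans ?_ hβ2
    rw [map_div₀, map_div₀, map_div₀, map_div₀, h1tB]
    have hBc : 0 < B.valuation c := zero_lt_iff.mpr ((Valuation.ne_zero_iff _).mpr hc)
    have hBβ : 0 < B.valuation β := zero_lt_iff.mpr ((Valuation.ne_zero_iff _).mpr hβ)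
    have h5 : B.valuation (1 - c) / B.valuation t ≤ B.valuation (1 - c) / B.valuation β := by
      rw [div_eq_mul_inv, div_eq_mul_inv]
      exact mul_le_mul_right ((inv_le_inv₀ (hBβ.trans_le ht2) hBβ).mpr ht2) _
    rw [div_eq_mul_inv, div_eq_mul_inv (_ / _)]
    exact mul_le_mul_left h5 _
  have hyc : y = (1 + (1 - c) / (1 + t) / c) * c := by
    rw [hy]
    field_simp
    ring
  have hy0 : y ≠ 0 := by
    have h2 : A.valuation (t / (1 + t) * (c - 1)) < 1 := by
      rw [map_mul, map_div₀, h1tA, div_one, ← map_mul]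
      refine lt_of_le_of_lt (le_trans ?_ hα2) ha1
      rw [map_mul, map_mul]
      exact mul_le_mul_left ht1 _
    intro h
    have h3 : A.valuation y = 1 := by
      rw [hy, Valuation.map_add_eq_of_lt_left _ (by rwa [map_one]), map_one]
    rw [h, map_zero] at h3
    exact zero_ne_one h3
  have h4 : 1 + (1 - c) / (1 + t) / c ≠ 0 := by
    intro h
    rw [h, zero_mul] at hyc
    exact hy0 hyc
  rw [hyc, mul_comm] at hyA
  exact hyA.of_mul hyB h4

end

/-- In `NIP` fields of characteristic `p` which are not separably closed any two valuation rings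
with a definable topology are dependent. -/
theorem dependent {K : Type} [Field K] [FirstOrder.Ring.CompatibleRing K] (hK : NIPField K)
    (p : ℕ) [Fact p.Prime] [CharP K p] {V : ℕ → ValuationSubring K} (hV : ∀ i, V i ≠ ⊤)
    (hS : ∀ i, ∃ S : Set K, IsDefinable S ∧ (∀ x ∈ S, x ∈ V i) ∧ ∃ b, b ≠ 0 ∧
      ∀ x, (V i).valuation x ≤ (V i).valuation b → x ∈ S)
    (hns : ∃ x : SeparableClosure K, x ∉ Set.range (algebraMap K (SeparableClosure K))) :
    ∃ C : ValuationSubring K, C ≠ ⊤ ∧ V 0 ≤ C ∧ V 1 ≤ C := by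
  by_contra hcon
  push Not at hcon
  have hinf : Infinite K := infinite_of_ne_top (hV 0)
  obtain ⟨x₀, hx₀⟩ := hns
  obtain ⟨q, M, ζ, hq, hqp, hMf, hζ, hζM, c, hcM, hc⟩ := exists_sub hK p hx₀
  have hqp' : Nat.Coprime p q :=
    (Nat.coprime_primes Fact.out hq).mpr hqp.symm
  have hchOm : CharP (SeparableClosure K) p :=
    charP_of_injective_algebraMap (algebraMap K (SeparableClosure K)).injective p
  have hchM : CharP M p := charP_of_injective_algebraMap (algebraMap K M).injective p
  have hqOm : (q : SeparableClosure K) ≠ 0 := by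
    intro h
    rw [CharP.cast_eq_zero_iff (SeparableClosure K) p] at h
    exact hqp ((Nat.prime_dvd_prime_iff_eq Fact.out hq).mp h).symm
  have key : ∀ i, ∃ A : ValuationSubring M, A.comap (algebraMap K M) = V i ∧ ∃ a : M, a ≠ 0 ∧
      A.valuation a < 1 ∧ ∀ x, A.valuation x ≤ A.valuation a → IsPow q (1 + x) := by
    intro i
    obtain ⟨S, hSd, hSV, b, hb, hbS⟩ := hS i
    obtain ⟨d, hd0, hd1⟩ := exists_small_ne_zero (hV i)
    set b' : K := d * b with hb'
    have hb0' : b' ≠ 0 := mul_ne_zero hd0 hb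
    set S' : Set K := {x | d⁻¹ * x ∈ S} with hS'
    have hS'd : IsDefinable S' := by
      rw [isDefinable_iff]
      exact PD.mem hSd ((PT.const d⁻¹).mul (PT.var 0))
    have hS1 : ∀ x ∈ S', (V i).valuation x < 1 := by
      intro x hx
      have h1 : (V i).valuation (d⁻¹ * x) ≤ 1 :=
        (ValuationSubring.valuation_le_one_iff _ _).mpr (hSV _ hx)
      have h2 : x = d * (d⁻¹ * x) := by rw [← mul_assoc, mul_inv_cancel₀ hd0, one_mul]
      rw [h2, map_mul]
      exact mul_lt_one_of_nonneg_of_lt_one_left zero_le hd1 h1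
    have hdp : (V i).valuation d ≠ 0 := (Valuation.ne_zero_iff _).mpr hd0
    have hS2 : ∀ x, (V i).valuation x ≤ (V i).valuation b' → x ∈ S' := by
      intro x hx
      apply hbS
      rw [map_mul, map_inv₀]
      rw [hb', map_mul] at hx
      rwa [inv_mul_le_iff₀ (zero_lt_iff.mpr hdp)]
    have hb1' : (V i).valuation b' < 1 := hS1 _ (hS2 _ le_rfl)
    obtain ⟨W, hW⟩ := exists_ext (E := SeparableClosure K) (V i)
    have hVM' : (W.comap (algebraMap M (SeparableClosure K))).comap (algebraMap K M) = V i := by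
      rw [← hW]
      ext x
      rw [ValuationSubring.mem_comap, ValuationSubring.mem_comap, ValuationSubring.mem_comap,
        ← IsScalarTower.algebraMap_apply]
    refine ⟨W.comap (algebraMap M (SeparableClosure K)), hVM', algebraMap K M (b' ^ 2), ?_, ?_, ?_⟩
    · exact fun h => pow_ne_zero 2 hb0' ((map_eq_zero_iff _ (algebraMap K M).injective).mp h)
    · rw [ext_lt_one hVM', map_pow]
      exact pow_lt_one₀ zero_le hb1' two_ne_zero
    · intro x hx
      rw [← ext_le_iff (rfl : W.comap (algebraMap M (SeparableClosure K)) = _),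
        ← IsScalarTower.algebraMap_apply K M (SeparableClosure K)] at hx
      obtain ⟨y, hyM, hy⟩ := exists_root hK p hW hS'd hS1 hS2 hb0' M hq hqOm hζ hζM x.2 hx
      exact ⟨⟨y, hyM⟩, Subtype.ext hy⟩
  obtain ⟨A, hAV, a, ha0, ha1, hap⟩ := key 0
  obtain ⟨B, hBV, b, hb0, hb1, hbp⟩ := key 1
  have hBt : B ≠ ⊤ := by
    rintro rfl
    apply hV 1
    rw [← hBV]
    ext x
    exact ⟨fun _ => ValuationSubring.mem_top x, fun _ => ValuationSubring.mem_top _⟩
  have hind : ∀ C : ValuationSubring M, A ≤ C → B ≤ C → C = ⊤ := by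
    intro C hAC hBC
    by_contra hC
    refine hcon (C.comap (algebraMap K M)) (fun h => hC (eq_top_of_comap C h)) ?_ ?_
    · rw [← hAV]
      exact fun x hx => hAC hx
    · rw [← hBV]
      exact fun x hx => hBC hx
  have hc0 : (⟨c, hcM⟩ : M) ≠ 0 := by
    intro h
    have h1 : c = 0 := congrArg Subtype.val h
    exact hc 0 M.zero_mem (by rw [h1, zero_pow hq.ne_zero])
  obtain ⟨y, hy⟩ := isPow_of_indep hBt hind ha0 hb0 ha1 hb1 hap hbp hc0
  exact hc y y.2 (congrArg Subtype.val hy)

end Pool.Agent.Q175.NFC
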